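import Pool.Agent.MP_9cb8e5_pr.H55.LRig
import Pool.Agent.MP_9cb8e5_pr.H67.Fail

/-! Property (R) from gaps whose depth depends on one exponential moment only. -/

open MeasureTheory Set Filter Topology ProbabilityTheory Pool.Agent.MP_9cb8e5_pr.H67

namespace Pool.Agent.MP_9cb8e5_pr.H55

/-- a decomposition that is far from proportional, for a measure with a gap of depth `δ` -/
def FarL (b : Bool) (m R B δ : ℝ) (μ ρ₀ ρ₁ : Measure ℝ) (c t : ℝ) : Prop :=
  (IsProbabilityMeasure μ ∧ IsProbabilityMeasure ρ₀ ∧ IsProbabilityMeasure ρ₁) ∧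
  (∀ᵐ w ∂μ, 0 ≤ w) ∧ m⁻¹ ≤ ∫ w, |w| * Real.exp (-|w|) ∂μ ∧ (c ∈ Icc m⁻¹ m ∧ t ∈ Icc m⁻¹ m) ∧
  (∃ v, 0 < v ∧ ∫ w in Ici v, (√w)⁻¹ ∂μ ≤ δ ∧ ∫ w in Iio v, Real.exp (R * w) ∂μ ≤ B) ∧
  (∀ ξ, ∃ s u, 0 ≤ s ∧ 0 ≤ u ∧ s + u = psi b c t ξ ∧ Cs ρ₀ ξ = lap μ s ∧ Cs ρ₁ ξ = lap μ u) ∧
  ∀ a ∈ Icc (0 : ℝ) 1, ∫ ξ, jj (lap μ) (psi b c t) (Cs ρ₀) (Cs ρ₁) a ξ ∂gm ≤ -m⁻¹

theorem not_farL (b : Bool) {m : ℝ} (hm : 0 < m) : ∃ R, 0 < R ∧ ∀ B,
    ∃ δ, 0 < δ ∧ ∀ μ ρ₀ ρ₁ c t, ¬ FarL b m R B δ μ ρ₀ ρ₁ c t := by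
  obtain ⟨R, hR0, hrig⟩ := loc_rig b hm
  have hR := hR0.le
  refine ⟨R, hR0, fun B => ?_⟩
  by_contra hcon
  push Not at hcon
  choose μ ρ₀ ρ₁ c t h using fun k : ℕ => hcon (1 / ((k : ℝ) + 1)) (by positivity)
  obtain ⟨⟨c', t'⟩, ⟨hc, ht⟩, φ, hφ, hct⟩ := (isCompact_Icc.prod isCompact_Icc).tendsto_subseq
    (x := fun k => (c k, t k)) fun k => (h k).2.2.2.1
  obtain ⟨χ, hχ, ν, hν⟩ := vague (fun k => ![μ (φ k), ρ₀ (φ k), ρ₁ (φ k)]) fun k i => by
    fin_cases i; exacts [(h _).1.1, (h _).1.2.1, (h _).1.2.2]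
  have hm' := inv_pos.2 hm
  have hc' := hm'.trans_le hc.1
  have ht' := hm'.trans_le ht.1
  have pμ := fun k => (h k).1.1
  have H : Sq (fun k => μ (φ (χ k))) (fun k => ρ₀ (φ (χ k))) (fun k => ρ₁ (φ (χ k)))
      (fun k => psi b (c (φ (χ k))) (t (φ (χ k)))) (ν 0) (ν 1) (ν 2) (psi b c' t') :=
    { pμ := fun k => pμ _
      p₀ := fun k => (h _).1.2.1.measure_univ.le
      p₁ := fun k => (h _).1.2.2.measure_univ.le
      mμ := (hν 0).1, m₀ := (hν 1).1, m₁ := (hν 2).1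
      vμ := (hν 0).2.2, v₀ := (hν 1).2.2, v₁ := (hν 2).2.2
      ms := fun k => ((cont_psi b).comp (f := fun ξ => ((_, _), ξ)) (by fun_prop)).measurable
      cψ := (cont_psi b).comp (f := fun ξ => ((c', t'), ξ)) (by fun_prop)
      nn := psi_nonneg b hc'.le t'
      pos := psi_pos b hc' ht'
      lim := fun ξ => ((cont_psi b).tendsto ((c', t'), ξ)).comp
        ((hct.comp hχ.tendsto_atTop).prodMk_nhds tendsto_const_nhds)
      dec := fun k => (h _).2.2.2.2.2.1 }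
  have := fin_of_le H.mμ
  have nn := (hν 0).2.1
  have ne : ¬ ∀ᵐ w ∂ν 0, w = 0 := fun h0 => by
    have h1 := ge_of_tendsto' (H.vμ (fun w => w * Real.exp (-w)) (by fun_prop)
      (by simpa using Real.tendsto_pow_mul_exp_neg_atTop_nhds_zero 1)) fun k => (h _).2.2.1
    rw [integral_eq_zero_of_ae (h0.mono fun w hw => by simp [hw])] at h1
    linarith
  have ex : Integrable (fun w => Real.exp (R * w)) (ν 0) := by
    have hc : ∀ N, Continuous (cut R N) := fun N => by unfold cut; fun_prop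
    have i1 : ∀ N : ℝ, IntegrableOn (fun w => Real.exp (R * w)) (Iic N) (ν 0) := fun N =>
      Measure.integrableOn_of_bounded (M := Real.exp (R * N)) (measure_ne_top _ _) (by fun_prop)
        (ae_restrict_of_forall_mem measurableSet_Iic fun w (hw : w ≤ N) => by
          rw [Real.norm_of_nonneg (Real.exp_pos _).le]; gcongr)
    refine (aecover_Iic tendsto_id).integrable_of_integral_bounded_of_nonneg_ae B i1
      (Eventually.of_forall fun w => (Real.exp_pos _).le) ((eventually_ge_atTop 0).mono fun N hN => ?_)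
    have h1 : Tendsto (fun k : ℕ => B + Real.exp (R * (N + 1)) * √(N + 1) *
        (1 / ((φ (χ k) : ℝ) + 1))) atTop (𝓝 (B + Real.exp (R * (N + 1)) * √(N + 1) * 0)) :=
      ((tendsto_one_div_add_atTop_nhds_zero_nat.comp
        (hφ.comp hχ).tendsto_atTop).const_mul _).const_add _
    have h2 := le_of_tendsto_of_tendsto' (H.vμ (cut R N) (hc N) (tendsto_const_nhds.congr' (by
      filter_upwards [eventually_ge_atTop (N + 1)] with w hw
      rw [cut, max_eq_left (min_le_of_right_le (by linarith)), mul_zero]))) h1 fun k => by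
        obtain ⟨v, a1, a2, a3⟩ := (h (φ (χ k))).2.2.2.2.1
        exact (cut_le (h _).2.1 hR hN a1).trans (add_le_add a3 (by gcongr))
    rw [mul_zero, add_zero] at h2
    refine le_trans ?_ h2
    rw [← integral_indicator measurableSet_Iic]
    refine integral_mono ((i1 N).integrable_indicator measurableSet_Iic)
      ((integrable_const (Real.exp (R * (N + 1)))).mono' (hc N).aestronglyMeasurable
        (Eventually.of_forall fun w => ?_)) fun w => ?_
    · rw [Real.norm_of_nonneg (by unfold cut; positivity), cut]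
      rcases le_total w (N + 1) with h' | h'
      · exact (mul_le_of_le_one_right (Real.exp_pos _).le
          (max_le zero_le_one (min_le_left _ _))).trans (by gcongr)
      · rw [max_eq_left (min_le_of_right_le (by linarith)), mul_zero]; positivity
    · by_cases hw : w ∈ Iic (id N)
      · have hw' : w ≤ N := hw
        rw [indicator_of_mem hw, cut, min_eq_left (by linarith), max_eq_right zero_le_one, mul_one]
      · rw [indicator_of_notMem hw, cut]; positivity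
  refine hrig _ _ _ c' t' ⟨⟨_, _, _, _, H⟩, ⟨hc, ht⟩, nn, ne, ex, fun a ha => le_of_not_gt fun h0 => ?_⟩
  obtain ⟨k, hk⟩ := (H.jlim (α := fun _ => a) measurable_const (fun _ => ha) h0).exists
  exact hk.not_ge ((h _).2.2.2.2.2.2 a ha)

theorem loc_gap : ∃ D : ℝ → ℝ → ℝ, (∀ R B, 0 < D R B) ∧ ∀ μ : Measure ℝ,
    IsProbabilityMeasure μ → (∀ᵐ w ∂μ, 0 ≤ w) → (¬ ∀ᵐ w ∂μ, w = 0) →
    (∃ᶠ R in atTop, ∃ v B, 0 < v ∧ ∫ w in Iio v, Real.exp (R * w) ∂μ ≤ B ∧
      ∫ w in Ici v, (√w)⁻¹ ∂μ ≤ D R B) →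
    ∀ L : ℝ → ℝ, (∀ s, 0 ≤ s → L s = ∫ w, Real.exp (-s * w) ∂μ) → PropR L := by
  classical
  choose R hR δ hδ h using fun (n : ℕ) b => not_farL b (m := n + 1) (by positivity)
  set N : ℝ → ℕ := fun x => Nat.findGreatest (fun n => ∀ b, R n b ≤ x) ⌊x⌋₊ with hN
  have N1 : ∀ n, ∀ᶠ x in atTop, n ≤ N x ∧ ∀ b, R (N x) b ≤ x := fun n => by
    filter_upwards [eventually_all.2 fun b => eventually_ge_atTop (R n b),
      eventually_ge_atTop (n : ℝ)] with x a1 a2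
    exact ⟨Nat.le_findGreatest (Nat.le_floor a2) a1,
      Nat.findGreatest_spec (P := fun n => ∀ b, R n b ≤ x) (Nat.le_floor a2) a1⟩
  have N2 : Tendsto N atTop atTop := tendsto_atTop.2 fun n => (N1 n).mono fun x hx => hx.1
  refine ⟨fun x B => min (δ (N x) true B) (δ (N x) false B), fun x B => lt_min (hδ _ _ _) (hδ _ _ _),
    fun μ hμ nn ne hf L hL => ?_⟩
  have e : ∀ s, 0 ≤ s → L s = lap μ s := fun s hs => (hL s hs).trans
    (integral_congr_ae (nn.mono fun w hw => by simp [abs_of_nonneg hs, abs_of_nonneg hw]))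
  have inj : ∀ s u, 0 ≤ s → 0 ≤ u → lap μ s = lap μ u → s = u := fun s u hs hu h =>
    le_antisymm (le_of_not_gt fun a => (lap_strict ne hu a).ne h)
      (le_of_not_gt fun a => (lap_strict ne hs a).ne' h)
  refine propR_of_rigid (fun s hs u hu h => inj s u hs hu (by rwa [← e s hs, ← e u hu]))
    fun b c t ρ η hc ht h3 h4 => ?_
  have cs : ∀ j ξ, Cs (ρ j) ξ = lap μ (η j ξ) := fun j ξ => by
    rw [← re_charFun, (h3 j ξ).1, Complex.ofReal_re, e _ (h3 j ξ).2]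
  have hψ : Continuous (psi b c t) := (cont_psi b).comp (f := fun ξ => ((c, t), ξ)) (by fun_prop)
  have c0 := cont_lap (μ := μ)
  have c1 := cont_Cs (ν := ρ 0)
  have c2 := cont_Cs (ν := ρ 1)
  have hi := fun a : ℝ => expand (tf_Cs (ν := ρ 0) prob_le_one) (tf_Cs (ν := ρ 1) prob_le_one)
    ((tf_lap (μ := μ) prob_le_one).comp (φ := fun ξ => a * psi b c t ξ) (by fun_prop))
    ((tf_lap (μ := μ) prob_le_one).comp (φ := fun ξ => (1 - a) * psi b c t ξ) (by fun_prop))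
  have hJ : Continuous fun a => ∫ ξ, jj (lap μ) (psi b c t) (Cs (ρ 0)) (Cs (ρ 1)) a ξ ∂gm :=
    continuous_of_dominated (fun a => (hi a).1.1) (fun a => Eventually.of_forall fun ξ => by
      rw [jj, norm_mul]
      have a1 := (tf_Cs (ν := ρ 0) prob_le_one).2 ξ
      have a2 := (tf_Cs (ν := ρ 1) prob_le_one).2 ξ
      have a3 := (tf_lap (μ := μ) prob_le_one).2
      exact mul_le_mul ((abs_sub _ _).trans (add_le_add a1 (a3 _)))
        ((abs_sub _ _).trans (add_le_add a2 (a3 _))) (norm_nonneg _) (by norm_num))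
      (integrable_const ((1 + 1) * (1 + 1) : ℝ)) (Eventually.of_forall fun ξ => by unfold jj; fun_prop)
  obtain ⟨a, ha, hmax⟩ := isCompact_Icc.exists_isMaxOn (nonempty_Icc.2 zero_le_one) hJ.continuousOn
  have hneg : ∀ ξ, jj (lap μ) (psi b c t) (Cs (ρ 0)) (Cs (ρ 1)) a ξ ≤ 0 := fun ξ => by
    simpa only [jj, cs, ← h4] using jj_nonpos (h3 0 ξ).2 (h3 1 ξ).2 ha
  refine ⟨a, ha, fun ξ => ?_⟩
  rcases (integral_nonpos (μ := gm) hneg).eq_or_lt with h0 | h0
  · have h5 := (integral_eq_zero_iff_of_nonneg (fun ξ => neg_nonneg.2 (hneg ξ)) (hi a).1.neg).1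
      (by rw [integral_neg, h0, neg_zero])
    have h6 := all_of_ae (F := fun ξ => -jj (lap μ) (psi b c t) (Cs (ρ 0)) (Cs (ρ 1)) a ξ)
      (by unfold jj; fun_prop) (h5.mono fun ξ h => h.le) ξ
    have h7 := psi_nonneg b hc.le t ξ
    rcases mul_eq_zero.1 (le_antisymm (hneg ξ) (neg_nonpos.1 h6)) with h | h
    · exact inj _ _ (h3 0 ξ).2 (mul_nonneg ha.1 h7) (by rw [← cs]; exact sub_eq_zero.1 h)
    · linarith [h4 ξ, inj _ _ (h3 1 ξ).2 (mul_nonneg (sub_nonneg.2 ha.2) h7)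
        (by rw [← cs]; exact sub_eq_zero.1 h)]
  exfalso
  have h5 : 0 < ∫ w, |w| * Real.exp (-|w|) ∂μ := by
    have i1 : Integrable (fun w => |w| * Real.exp (-|w|)) μ := Tf.int ⟨by fun_prop, fun w => by
      rw [abs_of_nonneg (by positivity), Real.exp_neg, ← div_eq_mul_inv,
        div_le_one (Real.exp_pos _)]
      linarith [Real.add_one_le_exp |w|]⟩ μ
    refine lt_of_le_of_ne (integral_nonneg fun w => by positivity) fun h => ne ?_
    filter_upwards [(integral_eq_zero_iff_of_nonneg (fun w => by positivity) i1).1 h.symm] with w hw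
    simpa using hw
  have t1 : Tendsto (fun x => (N x : ℝ) + 1) atTop atTop :=
    (tendsto_natCast_atTop_atTop.comp N2).atTop_add tendsto_const_nhds
  have t2 := t1.inv_tendsto_atTop
  obtain ⟨x, ⟨v, B, a0, a2, a1⟩, a3, a4, a5, a6, a7, a8, -, a9⟩ := (hf.and_eventually
    ((t2.eventually (ge_mem_nhds hc)).and ((t1.eventually_ge_atTop c).and
    ((t2.eventually (ge_mem_nhds ht)).and ((t1.eventually_ge_atTop t).and
    ((t2.eventually (ge_mem_nhds h5)).and ((t2.eventually (ge_mem_nhds (neg_pos.2 h0))).and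
    (N1 0)))))))).exists
  refine h (N x) b B μ (ρ 0) (ρ 1) c t ⟨⟨hμ, inferInstance, inferInstance⟩, nn, a7,
    ⟨⟨a3, a4⟩, a5, a6⟩, ⟨v, a0, a1.trans ?_, le_trans ?_ a2⟩,
    fun ξ => ⟨_, _, (h3 0 ξ).2, (h3 1 ξ).2, h4 ξ, cs 0 ξ, cs 1 ξ⟩,
    fun a' ha' => (hmax ha').trans (le_neg.1 a8)⟩
  · cases b; exacts [min_le_right _ _, min_le_left _ _]
  have x0 := (hR _ b).le.trans (a9 b)
  refine integral_mono_of_nonneg (Eventually.of_forall fun w => (Real.exp_pos _).le)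
    (Measure.integrableOn_of_bounded (M := Real.exp (x * v)) (measure_ne_top _ _) (by fun_prop)
      (ae_restrict_of_forall_mem measurableSet_Iio fun w (hw : w < v) => by
        rw [Real.norm_of_nonneg (Real.exp_pos _).le]; gcongr))
    (ae_restrict_of_ae (nn.mono fun w hw => ?_))
  simp only
  gcongr
  exact a9 b

theorem criterion : ∃ D : ℝ → ℝ → ℝ, (∀ R B, 0 < D R B) ∧ ∀ μ : Measure ℝ,
    IsProbabilityMeasure μ → μ (Iio 0) = 0 → μ ≠ Measure.dirac 0 →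
    ∀ τ : ℝ → ℝ, (∀ v, τ v = ∫ w in Ici v, (√w)⁻¹ ∂μ) →
    ¬ ((∀ C, ∃ᶠ v in atTop, τ v < Real.exp (-C * v)) ∧ ∀ᶠ R in atTop, ∀ v B, 0 < v →
      ∫ w in Iio v, Real.exp (R * w) ∂μ ≤ B → D R B < τ v) →
    ∀ L : ℝ → ℝ, (∀ s, 0 ≤ s → L s = ∫ w, Real.exp (-s * w) ∂μ) →
      (PropR L ↔ ∀ C, ∃ᶠ v in atTop, τ v < Real.exp (-C * v)) := by
  obtain ⟨D, hD, h⟩ := loc_gap
  refine ⟨D, hD, fun μ hμ h0 h1 τ hτ hw L hL => ?_⟩
  obtain rfl : τ = fun v => ∫ w in Ici v, (√w)⁻¹ ∂μ := funext hτ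
  have nn : ∀ᵐ w ∂μ, 0 ≤ w := by rw [ae_iff]; simpa [Iio] using h0
  exact ⟨fun hR C => by_contra fun hc => not_propR nn (C := C) (by simpa using hc) hL hR,
    fun hb => h μ hμ nn (ne_dirac h1) (fun hc => hw ⟨hb, hc.mono fun R hR v B a1 a2 =>
      lt_of_not_ge fun a3 => hR ⟨v, B, a1, a2, a3⟩⟩) L hL⟩

end Pool.Agent.MP_9cb8e5_pr.H55
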