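import Pool.Agent.MP_9cb8e5_pr.H55.Limit

/-! Property (R) from deep gaps in the weighted tail. -/

open MeasureTheory Set Filter Topology ProbabilityTheory Pool.Agent.MP_9cb8e5_pr.H67

namespace Pool.Agent.MP_9cb8e5_pr.H55

/-- a decomposition that is far from proportional, for a measure with a gap of depth `δ` -/
def Far (P : ℝ → ℝ) (b : Bool) (m δ : ℝ) (μ ρ₀ ρ₁ : Measure ℝ) (c t : ℝ) : Prop :=
  (IsProbabilityMeasure μ ∧ IsProbabilityMeasure ρ₀ ∧ IsProbabilityMeasure ρ₁) ∧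
  (∀ᵐ w ∂μ, 0 ≤ w) ∧ m⁻¹ ≤ ∫ w, |w| * Real.exp (-|w|) ∂μ ∧ (c ∈ Icc m⁻¹ m ∧ t ∈ Icc m⁻¹ m) ∧
  (∃ v, 0 < v ∧ ∫ w in Ici v, (√w)⁻¹ ∂μ ≤ δ ∧ ∀ R, ∫ w in Iio v, Real.exp (R * w) ∂μ ≤ P R) ∧
  (∀ ξ, ∃ s u, 0 ≤ s ∧ 0 ≤ u ∧ s + u = psi b c t ξ ∧ Cs ρ₀ ξ = lap μ s ∧ Cs ρ₁ ξ = lap μ u) ∧
  ∀ a ∈ Icc (0 : ℝ) 1, ∫ ξ, jj (lap μ) (psi b c t) (Cs ρ₀) (Cs ρ₁) a ξ ∂gm ≤ -m⁻¹

theorem psi_pos (b : Bool) {c t : ℝ} (hc : 0 < c) (ht : 0 < t) : ∀ᵐ ξ ∂gm, 0 < psi b c t ξ := by
  have := nullSingletonClass_gaussianReal (μ := 0) one_ne_zero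
  filter_upwards [(countable_range fun n : ℤ => n * (2 * Real.pi) / t).ae_notMem gm] with ξ h
  cases b
  · refine mul_pos hc (sub_pos.2 (lt_of_le_of_ne (Real.cos_le_one _) fun e => h ?_))
    obtain ⟨n, hn⟩ := (Real.cos_eq_one_iff _).1 e
    exact ⟨n, by simp only; rw [hn]; field_simp⟩
  · exact mul_pos hc (sq_pos_of_ne_zero fun e => h ⟨0, by simp [e]⟩)

noncomputable def cut (R N w : ℝ) : ℝ := Real.exp (R * w) * max 0 (min 1 (N + 1 - w))

theorem cut_le {μ : Measure ℝ} [IsProbabilityMeasure μ] (nn : ∀ᵐ w ∂μ, 0 ≤ w) {R N v : ℝ}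
    (hR : 0 ≤ R) (hN : 0 ≤ N) (hv : 0 < v) : ∫ w, cut R N |w| ∂μ ≤ ∫ w in Iio v, Real.exp (R * w) ∂μ +
      Real.exp (R * (N + 1)) * √(N + 1) * ∫ w in Ici v, (√w)⁻¹ ∂μ := by
  have i1 : IntegrableOn (fun w => Real.exp (R * w)) (Iio v) μ :=
    Measure.integrableOn_of_bounded (M := Real.exp (R * v)) (measure_ne_top _ _) (by fun_prop)
      (ae_restrict_of_forall_mem measurableSet_Iio fun w (hw : w < v) => by
        rw [Real.norm_of_nonneg (Real.exp_pos _).le]; gcongr)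
  have i2 : IntegrableOn (fun w => (√w)⁻¹) (Ici v) μ :=
    Measure.integrableOn_of_bounded (M := (√v)⁻¹) (measure_ne_top _ _)
      (Measurable.aestronglyMeasurable (by fun_prop))
      (ae_restrict_of_forall_mem measurableSet_Ici fun w (hw : v ≤ w) => by
        rw [Real.norm_of_nonneg (by positivity)]; gcongr)
  rw [← integral_const_mul, ← integral_indicator measurableSet_Iio,
    ← integral_indicator measurableSet_Ici, ← integral_add (i1.integrable_indicator measurableSet_Iio)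
      (IntegrableOn.integrable_indicator (i2.const_mul _) measurableSet_Ici)]
  refine integral_mono_of_nonneg (Eventually.of_forall fun w => by unfold cut; positivity)
    ((i1.integrable_indicator measurableSet_Iio).add
      (IntegrableOn.integrable_indicator (i2.const_mul _) measurableSet_Ici)) (nn.mono fun w hw => ?_)
  have h1 : max 0 (min 1 (N + 1 - w)) ≤ 1 := max_le zero_le_one (min_le_left _ _)
  simp only [cut, abs_of_nonneg hw]
  rcases lt_or_ge w v with h | h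
  · rw [indicator_of_mem (show w ∈ Iio v from h), indicator_of_notMem (by simpa using h), add_zero]
    exact mul_le_of_le_one_right (Real.exp_pos _).le h1
  rw [indicator_of_notMem (by simpa using h), indicator_of_mem (show w ∈ Ici v from h), zero_add]
  rcases le_total w (N + 1) with h' | h'
  · rw [mul_assoc, ← div_eq_mul_inv]
    have := Real.sqrt_pos.2 (hv.trans_le h)
    exact mul_le_mul (by gcongr) (h1.trans ((one_le_div this).2 (Real.sqrt_le_sqrt h')))
      (le_max_left _ _) (Real.exp_pos _).le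
  · rw [max_eq_left (min_le_of_right_le (by linarith)), mul_zero]; positivity

theorem not_far (P : ℝ → ℝ) (b : Bool) {m : ℝ} (hm : 0 < m) :
    ∃ δ, 0 < δ ∧ ∀ μ ρ₀ ρ₁ c t, ¬ Far P b m δ μ ρ₀ ρ₁ c t := by
  by_contra hcon
  push Not at hcon
  choose μ ρ₀ ρ₁ c t h using fun k : ℕ => hcon (1 / ((k : ℝ) + 1)) (by positivity)
  obtain ⟨⟨c', t'⟩, ⟨hc, ht⟩, φ, hφ, hct⟩ := (isCompact_Icc.prod isCompact_Icc).tendsto_subseq
    (x := fun k => (c k, t k)) fun k => (h k).2.2.2.1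
  obtain ⟨χ, hχ, ν, hν⟩ := vague (fun k => ![μ (φ k), ρ₀ (φ k), ρ₁ (φ k)]) fun k i => by
    fin_cases i; exacts [(h _).1.1, (h _).1.2.1, (h _).1.2.2]
  have hm' := inv_pos.2 hm
  have hc' := hm'.trans_le hc.1
  have ht' := hm'.trans_le ht.1
  have pμ := fun k => (h k).1.1
  have H : Sq (fun k => μ (φ (χ k))) (fun k => ρ₀ (φ (χ k))) (fun k => ρ₁ (φ (χ k)))
      (fun k => psi b (c (φ (χ k))) (t (φ (χ k)))) (ν 0) (ν 1) (ν 2) (psi b c' t') :=
    { pμ := fun k => pμ _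
      p₀ := fun k => (h _).1.2.1.measure_univ.le
      p₁ := fun k => (h _).1.2.2.measure_univ.le
      mμ := (hν 0).1, m₀ := (hν 1).1, m₁ := (hν 2).1
      vμ := (hν 0).2.2, v₀ := (hν 1).2.2, v₁ := (hν 2).2.2
      ms := fun k => ((cont_psi b).comp (f := fun ξ => ((_, _), ξ)) (by fun_prop)).measurable
      cψ := (cont_psi b).comp (f := fun ξ => ((c', t'), ξ)) (by fun_prop)
      nn := psi_nonneg b hc'.le t'
      pos := psi_pos b hc' ht'
      lim := fun ξ => ((cont_psi b).tendsto ((c', t'), ξ)).comp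
        ((hct.comp hχ.tendsto_atTop).prodMk_nhds tendsto_const_nhds)
      dec := fun k => (h _).2.2.2.2.2.1 }
  have := fin_of_le H.mμ
  have nn := (hν 0).2.1
  have ne : ¬ ∀ᵐ w ∂ν 0, w = 0 := fun h0 => by
    have h1 := ge_of_tendsto' (H.vμ (fun w => w * Real.exp (-w)) (by fun_prop)
      (by simpa using Real.tendsto_pow_mul_exp_neg_atTop_nhds_zero 1)) fun k => (h _).2.2.1
    rw [integral_eq_zero_of_ae (h0.mono fun w hw => by simp [hw])] at h1
    linarith
  have ex : ∀ R : ℝ, 0 ≤ R → Integrable (fun w => Real.exp (R * w)) (ν 0) := fun R hR => by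
    have hc : ∀ N, Continuous (cut R N) := fun N => by unfold cut; fun_prop
    have i1 : ∀ N : ℝ, IntegrableOn (fun w => Real.exp (R * w)) (Iic N) (ν 0) := fun N =>
      Measure.integrableOn_of_bounded (M := Real.exp (R * N)) (measure_ne_top _ _) (by fun_prop)
        (ae_restrict_of_forall_mem measurableSet_Iic fun w (hw : w ≤ N) => by
          rw [Real.norm_of_nonneg (Real.exp_pos _).le]; gcongr)
    refine (aecover_Iic tendsto_id).integrable_of_integral_bounded_of_nonneg_ae (P R) i1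
      (Eventually.of_forall fun w => (Real.exp_pos _).le) ((eventually_ge_atTop 0).mono fun N hN => ?_)
    have h1 : Tendsto (fun k : ℕ => P R + Real.exp (R * (N + 1)) * √(N + 1) *
        (1 / ((φ (χ k) : ℝ) + 1))) atTop (𝓝 (P R + Real.exp (R * (N + 1)) * √(N + 1) * 0)) :=
      ((tendsto_one_div_add_atTop_nhds_zero_nat.comp
        (hφ.comp hχ).tendsto_atTop).const_mul _).const_add _
    have h2 := le_of_tendsto_of_tendsto' (H.vμ (cut R N) (hc N) (tendsto_const_nhds.congr' (by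
      filter_upwards [eventually_ge_atTop (N + 1)] with w hw
      rw [cut, max_eq_left (min_le_of_right_le (by linarith)), mul_zero]))) h1 fun k => by
        obtain ⟨v, a1, a2, a3⟩ := (h (φ (χ k))).2.2.2.2.1
        exact (cut_le (h _).2.1 hR hN a1).trans (add_le_add (a3 R) (by gcongr))
    rw [mul_zero, add_zero] at h2
    refine le_trans ?_ h2
    rw [← integral_indicator measurableSet_Iic]
    refine integral_mono ((i1 N).integrable_indicator measurableSet_Iic)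
      ((integrable_const (Real.exp (R * (N + 1)))).mono' (hc N).aestronglyMeasurable
        (Eventually.of_forall fun w => ?_)) fun w => ?_
    · rw [Real.norm_of_nonneg (by unfold cut; positivity), cut]
      rcases le_total w (N + 1) with h' | h'
      · exact (mul_le_of_le_one_right (Real.exp_pos _).le
          (max_le zero_le_one (min_le_left _ _))).trans (by gcongr)
      · rw [max_eq_left (min_le_of_right_le (by linarith)), mul_zero]; positivity
    · by_cases hw : w ∈ Iic (id N)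
      · have hw' : w ≤ N := hw
        rw [indicator_of_mem hw, cut, min_eq_left (by linarith), max_eq_right zero_le_one, mul_one]
      · rw [indicator_of_notMem hw, cut]; positivity
  obtain ⟨a, ha, h0⟩ := H.concl hc' ht' nn ne fun R => (ex |R| (abs_nonneg R)).mono' (by fun_prop)
    (nn.mono fun w hw => by
      rw [Real.norm_of_nonneg (Real.exp_pos _).le]; gcongr; exact le_abs_self R)
  obtain ⟨k, hk⟩ := (H.jlim (α := fun _ => a) measurable_const (fun _ => ha) (y := -m⁻¹)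
    (by rw [integral_eq_zero_of_ae h0]; linarith)).exists
  exact hk.not_ge ((h _).2.2.2.2.2.2 a ha)

theorem gap_rigid (P : ℕ → ℝ → ℝ) : ∃ δ : ℕ → ℝ, (∀ n, 0 < δ n) ∧ ∀ μ : Measure ℝ,
    IsProbabilityMeasure μ → (∀ᵐ w ∂μ, 0 ≤ w) → (¬ ∀ᵐ w ∂μ, w = 0) →
    (∃ᶠ n in atTop, ∃ v, 0 < v ∧ ∫ w in Ici v, (√w)⁻¹ ∂μ ≤ δ n ∧
      ∀ R, ∫ w in Iio v, Real.exp (R * w) ∂μ ≤ P n R) →
    ∀ L : ℝ → ℝ, (∀ s, 0 ≤ s → L s = ∫ w, Real.exp (-s * w) ∂μ) → PropR L := by
  choose δ hδ h using fun (n : ℕ) b => not_far (P n) b (m := n + 1) (by positivity)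
  refine ⟨fun n => min (δ n true) (δ n false), fun n => lt_min (hδ _ _) (hδ _ _),
    fun μ hμ nn ne hf L hL => ?_⟩
  have e : ∀ s, 0 ≤ s → L s = lap μ s := fun s hs => (hL s hs).trans
    (integral_congr_ae (nn.mono fun w hw => by simp [abs_of_nonneg hs, abs_of_nonneg hw]))
  have inj : ∀ s u, 0 ≤ s → 0 ≤ u → lap μ s = lap μ u → s = u := fun s u hs hu h =>
    le_antisymm (le_of_not_gt fun a => (lap_strict ne hu a).ne h)
      (le_of_not_gt fun a => (lap_strict ne hs a).ne' h)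
  refine propR_of_rigid (fun s hs u hu h => inj s u hs hu (by rwa [← e s hs, ← e u hu]))
    fun b c t ρ η hc ht h3 h4 => ?_
  have cs : ∀ j ξ, Cs (ρ j) ξ = lap μ (η j ξ) := fun j ξ => by
    rw [← re_charFun, (h3 j ξ).1, Complex.ofReal_re, e _ (h3 j ξ).2]
  have hψ : Continuous (psi b c t) := (cont_psi b).comp (f := fun ξ => ((c, t), ξ)) (by fun_prop)
  have c0 := cont_lap (μ := μ)
  have c1 := cont_Cs (ν := ρ 0)
  have c2 := cont_Cs (ν := ρ 1)
  have hi := fun a : ℝ => expand (tf_Cs (ν := ρ 0) prob_le_one) (tf_Cs (ν := ρ 1) prob_le_one)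
    ((tf_lap (μ := μ) prob_le_one).comp (φ := fun ξ => a * psi b c t ξ) (by fun_prop))
    ((tf_lap (μ := μ) prob_le_one).comp (φ := fun ξ => (1 - a) * psi b c t ξ) (by fun_prop))
  have hJ : Continuous fun a => ∫ ξ, jj (lap μ) (psi b c t) (Cs (ρ 0)) (Cs (ρ 1)) a ξ ∂gm :=
    continuous_of_dominated (fun a => (hi a).1.1) (fun a => Eventually.of_forall fun ξ => by
      rw [jj, norm_mul]
      have a1 := (tf_Cs (ν := ρ 0) prob_le_one).2 ξ
      have a2 := (tf_Cs (ν := ρ 1) prob_le_one).2 ξ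
      have a3 := (tf_lap (μ := μ) prob_le_one).2
      exact mul_le_mul ((abs_sub _ _).trans (add_le_add a1 (a3 _)))
        ((abs_sub _ _).trans (add_le_add a2 (a3 _))) (norm_nonneg _) (by norm_num))
      (integrable_const ((1 + 1) * (1 + 1) : ℝ)) (Eventually.of_forall fun ξ => by unfold jj; fun_prop)
  obtain ⟨a, ha, hmax⟩ := isCompact_Icc.exists_isMaxOn (nonempty_Icc.2 zero_le_one) hJ.continuousOn
  have hneg : ∀ ξ, jj (lap μ) (psi b c t) (Cs (ρ 0)) (Cs (ρ 1)) a ξ ≤ 0 := fun ξ => by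
    simpa only [jj, cs, ← h4] using jj_nonpos (h3 0 ξ).2 (h3 1 ξ).2 ha
  refine ⟨a, ha, fun ξ => ?_⟩
  rcases (integral_nonpos (μ := gm) hneg).eq_or_lt with h0 | h0
  · have h5 := (integral_eq_zero_iff_of_nonneg (fun ξ => neg_nonneg.2 (hneg ξ)) (hi a).1.neg).1
      (by rw [integral_neg, h0, neg_zero])
    have h6 := all_of_ae (F := fun ξ => -jj (lap μ) (psi b c t) (Cs (ρ 0)) (Cs (ρ 1)) a ξ)
      (by unfold jj; fun_prop) (h5.mono fun ξ h => h.le) ξ
    have h7 := psi_nonneg b hc.le t ξ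
    rcases mul_eq_zero.1 (le_antisymm (hneg ξ) (neg_nonpos.1 h6)) with h | h
    · exact inj _ _ (h3 0 ξ).2 (mul_nonneg ha.1 h7) (by rw [← cs]; exact sub_eq_zero.1 h)
    · linarith [h4 ξ, inj _ _ (h3 1 ξ).2 (mul_nonneg (sub_nonneg.2 ha.2) h7)
        (by rw [← cs]; exact sub_eq_zero.1 h)]
  exfalso
  have h5 : 0 < ∫ w, |w| * Real.exp (-|w|) ∂μ := by
    have i1 : Integrable (fun w => |w| * Real.exp (-|w|)) μ := Tf.int ⟨by fun_prop, fun w => by
      rw [abs_of_nonneg (by positivity), Real.exp_neg, ← div_eq_mul_inv,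
        div_le_one (Real.exp_pos _)]
      linarith [Real.add_one_le_exp |w|]⟩ μ
    refine lt_of_le_of_ne (integral_nonneg fun w => by positivity) fun h => ne ?_
    filter_upwards [(integral_eq_zero_iff_of_nonneg (fun w => by positivity) i1).1 h.symm] with w hw
    simpa using hw
  have t1 : Tendsto (fun m : ℕ => (m : ℝ) + 1) atTop atTop :=
    tendsto_natCast_atTop_atTop.atTop_add tendsto_const_nhds
  have t2 := t1.inv_tendsto_atTop
  obtain ⟨n, ⟨v, a0, a1, a2⟩, a3, a4, a5, a6, a7, a8⟩ := (hf.and_eventually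
    ((t2.eventually (ge_mem_nhds hc)).and ((t1.eventually_ge_atTop c).and
    ((t2.eventually (ge_mem_nhds ht)).and ((t1.eventually_ge_atTop t).and
    ((t2.eventually (ge_mem_nhds h5)).and (t2.eventually (ge_mem_nhds (neg_pos.2 h0))))))))).exists
  refine h n b μ (ρ 0) (ρ 1) c t ⟨⟨hμ, inferInstance, inferInstance⟩, nn, a7, ⟨⟨a3, a4⟩, a5, a6⟩,
    ⟨v, a0, a1.trans ?_, a2⟩, fun ξ => ⟨_, _, (h3 0 ξ).2, (h3 1 ξ).2, h4 ξ, cs 0 ξ, cs 1 ξ⟩,
    fun a' ha' => (hmax ha').trans (le_neg.1 a8)⟩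
  cases b; exacts [min_le_right _ _, min_le_left _ _]

end Pool.Agent.MP_9cb8e5_pr.H55
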