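import Pool.Agent.MP_9cb8e5_pr.H67.Entire

/-! The curve `M s = F z` when `M` is only analytic on a half-plane. -/

open Complex Filter Topology Set Metric Pool.Agent.MP_9cb8e5_pr.H67

namespace Pool.Agent.MP_9cb8e5_pr.H55

structure Loc (M F1 F2 Ψ : ℂ → ℂ) (r R : ℝ) : Prop where
  hM : ∀ s : ℂ, s.re < R → AnalyticAt ℂ M s
  h1 : ∀ z : ℂ, ‖z‖ < r → AnalyticAt ℂ F1 z
  h2 : ∀ z : ℂ, ‖z‖ < r → AnalyticAt ℂ F2 z
  hΨ : Differentiable ℂ Ψ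
  nM : ∃ x : ℂ, x.re < R ∧ deriv M x ≠ 0
  nF : ∃ x : ℂ, ‖x‖ < r ∧ deriv F1 x ≠ 0

def Dom (Ψ : ℂ → ℂ) (r R : ℝ) (z s : ℂ) : Prop := ‖z‖ < r ∧ s.re < R ∧ (Ψ z - s).re < R

def Gd (M F1 F2 Ψ : ℂ → ℂ) (r R : ℝ) (z s : ℂ) : Prop := Dom Ψ r R z s ∧ Good M F1 F2 Ψ z s

variable {M F1 F2 Ψ : ℂ → ℂ} {r R : ℝ} {z s : ℂ}

theorem Loc.ev (H : Loc M F1 F2 Ψ r R) (h : Dom Ψ r R z s) :
    ∀ᶠ p : ℂ × ℂ in 𝓝 (z, s), Dom Ψ r R p.1 p.2 := by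
  have := H.hΨ.continuous
  have o : IsOpen {p : ℂ × ℂ | ‖p.1‖ < r ∧ p.2.re < R ∧ (Ψ p.1 - p.2).re < R} :=
    IsOpen.and (isOpen_lt (by fun_prop) continuous_const) (IsOpen.and
      (isOpen_lt (by fun_prop) continuous_const) (isOpen_lt (by fun_prop) continuous_const))
  exact o.mem_nhds h

theorem loc_inv' (ha : AnalyticAt ℂ M s) (hs : deriv M s ≠ 0) :
    ∃ l : ℂ → ℂ, AnalyticAt ℂ l (M s) ∧ l (M s) = s ∧ (∀ᶠ x in 𝓝 s, l (M x) = x) ∧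
      (∀ᶠ v in 𝓝 (M s), M (l v) = v) :=
  ⟨ha.hasStrictDerivAt.localInverse _ _ _ hs, ha.analyticAt_localInverse hs,
    (HasStrictDerivAt.eventually_left_inverse ha.hasStrictDerivAt hs).self_of_nhds,
    HasStrictDerivAt.eventually_left_inverse _ _, HasStrictDerivAt.eventually_right_inverse _ _⟩

theorem Loc.sect (H : Loc M F1 F2 Ψ r R) (h : Dom Ψ r R z s) (hd : deriv M s ≠ 0)
    (he : M s = F1 z) : ∃ σ : ℂ → ℂ, AnalyticAt ℂ σ z ∧ σ z = s ∧ (∀ᶠ w in 𝓝 z, M (σ w) = F1 w) ∧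
      (∀ᶠ p : ℂ × ℂ in 𝓝 (z, s), M p.2 = F1 p.1 → p.2 = σ p.1) := by
  obtain ⟨l, hl, hl0, hl1, hl2⟩ := loc_inv' (H.hM s h.2.1) hd
  rw [he] at hl hl0 hl2
  refine ⟨fun w => l (F1 w), hl.comp (H.h1 z h.1), hl0,
    (H.h1 z h.1).continuousAt.tendsto.eventually hl2, ?_⟩
  filter_upwards [(continuous_snd.tendsto (z, s)).eventually hl1] with p hp h1
  rw [← h1]; exact hp.symm

theorem Loc.gd_of_sol (H : Loc M F1 F2 Ψ r R) {σ : ℂ → ℂ} (hD : Dom Ψ r R z (σ z))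
    (hσ : ContinuousAt σ z) (hd : deriv M (σ z) ≠ 0)
    (h : ∀ᶠ w in 𝓝 z, M (σ w) = F1 w ∧ M (Ψ w - σ w) = F2 w) : Gd M F1 F2 Ψ r R z (σ z) := by
  refine ⟨hD, hd, h.self_of_nhds.1, ?_⟩
  obtain ⟨τ, _, _, _, hτ⟩ := H.sect hD hd h.self_of_nhds.1
  have h1 : ∀ᶠ w in 𝓝 z, σ w = τ w := by
    filter_upwards [(tendsto_sect hσ).eventually hτ, h] with w hw hw2 using hw hw2.1
  filter_upwards [hτ, (continuous_fst.tendsto (z, σ z)).eventually (h.and h1)] with p hp hq h2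
  rw [hp h2, ← hq.2]; exact hq.1.2

theorem Gd.sol (H : Loc M F1 F2 Ψ r R) (h : Gd M F1 F2 Ψ r R z s) :
    ∃ σ : ℂ → ℂ, Sol M F1 F2 Ψ z σ ∧ σ z = s ∧ ∀ᶠ w in 𝓝 z, Gd M F1 F2 Ψ r R w (σ w) := by
  obtain ⟨σ, hσ, h0, h1, h2⟩ := H.sect h.1 h.2.1 h.2.2.1
  have ht := tendsto_sect hσ.continuousAt
  rw [h0] at ht
  have h3 : ∀ᶠ w in 𝓝 z, M (σ w) = F1 w ∧ M (Ψ w - σ w) = F2 w := by
    filter_upwards [h1, ht.eventually h.2.2.2] with w hw hw2 using ⟨hw, hw2 hw⟩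
  refine ⟨σ, ⟨hσ, h3⟩, h0, ?_⟩
  have hd : ∀ᶠ w in 𝓝 z, deriv M (σ w) ≠ 0 :=
    ((H.hM s h.1.2.1).deriv.continuousAt.comp_of_eq hσ.continuousAt h0).eventually_ne
      (by simpa [h0] using h.2.1)
  filter_upwards [hd, h3.eventually_nhds, hσ.eventually_analyticAt, ht.eventually (H.ev h.1)]
    with w a b c d
  exact H.gd_of_sol d c.continuousAt a b

theorem Loc.eq_of_freq (H : Loc M F1 F2 Ψ r R) (hD : Dom Ψ r R z s)
    (h : ∃ᶠ p : ℂ × ℂ in 𝓝 (z, s), Gd M F1 F2 Ψ r R p.1 p.2) :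
    M s = F1 z ∧ M (Ψ z - s) = F2 z := by
  have c := H.hΨ.continuous
  have c1 : ContinuousAt (fun p : ℂ × ℂ => M p.2) (z, s) :=
    (H.hM s hD.2.1).continuousAt.comp_of_eq continuousAt_snd rfl
  have c2 : ContinuousAt (fun p : ℂ × ℂ => M (Ψ p.1 - p.2)) (z, s) :=
    (H.hM _ hD.2.2).continuousAt.comp_of_eq (f := fun p : ℂ × ℂ => Ψ p.1 - p.2) (by fun_prop) rfl
  have c3 : ContinuousAt (fun p : ℂ × ℂ => F1 p.1) (z, s) :=
    (H.h1 z hD.1).continuousAt.comp_of_eq continuousAt_fst rfl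
  have c4 : ContinuousAt (fun p : ℂ × ℂ => F2 p.1) (z, s) :=
    (H.h2 z hD.1).continuousAt.comp_of_eq continuousAt_fst rfl
  exact ⟨tendsto_nhds_unique_of_frequently_eq c1 c3 (h.mono fun p hp => hp.2.2.1),
    tendsto_nhds_unique_of_frequently_eq c2 c4 (h.mono fun p hp => hp.2.eq2)⟩

theorem Loc.gd_of_freq (H : Loc M F1 F2 Ψ r R) (hD : Dom Ψ r R z s) (hd : deriv M s ≠ 0)
    (h : ∃ᶠ p : ℂ × ℂ in 𝓝 (z, s), Gd M F1 F2 Ψ r R p.1 p.2) : Gd M F1 F2 Ψ r R z s := by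
  have he := (H.eq_of_freq hD h).1
  obtain ⟨σ, hσ, h0, h1, h2⟩ := H.sect hD hd he
  have hG : AnalyticAt ℂ (fun w => M (Ψ w - σ w) - F2 w) z :=
    ((H.hM _ hD.2.2).comp_of_eq ((H.hΨ.analyticAt z).sub hσ) (by simp [h0])).sub (H.h2 z hD.1)
  have hfr : ∃ᶠ w in 𝓝 z, ∀ᶠ v in 𝓝 w, M (Ψ v - σ v) - F2 v = 0 := by
    have h4 := (continuous_fst.tendsto (z, s)).eventually
      (h1.eventually_nhds.and hσ.eventually_analyticAt)
    refine (continuous_fst.tendsto (z, s)).frequently ((h.and_eventually (h2.and h4)).mono ?_)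
    rintro ⟨w, x⟩ ⟨hg, hp, hq1, hq2⟩
    have hx : x = σ w := hp hg.2.2.1
    subst hx
    filter_upwards [(tendsto_sect hq2.continuousAt).eventually hg.2.2.2, hq1] with v a b
    exact sub_eq_zero.2 (a b)
  have hz : ∀ᶠ w in 𝓝 z, M (Ψ w - σ w) - F2 w = 0 := by
    rcases hG.eventually_eq_zero_or_eventually_ne_zero with h5 | h5
    · exact h5
    · exfalso
      rw [eventually_nhdsWithin_iff] at h5
      obtain ⟨w, hw1, hw2⟩ := (hfr.and_eventually h5.eventually_nhds).exists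
      have h6 : ∀ᶠ v in 𝓝[≠] w, v = z := by
        filter_upwards [nhdsWithin_le_nhds hw1, nhdsWithin_le_nhds hw2] with v a b
        by_contra hv
        exact b hv a
      by_cases hwz : w = z
      · subst hwz
        obtain ⟨v, a, b⟩ := (h6.and self_mem_nhdsWithin).exists
        exact b a
      · obtain ⟨v, a, b⟩ := (h6.and (nhdsWithin_le_nhds (eventually_ne_nhds hwz))).exists
        exact b a
  rw [← h0] at hd hD ⊢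
  refine H.gd_of_sol hD hσ.continuousAt hd ?_
  filter_upwards [h1, hz] with w a b using ⟨a, sub_eq_zero.1 b⟩

theorem ev_ne_loc {f : ℂ → ℂ} {U : Set ℂ} (hU : IsPreconnected U) (hf : AnalyticOnNhd ℂ f U)
    {x : ℂ} (hx : x ∈ U) (h0 : f x ≠ 0) (hz : z ∈ U) : ∀ᶠ w in 𝓝[≠] z, f w ≠ 0 :=
  (hf z hz).eventually_eq_zero_or_eventually_ne_zero.resolve_left fun h =>
    h0 (hf.eqOn_zero_of_preconnected_of_eventuallyEq_zero hU hz h hx)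

theorem ev_ne_val {f : ℂ → ℂ} {U : Set ℂ} (hU : IsPreconnected U) (hf : AnalyticOnNhd ℂ f U)
    {x : ℂ} (hx : x ∈ U) (h0 : deriv f x ≠ 0) (hz : z ∈ U) (v : ℂ) : ∀ᶠ w in 𝓝[≠] z, f w ≠ v := by
  refine (((hf z hz).sub (analyticAt_const (v := v))).eventually_eq_zero_or_eventually_ne_zero.resolve_left
    fun h => ?_).mono fun w hw => sub_ne_zero.1 hw
  have h1 : f =ᶠ[𝓝 z] fun _ => v := h.mono fun w hw => sub_eq_zero.1 hw
  obtain ⟨w, a, b⟩ := ((ev_ne_loc hU hf.deriv hx h0 hz).and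
    (nhdsWithin_le_nhds h1.deriv)).exists
  exact a (by simpa using b)

theorem pc_half (R : ℝ) : IsPreconnected {s : ℂ | s.re < R} :=
  (convex_halfSpace_re_lt R).isPreconnected

theorem pc_disc (r : ℝ) : IsPreconnected {z : ℂ | ‖z‖ < r} := by
  have : {z : ℂ | ‖z‖ < r} = ball 0 r := by ext; simp
  rw [this]; exact (convex_ball _ _).isPreconnected

theorem Loc.dM (H : Loc M F1 F2 Ψ r R) (hs : s.re < R) : ∀ᶠ w in 𝓝[≠] s, deriv M w ≠ 0 :=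
  let ⟨_, a, b⟩ := H.nM
  ev_ne_loc (pc_half R) (AnalyticOnNhd.deriv H.hM) a b hs

theorem Loc.vM (H : Loc M F1 F2 Ψ r R) (hs : s.re < R) (v : ℂ) : ∀ᶠ w in 𝓝[≠] s, M w ≠ v :=
  let ⟨_, a, b⟩ := H.nM
  ev_ne_val (pc_half R) H.hM a b hs v

theorem Loc.dF (H : Loc M F1 F2 Ψ r R) (hz : ‖z‖ < r) : ∀ᶠ w in 𝓝[≠] z, deriv F1 w ≠ 0 :=
  let ⟨_, a, b⟩ := H.nF
  ev_ne_loc (pc_disc r) (AnalyticOnNhd.deriv H.h1) a b hz

theorem Loc.vF (H : Loc M F1 F2 Ψ r R) (hz : ‖z‖ < r) (v : ℂ) : ∀ᶠ w in 𝓝[≠] z, F1 w ≠ v :=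
  let ⟨_, a, b⟩ := H.nF
  ev_ne_val (pc_disc r) H.h1 a b hz v

theorem Loc.fin (H : Loc M F1 F2 Ψ r R) {K : Set ℂ} (hK : IsCompact K) (h : ∀ s ∈ K, s.re < R) :
    {s ∈ K | deriv M s = 0}.Finite := by
  by_contra hinf
  obtain ⟨x, hx, hacc⟩ := Set.Infinite.exists_accPt_of_subset_isCompact hinf hK (sep_subset _ _)
  obtain ⟨y, a, b⟩ := ((accPt_iff_frequently_nhdsNE.1 hacc).and_eventually (H.dM (h x hx))).exists
  exact b a.2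

theorem Loc.chain (H : Loc M F1 F2 Ψ r R) {σ : ℂ → ℂ} (h : Sol M F1 F2 Ψ z σ)
    (hs : (σ z).re < R) : deriv F1 z = deriv M (σ z) * deriv σ z := by
  have h1 : F1 =ᶠ[𝓝 z] M ∘ σ := h.2.mono fun w hw => hw.1.symm
  rw [h1.deriv_eq, deriv_comp z (H.hM _ hs).differentiableAt h.1.differentiableAt]

theorem Loc.gd (H : Loc M F1 F2 Ψ r R) {σ : ℂ → ℂ} (h : Sol M F1 F2 Ψ z σ)
    (hD : Dom Ψ r R z (σ z)) : ∀ᶠ w in 𝓝[≠] z, Gd M F1 F2 Ψ r R w (σ w) := by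
  filter_upwards [H.dF hD.1, nhdsWithin_le_nhds h.ev,
    nhdsWithin_le_nhds ((tendsto_sect h.1.continuousAt).eventually (H.ev hD))] with w a b c
  refine H.gd_of_sol c b.1.continuousAt (fun h0 => a ?_) b.2
  rw [H.chain b c.2.1, h0, zero_mul]

end Pool.Agent.MP_9cb8e5_pr.H55
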