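import Pool.Agent.MP_9cb8e5_pr.H55.LStep
import Pool.Agent.MP_9cb8e5_pr.H67.Moments

/-! Moment generating functions with one finite exponential moment. -/

open Filter Topology Set MeasureTheory ProbabilityTheory Pool.Agent.MP_9cb8e5_pr.H67

namespace Pool.Agent.MP_9cb8e5_pr.H55

structure LapL (μ : Measure ℝ) (R : ℝ) : Prop where
  prob : IsProbabilityMeasure μ
  nn : ∀ᵐ w ∂μ, 0 ≤ w
  ne : ¬ ∀ᵐ w ∂μ, w = 0
  R0 : 0 < R
  ex : Integrable (fun w => Real.exp (R * w)) μ

variable {μ : Measure ℝ} {R : ℝ}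

theorem LapL.exi (H : LapL μ R) {t : ℝ} (ht : t ≤ R) : Integrable (fun w => Real.exp (t * w)) μ :=
  H.ex.mono' (by fun_prop) (H.nn.mono fun w hw => by
    rw [Real.norm_of_nonneg (Real.exp_pos _).le]; gcongr)

theorem LapL.int (H : LapL μ R) {t : ℝ} (ht : t < R) : t ∈ interior (integrableExpSet id μ) :=
  mem_interior_iff_mem_nhds.2 (mem_of_superset (Iio_mem_nhds ht) fun _ hu => H.exi (le_of_lt hu))

theorem LapL.deriv_pos (H : LapL μ R) {s : ℝ} (hs : s < R) : 0 < deriv (mgf id μ) s := by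
  rw [deriv_mgf (H.int hs)]
  have h1 : 0 ≤ᵐ[μ] fun w => id w * Real.exp (s * id w) :=
    H.nn.mono fun w hw => mul_nonneg hw (Real.exp_pos _).le
  have h2 : Integrable (fun w => id w * Real.exp (s * id w)) μ := by
    simpa using integrable_pow_mul_exp_of_mem_interior_integrableExpSet (H.int hs) 1
  refine lt_of_le_of_ne (integral_nonneg_of_ae h1) fun h => H.ne ?_
  filter_upwards [(integral_eq_zero_iff_of_nonneg_ae h1 h2).1 h.symm] with w hw
  simpa using hw

theorem LapL.an (H : LapL μ R) {s : ℝ} (hs : s < R) : AnalyticAt ℝ (mgf id μ) s :=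
  analyticAt_mgf (H.int hs)

theorem LapL.mono (H : LapL μ R) : StrictMonoOn (mgf id μ) (Iio R) :=
  strictMonoOn_of_deriv_pos (convex_Iio R) (fun _ hs => (H.an hs).continuousAt.continuousWithinAt)
    fun s hs => H.deriv_pos (by simpa using hs)

theorem LapL.zero (H : LapL μ R) : mgf id μ 0 = 1 := by have := H.prob; simp

/-- the inverse of the moment generating function below `R` -/
noncomputable def mil (μ : Measure ℝ) (R : ℝ) : ℝ → ℝ := Function.invFunOn (mgf id μ) (Iio R)

theorem LapL.mi_m (H : LapL μ R) {s : ℝ} (hs : s < R) : mil μ R (mgf id μ s) = s :=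
  H.mono.injOn.leftInvOn_invFunOn hs

theorem LapL.m_mi (H : LapL μ R) {v x : ℝ} (hv : 1 ≤ v) (hx : x < R) (h : v ≤ mgf id μ x) :
    mgf id μ (mil μ R v) = v ∧ 0 ≤ mil μ R v ∧ mil μ R v < R := by
  have h0 : 0 ≤ x := (H.mono.le_iff_le H.R0 hx).1 (by rw [H.zero]; linarith)
  obtain ⟨s, hs, rfl⟩ := intermediate_value_Icc h0 (f := mgf id μ)
    (fun s hs => (H.an (hs.2.trans_lt hx)).continuousAt.continuousWithinAt) ⟨H.zero.le.trans hv, h⟩
  rw [H.mi_m (hs.2.trans_lt hx)]
  exact ⟨rfl, hs.1, hs.2.trans_lt hx⟩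

theorem LapL.mi_an (H : LapL μ R) {s : ℝ} (h : s < R) : AnalyticAt ℝ (mil μ R) (mgf id μ s) := by
  have ha := H.an h
  have hs := (H.deriv_pos h).ne'
  have hl := ha.analyticAt_localInverse hs
  have h0 := (HasStrictDerivAt.eventually_left_inverse ha.hasStrictDerivAt hs).self_of_nhds
  refine hl.congr ?_
  filter_upwards [HasStrictDerivAt.eventually_right_inverse ha.hasStrictDerivAt hs,
    hl.continuousAt.eventually (gt_mem_nhds (h0.symm ▸ h))] with v hv hv'
  conv_rhs => rw [← hv, H.mi_m hv']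

theorem LapL.d0 (H : LapL μ R) : deriv (complexMGF id μ) 0 ≠ 0 := by
  have h0 := H.deriv_pos H.R0
  rw [deriv_mgf_zero (H.int H.R0)] at h0
  rw [(hasDerivAt_complexMGF (z := 0) (H.int (by simpa using H.R0))).deriv]
  simp only [zero_mul, Complex.exp_zero, mul_one, integral_complex_ofReal]
  exact_mod_cast h0.ne'

theorem LapL.le_re (H : LapL μ R) {s : ℂ} {x : ℝ} (hs : s.re < R) (hx : x < R)
    (h : complexMGF id μ s = mgf id μ x) : x ≤ s.re := by
  have := norm_complexMGF_le_mgf (X := id) (μ := μ) (z := s)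
  rw [h, Complex.norm_real, Real.norm_eq_abs] at this
  exact (H.mono.le_iff_le hx hs).1 ((le_abs_self _).trans this)

theorem LapL.perim (H : LapL μ R) {t : ℂ} (ht : Per (complexMGF id μ) t) : t.re = 0 := by
  have key : ∀ t, Per (complexMGF id μ) t → 0 ≤ t.re := fun t ht => le_of_not_gt fun h =>
    h.not_ge (H.le_re (h.trans H.R0) H.R0 (by
      have := ht 0
      rw [zero_add] at this
      rw [this, ← complexMGF_ofReal]; simp))
  have := key _ ht.neg
  have := key _ ht
  simp only [Complex.neg_re] at *; linarith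

theorem LapL.uniq (H : LapL μ R) {a b : ℝ} {s : ℂ} (ha : a < R) (hb : b < R) (hs : s.re < R)
    (hs' : (((a + b : ℝ) : ℂ) - s).re < R) (h1 : complexMGF id μ s = mgf id μ a)
    (h2 : complexMGF id μ ((a + b : ℝ) - s) = mgf id μ b) : Per (complexMGF id μ) (s - a) := by
  have e1 := H.le_re hs ha h1
  have e2 := H.le_re hs' hb h2
  simp only [Complex.sub_re, Complex.ofReal_re] at e2
  have e : s = a + s.im * Complex.I := Complex.ext (by simp; linarith) (by simp)
  have := per_of_eq (b := s.im) (H.exi ha.le) (by rw [← e, h1])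
  rwa [show s - a = s.im * Complex.I by rw [sub_eq_iff_eq_add', ← e]]

theorem LapL.pcl (H : LapL μ R) : IsClosed {t | Per (complexMGF id μ) t} := by
  refine isClosed_of_closure_subset fun t ht => ?_
  have h1 : t.re = 0 := closure_minimal (t := {t : ℂ | t.re = 0}) (fun _ h => H.perim h)
    (isClosed_eq Complex.continuous_re continuous_const) ht
  have h2 : complexMGF id μ t = complexMGF id μ 0 :=
    tendsto_nhds_unique_of_frequently_eq
      (analyticAt_complexMGF (H.int (h1 ▸ H.R0))).continuousAt.tendsto tendsto_const_nhds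
      ((mem_closure_iff_frequently.1 ht).mono fun u hu => by simpa using hu 0)
  have e : t = t.im * Complex.I := Complex.ext (by simp [h1]) (by simp)
  have := per_of_eq (a := 0) (b := t.im) (H.exi H.R0.le) (by
    rw [← e, ← complexMGF_ofReal, Complex.ofReal_zero, zero_add, h2])
  rwa [← e] at this

theorem LapL.per_small (H : LapL μ R) : ∀ᶠ t in 𝓝 (0 : ℂ), Per (complexMGF id μ) t → t = 0 := by
  obtain ⟨l, -, h0, hl, -⟩ := loc_inv' (analyticAt_complexMGF (z := 0)
    (H.int (by simpa using H.R0))) H.d0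
  filter_upwards [hl] with t ht hp
  have := hp 0
  rw [zero_add] at this
  rw [this, h0] at ht; exact ht.symm

end Pool.Agent.MP_9cb8e5_pr.H55
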