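import Pool.Agent.MP_9cb8e5_pr.H55.LNice
import Pool.Agent.MP_9cb8e5_pr.H55.Gap

/-! Limits of the extensions on growing discs are proportional to the exponent. -/

open Filter Topology Set Complex Metric Pool.Agent.MP_9cb8e5_pr.H67

namespace Pool.Agent.MP_9cb8e5_pr.H55

theorem montel {l : Ultrafilter ℕ} {F : ℕ → ℂ → ℂ} (hd : ∀ x : ℝ, ∃ C, ∀ᶠ k in l,
    DifferentiableOn ℂ (F k) (ball 0 x) ∧ ∀ z ∈ ball 0 x, ‖F k z‖ ≤ C) :
    ∃ S, Differentiable ℂ S ∧ TendstoLocallyUniformly F S l := by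
  have h1 : ∀ z, ∃ s, Tendsto (fun k => F k z) l (𝓝 s) := fun z => by
    obtain ⟨C, hC⟩ := hd (‖z‖ + 1)
    obtain ⟨s, -, hs⟩ := (isCompact_closedBall (0 : ℂ) C).ultrafilter_le_nhds (l.map fun k => F k z)
      (le_principal_iff.2 (hC.mono fun k hk => by simpa using hk.2 z (by simp)))
    exact ⟨s, hs⟩
  choose S hS using h1
  have h2 : TendstoLocallyUniformly F S l := Metric.tendstoLocallyUniformly_iff.2 fun ε hε x => by
    obtain ⟨C, hC⟩ := hd (‖x‖ + 1)
    have hs : ball x 1 ⊆ ball 0 (‖x‖ + 1) := ball_subset_ball' (by simp [add_comm])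
    have hC0 : 0 ≤ C := by
      obtain ⟨k, hk⟩ := hC.exists
      exact (norm_nonneg _).trans (hk.2 x (by simp))
    have h3 : ∀ᶠ k in l, ∀ y ∈ ball x 1, dist (F k y) (F k x) ≤ (C + C) / 1 * dist y x :=
      hC.mono fun k hk y hy => dist_le_div_mul_dist_of_mapsTo_ball (hk.1.mono hs) (fun w hw => by
        rw [mem_closedBall, dist_eq_norm]
        exact (norm_sub_le _ _).trans (add_le_add (hk.2 w (hs hw)) (hk.2 x (by simp)))) hy
    refine ⟨ball x (min 1 (ε / (5 * C + 1))), ball_mem_nhds _ (by positivity), ?_⟩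
    filter_upwards [h3, (hS x).eventually (ball_mem_nhds _ (show 0 < ε / 5 by positivity))]
      with k a b y hy
    have y1 : y ∈ ball x 1 := ball_subset_ball (min_le_left _ _) hy
    have y2 : dist y x * (5 * C + 1) < ε := (lt_div_iff₀ (by positivity)).1
      ((mem_ball.1 hy).trans_le (min_le_right _ _))
    have a1 := le_of_tendsto ((hS y).dist (hS x)) (h3.mono fun k hk => hk y y1)
    have a2 := dist_triangle4_right (S y) (F k y) (S x) (F k x)
    have a3 := a y y1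
    have a4 : dist (S x) (F k x) < ε / 5 := by rw [dist_comm]; exact b
    nlinarith [dist_nonneg (x := y) (y := x)]
  refine ⟨S, fun z => ?_, h2⟩
  obtain ⟨C, hC⟩ := hd (‖z‖ + 1)
  exact ((h2.tendstoLocallyUniformlyOn (s := ball 0 (‖z‖ + 1))).differentiableOn
    (hC.mono fun k hk => hk.1) isOpen_ball).differentiableAt (isOpen_ball.mem_nhds (by simp))

theorem hurwitz {l : Ultrafilter ℕ} {F : ℕ → ℂ → ℂ} {S : ℂ → ℂ} (h : TendstoLocallyUniformly F S l)
    (hS : Differentiable ℂ S) {z₀ : ℂ} {ε : ℝ} (hε : 0 < ε) (hn : ∃ z, S z ≠ S z₀) :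
    ¬ ∀ᶠ k in l, DifferentiableOn ℂ (F k) (ball z₀ ε) ∧ ∀ z ∈ ball z₀ ε, F k z ≠ S z₀ := by
  intro hk
  obtain ⟨x, hx⟩ := hn
  have h1 := ev_ne0 (f := fun z => S z - S z₀) (hS.sub_const _) (sub_ne_zero.2 hx) z₀
  rw [eventually_nhdsWithin_iff] at h1
  obtain ⟨r, hr, h2⟩ := nhds_basis_closedBall.eventually_iff.1 (h1.and (ball_mem_nhds z₀ hε))
  obtain ⟨w, hw, hm⟩ := (isCompact_sphere z₀ r).exists_isMinOn (NormedSpace.sphere_nonempty.2 hr.le)
    (f := fun z => ‖S z - S z₀‖) (by have := hS.continuous; fun_prop)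
  have h3 : 0 < ‖S w - S z₀‖ :=
    norm_pos_iff.2 ((h2 (sphere_subset_closedBall hw)).1 (ne_of_mem_sphere hw hr.ne'))
  obtain ⟨k, ⟨a, b⟩, c⟩ := (hk.and (Metric.tendstoUniformlyOn_iff.1
    (tendstoLocallyUniformly_iff_forall_isCompact.1 h _ (isCompact_closedBall z₀ r)) _
    (half_pos h3))).exists
  have hs : closure (ball z₀ r) ⊆ ball z₀ ε := closure_ball_subset_closedBall.trans fun z hz =>
    (h2 hz).2
  have h4 := norm_le_of_forall_mem_frontier_norm_le (f := fun z => (F k z - S z₀)⁻¹) isBounded_ball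
    (((a.sub_const _).inv fun z hz => sub_ne_zero.2 (b z hz)).mono hs).diffContOnCl
    (C := (‖S w - S z₀‖ / 2)⁻¹) (fun z hz => by
      rw [frontier_ball _ hr.ne'] at hz
      have c1 := c z (sphere_subset_closedBall hz)
      have c2 : ‖S w - S z₀‖ ≤ ‖S z - S z₀‖ := hm hz
      have c3 := norm_sub_le_norm_sub_add_norm_sub (S z) (F k z) (S z₀)
      rw [dist_eq_norm] at c1
      rw [norm_inv]
      exact inv_anti₀ (half_pos h3) (by linarith)) (subset_closure (mem_ball_self hr))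
  have c1 := c z₀ (mem_closedBall_self hr.le)
  rw [dist_comm, dist_eq_norm] at c1
  rw [norm_inv] at h4
  exact h4.not_gt (inv_strictAnti₀ (norm_pos_iff.2 (sub_ne_zero.2 (b z₀ (mem_ball_self hε)))) c1)

noncomputable def PP (b : Bool) (c t y : ℝ) : ℝ :=
  bif b then c * y ^ 2 else c * (Real.cosh (t * y) - 1)

noncomputable def PC (b : Bool) (c t : ℝ) (z : ℂ) : ℂ :=
  bif b then c * z ^ 2 else c * (cosh (t * z) - 1)

theorem PC_real (b : Bool) (c t y : ℝ) : PC b c t y = PP b c t y := by cases b <;> simp [PC, PP]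

theorem PC_im (b : Bool) (c t ξ : ℝ) : PC b c t (ξ * I) = -(psi b c t ξ : ℝ) := by
  cases b
  · simp only [psi, PC, cond_false]
    rw [← mul_assoc, cosh_mul_I]; push_cast; ring
  · simp only [psi, PC, cond_true]
    rw [mul_pow, I_sq]; push_cast; ring

theorem PC_bd (b : Bool) (m r : ℝ) : ∃ A, ∀ c ∈ Icc 0 m, ∀ t ∈ Icc 0 m, ∀ z : ℂ, ‖z‖ ≤ r →
    ‖PC b c t z‖ < A := by
  obtain ⟨A, hA⟩ := (((isCompact_Icc (a := (0 : ℝ)) (b := m)).prod (isCompact_Icc (a := (0 : ℝ))
    (b := m))).prod (isCompact_closedBall (0 : ℂ) r)).exists_bound_of_continuousOn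
    (f := fun p => PC b p.1.1 p.1.2 p.2) (by cases b <;> simp only [PC, cond] <;> fun_prop)
  exact ⟨A + 1, fun c hc t ht z hz => (hA ((c, t), z) ⟨⟨hc, ht⟩, by simpa using hz⟩).trans_lt
    (lt_add_one A)⟩

theorem PP_nonneg (b : Bool) {c : ℝ} (hc : 0 ≤ c) (t y : ℝ) : 0 ≤ PP b c t y := by
  cases b
  · exact mul_nonneg hc (sub_nonneg.2 (Real.one_le_cosh _))
  · exact mul_nonneg hc (sq_nonneg y)

theorem classify (b : Bool) {c t : ℝ} (hc : 0 < c) (ht : 0 < t) {S : ℂ → ℂ}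
    (hS : Differentiable ℂ S) (h0 : S 0 = 0) (he : ∀ z, S (-z) = S z)
    (hp : b = false → ∀ z, S (z + (2 * Real.pi / t : ℝ) * I) = S z)
    (h : ∀ z (x : ℝ), S z = x → x ≤ PP b c t z.re) : ∃ a : ℂ, ∀ z, S z = a * PC b c t z := by
  have hc' : (c : ℂ) ≠ 0 := by exact_mod_cast hc.ne'
  cases b
  · have htc : (t : ℂ) ≠ 0 := by exact_mod_cast ht.ne'
    obtain ⟨a, ha⟩ := class_per (S := fun z => S (z / t)) (by fun_prop) (by simp [h0])
      (fun z => by simp only [neg_div, he])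
      (fun z => by
        rw [← hp rfl (z / t)]; congr 1; push_cast; field_simp) hc
      (fun z x hx => by
        have h1 := h _ x hx
        simp only [div_ofReal_re, PP, cond_false] at h1
        rw [mul_div_cancel₀ _ ht.ne', ← Real.cosh_abs, Real.cosh_eq] at h1
        have : Real.exp (-|z.re|) ≤ Real.exp |z.re| :=
          Real.exp_le_exp.2 (by linarith [abs_nonneg z.re])
        nlinarith)
    refine ⟨a / c, fun z => ?_⟩
    have := ha (t * z)
    simp only [mul_div_cancel_left₀ _ htc] at this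
    rw [this, PC, cond_false]; field_simp
  · obtain ⟨a, ha⟩ := class_sq hS h0 he hc.le h
    exact ⟨a / c, fun z => by rw [ha, PC, cond_true]; field_simp⟩

theorem ent_im {f g : ℂ → ℂ} (hf : Differentiable ℂ f) (hg : Differentiable ℂ g)
    (h : ∀ ξ : ℝ, f (ξ * I) = g (ξ * I)) (z : ℂ) : f z = g z := by
  simpa [mul_assoc] using congrFun (ent_eq_of_real (f := fun z => f (z * I))
    (g := fun z => g (z * I)) (by fun_prop) (by fun_prop) (Eventually.of_forall h)) (-(z * I))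

theorem lim_prop (b : Bool) {l : Ultrafilter ℕ} (hl : (l : Filter ℕ) ≤ atTop) {ck tk : ℕ → ℝ}
    {c t m : ℝ} (hc : 0 < c) (ht : 0 < t) (hm : ∀ k, ck k ∈ Icc 0 m ∧ tk k ∈ Icc 0 m)
    (h1 : Tendsto ck l (𝓝 c)) (h2 : Tendsto tk l (𝓝 t)) {e : ℕ → ℝ → ℝ} {F : ℕ → ℂ → ℂ}
    (he : ∀ k ξ, e k ξ ∈ Icc 0 (psi b (ck k) (tk k) ξ)) (ev : ∀ k ξ, e k (-ξ) = e k ξ)
    (pe : ∀ k T, psi b (ck k) (tk k) T = 0 → ∀ ξ, e k (ξ + T) = e k ξ) {x : ℕ → ℝ}
    (hx : Tendsto x atTop atTop) (hF : ∀ k, Nice (e k) (PP b (ck k) (tk k)) (x k) (F k)) :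
    ∃ a ∈ Icc (0 : ℝ) 1, ∀ n ε : ℝ, 0 < ε → ∀ᶠ k in l, ∀ ξ, |ξ| ≤ n →
      |e k ξ - a * psi b c t ξ| < ε := by
  have big : ∀ y, ∀ᶠ k in l, y < x k := fun y => hl (hx.eventually_gt_atTop y)
  have e0 : ∀ k, e k 0 = 0 := fun k => le_antisymm ((he k 0).2.trans_eq (psi_zero b _ _)) (he k 0).1
  obtain ⟨S, hS, hT⟩ := montel (l := l) (F := F) fun y => by
    obtain ⟨A, hA⟩ := PC_bd b m (3 / 2 * |y| + 1)
    refine ⟨50 * A, (big (3 / 2 * |y| + 1)).mono fun k hk => ⟨(hF k).1.mono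
      (ball_subset_ball (by linarith [le_abs_self y, abs_nonneg y])), fun z hz => ?_⟩⟩
    have hA0 := (norm_nonneg _).trans_lt (hA _ (hm k).1 _ (hm k).2 0 (by simp; positivity))
    refine omit_bound' (R := 3 / 2 * |y| + 1) (fun w hw => (hF k).1.differentiableAt
      (isOpen_ball.mem_nhds (by simpa using hw.trans hk)))
      (by simpa [e0] using (hF k).2.1 0 (by simp; linarith [abs_nonneg y])) hA0 (by positivity)
      (fun w hw => mem_slit hA0 fun u hu h => ?_)
      (by linarith [mem_ball_zero_iff.1 hz, le_abs_self y])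
    have := hA _ (hm k).1 _ (hm k).2 w.re (by simpa using (abs_re_le_norm w).trans hw.le)
    rw [PC_real, norm_real] at this
    linarith [(hF k).2.2 w (hw.trans hk) u h, le_abs_self (PP b (ck k) (tk k) w.re),
      Real.norm_eq_abs (PP b (ck k) (tk k) w.re)]
  have lim : ∀ {u : ℕ → ℝ} {ξ : ℝ}, Tendsto u l (𝓝 ξ) →
      Tendsto (fun k => -(e k (u k) : ℂ)) l (𝓝 (S (ξ * I))) := fun {u ξ} hu =>
    (hT.tendsto_comp hS.continuous.continuousAt (g := fun k => u k * I)
      (((continuous_ofReal.tendsto ξ).comp hu).mul_const I)).congr' (by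
        filter_upwards [big (|ξ| + 1), hu.abs.eventually (gt_mem_nhds (lt_add_one _))] with k a b
        exact (hF k).2.1 _ (b.trans a))
  have S0 : S 0 = 0 := by
    simpa [e0] using (tendsto_nhds_unique (lim (ξ := 0) tendsto_const_nhds) (by simp [e0]))
  obtain ⟨a, ha⟩ := classify b hc ht hS S0
    (ent_im (f := fun z => S (-z)) (by fun_prop) hS fun ξ => by
      have := lim (ξ := -ξ) tendsto_const_nhds
      simp only [ev, ofReal_neg, neg_mul] at this
      exact tendsto_nhds_unique this (lim tendsto_const_nhds))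
    (fun hb => ent_im (f := fun z => S (z + (2 * Real.pi / t : ℝ) * I)) (by fun_prop) hS fun ξ => by
      have := lim (u := fun k => ξ + 2 * Real.pi / tk k)
        ((tendsto_const_nhds.div h2 ht.ne').const_add ξ)
      rw [ofReal_add, add_mul] at this
      refine tendsto_nhds_unique (this.congr' ?_) (lim tendsto_const_nhds)
      filter_upwards [h2.eventually_ne ht.ne'] with k hk
      rw [pe k _ (by simp [hb, psi, mul_div_cancel₀ _ hk])])
    fun z y hy => le_of_not_gt fun hlt => by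
      have c1 : Continuous fun p : (ℝ × ℝ) × ℂ => PP b p.1.1 p.1.2 p.2.re := by
        cases b <;> simp only [PP, cond] <;> fun_prop
      have c2 := (c1.tendsto ((c, t), z)).eventually (gt_mem_nhds hlt)
      rw [nhds_prod_eq] at c2
      obtain ⟨p, hp, q, hq, hpq⟩ := eventually_prod_iff.1 c2
      obtain ⟨ε, hε, hq'⟩ := nhds_basis_ball.eventually_iff.1 hq
      refine hurwitz hT hS hε (z₀ := z) ⟨0, by
        rw [S0, hy]; exact_mod_cast ((PP_nonneg b hc.le t _).trans_lt hlt).ne⟩ ?_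
      filter_upwards [big (ε + ‖z‖), (h1.prodMk_nhds h2).eventually hp] with k a1 a2
      have hs : ball z ε ⊆ ball 0 (x k) := ball_subset_ball' (by simpa using a1.le)
      exact ⟨(hF k).1.mono hs, fun w hw h => LT.lt.not_ge (hpq a2 (hq' hw))
        ((hF k).2.2 w (by simpa using hs hw) y (h.trans hy))⟩
  obtain ⟨ξ₀, h0⟩ := (psi_pos b hc ht).exists
  have l0 := (continuous_re.tendsto _).comp (lim (ξ := ξ₀) tendsto_const_nhds).neg
  have l1 := (continuous_im.tendsto _).comp (lim (ξ := ξ₀) tendsto_const_nhds).neg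
  simp only [ha, PC_im, mul_neg, neg_neg, Function.comp_def, ofReal_re, ofReal_im, re_mul_ofReal,
    im_mul_ofReal] at l0 l1
  have a0 : a.im = 0 := (mul_eq_zero.1 (tendsto_nhds_unique l1 tendsto_const_nhds)).resolve_right
    h0.ne'
  refine ⟨a.re, ⟨nonneg_of_mul_nonneg_left (ge_of_tendsto' l0 fun k => (he k _).1) h0,
    le_of_mul_le_mul_right (by
      rw [one_mul]
      exact le_of_tendsto_of_tendsto' l0 (((cont_psi b).tendsto ((c, t), ξ₀)).comp
        ((h1.prodMk_nhds h2).prodMk_nhds tendsto_const_nhds)) fun k => (he k _).2) h0⟩,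
    fun n ε hε => ?_⟩
  filter_upwards [big n, Metric.tendstoUniformlyOn_iff.1
    (tendstoLocallyUniformly_iff_forall_isCompact.1 hT _ (isCompact_closedBall 0 n)) ε hε]
    with k a1 a2 ξ hξ
  have := a2 (ξ * I) (by simpa using hξ)
  rw [(hF k).2.1 ξ (hξ.trans_lt a1), ha, PC_im, dist_eq_norm] at this
  refine lt_of_le_of_lt ?_ ((abs_re_le_norm _).trans_lt this)
  simp only [mul_neg, sub_re, neg_re, re_mul_ofReal, ofReal_re]
  exact le_of_eq (by congr 1; ring)

end Pool.Agent.MP_9cb8e5_pr.H55
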