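import Pool.Agent.MP_9cb8e5_pr.H55.LLap

/-! The factors have exponential moments as long as the exponent stays below `R`. -/

open Filter Topology Set MeasureTheory ProbabilityTheory Pool.Agent.MP_9cb8e5_pr.H67

namespace Pool.Agent.MP_9cb8e5_pr.H55

structure DecL (μ : Measure ℝ) (R : ℝ) (ρ : Fin 2 → Measure ℝ) (η : Fin 2 → ℝ → ℝ) (Ψ : ℂ → ℂ)
    (P : ℝ → ℝ) : Prop extends LapL μ R where
  pr : ∀ j, IsProbabilityMeasure (ρ j)
  cf : ∀ j ξ, charFun (ρ j) ξ = mgf id μ (-η j ξ)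
  ηnn : ∀ j ξ, 0 ≤ η j ξ
  sum : ∀ ξ : ℝ, Ψ (ξ * Complex.I) = -(η 0 ξ + η 1 ξ : ℝ)
  hΨ : Differentiable ℂ Ψ
  Ψ0 : Ψ 0 = 0
  even : ∀ z, Ψ (-z) = Ψ z
  hP : ∀ y : ℝ, Ψ y = P y
  td : TD fun h => -(η 0 √(-h) + η 1 √(-h))

/-- the identity on the real axis -/
def Inv (μ : Measure ℝ) (R : ℝ) (ρ : Fin 2 → Measure ℝ) (P : ℝ → ℝ) (y : ℝ) : Prop :=
  (∀ j, Integrable (fun x => Real.cosh (y * x)) (ρ j) ∧ ∃ x < R, mgf id (ρ j) y ≤ mgf id μ x) ∧
    ∑ j, mil μ R (mgf id (ρ j) y) = P y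

variable {μ : Measure ℝ} {R : ℝ} {ρ : Fin 2 → Measure ℝ} {η : Fin 2 → ℝ → ℝ} {Ψ : ℂ → ℂ}
  {P : ℝ → ℝ}

theorem DecL.sym (H : DecL μ R ρ η Ψ P) (j : Fin 2) : (ρ j).IsNegInvariant := by
  have := H.pr j
  refine ⟨?_⟩
  have e : (ρ j).neg = (ρ j).map ((-1 : ℝ) * ·) := by
    rw [Measure.neg_def]; congr 1; ext x; simp
  rw [e]
  refine Measure.ext_of_charFun (funext fun t => ?_)
  rw [charFun_map_mul, neg_one_mul, charFun_neg, H.cf]; simp

theorem DecL.int_cos (H : DecL μ R ρ η Ψ P) (j : Fin 2) (ξ : ℝ) :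
    Integrable (fun x => Real.cos (ξ * x)) (ρ j) ∧
      ∫ x, Real.cos (ξ * x) ∂ρ j = mgf id μ (-η j ξ) := by
  have := H.pr j
  have h1 : Integrable (fun x : ℝ => Complex.exp (ξ * x * Complex.I)) (ρ j) :=
    (integrable_const (1 : ℝ)).mono' (by fun_prop) (Eventually.of_forall fun x => by
      rw [← Complex.ofReal_mul, Complex.norm_exp_ofReal_mul_I])
  have h2 : ∀ x : ℝ, RCLike.re (Complex.exp (ξ * x * Complex.I)) = Real.cos (ξ * x) := fun x => by
    rw [← Complex.ofReal_mul, RCLike.re_to_complex, Complex.exp_ofReal_mul_I_re]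
  have h3 := integral_re h1
  have h4 := h1.re
  simp only [h2] at h3 h4
  refine ⟨h4, ?_⟩
  rw [h3, ← charFun_apply_real, H.cf]; simp

theorem DecL.stepA (H : DecL μ R ρ η Ψ P) :
    ∃ r : ℝ, 0 < r ∧ ∀ j, Integrable (fun x => Real.cosh (r * x)) (ρ j) := by
  obtain ⟨r, C, hr, h⟩ := boot kerCos (ρ := ρ) (m := mgf id μ) (s := fun _ => 0)
    (σ := fun j h => -η j √(-h)) (fun _ => H.an H.R0) (fun _ => H.deriv_pos H.R0) H.td
    (fun j => by have := H.pr j; simp [H.zero])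
    (Eventually.of_forall fun h => ⟨fun j => ⟨(H.int_cos j _).1, by
      rw [(H.int_cos j _).2, zero_add], neg_nonpos.2 (H.ηnn j _)⟩, by simp [add_comm]⟩)
  refine ⟨√r, Real.sqrt_pos.2 hr, fun j => kerCos.integrable hr (h j) fun x => ?_⟩
  refine (Real.hasSum_cosh (√r * x)).congr_fun fun k => ?_
  rw [mul_pow, pow_mul √r, Real.sq_sqrt hr.le]; ring

theorem DecL.Pan (H : DecL μ R ρ η Ψ P) (y : ℝ) : AnalyticAt ℝ P y := by
  have := (H.hΨ.analyticAt (y : ℂ)).re_ofReal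
  simpa [H.hP] using this

theorem DecL.hmi (H : DecL μ R ρ η Ψ P) {t : ℝ} {j : Fin 2}
    (h : Integrable (fun x => Real.cosh (t * x)) (ρ j) ∧ ∃ x < R, mgf id (ρ j) t ≤ mgf id μ x) :
    mgf id μ (mil μ R (mgf id (ρ j) t)) = mgf id (ρ j) t ∧ 0 ≤ mil μ R (mgf id (ρ j) t) ∧
      mil μ R (mgf id (ρ j) t) < R := by
  have := H.pr j
  have := H.sym j
  obtain ⟨a, x, b, c⟩ := h
  exact H.m_mi (int_cosh a ▸ one_le_cosh_int a) b c

theorem DecL.near (H : DecL μ R ρ η Ψ P) {r y x : ℝ} {j : Fin 2}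
    (hi : Integrable (fun x => Real.cosh (r * x)) (ρ j)) (hy : |y| < r) (hx : x < R)
    (h : mgf id (ρ j) y ≤ mgf id μ x) : ∀ᶠ t in 𝓝 y,
      Integrable (fun x => Real.cosh (t * x)) (ρ j) ∧ ∃ x < R, mgf id (ρ j) t ≤ mgf id μ x := by
  obtain ⟨x', a, b⟩ := exists_between hx
  have h1 : ∀ᶠ t : ℝ in 𝓝 y, |t| < r :=
    (continuous_abs.isOpen_preimage _ isOpen_Iio).mem_nhds hy
  filter_upwards [h1, (analyticAt_mgf (int_of_cosh hi hy)).continuousAt.eventually
    (gt_mem_nhds (h.trans_lt (H.mono hx b a)))] with t c d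
  exact ⟨(cosh_mono hi (c.le.trans (le_abs_self _))).1, x', b, d.le⟩

theorem DecL.stepB (H : DecL μ R ρ η Ψ P) : ∃ σ : ℂ → ℂ, σ 0 = 0 ∧
    Sol (complexMGF id μ) (complexMGF id (ρ 0)) (complexMGF id (ρ 1)) Ψ 0 σ ∧
    ∀ᶠ y : ℝ in 𝓝 0, Inv μ R ρ P y := by
  obtain ⟨r, hr, hi⟩ := H.stepA
  have hpr := H.pr
  have hM0 : complexMGF id μ 0 = 1 := by have := H.prob; simp [complexMGF]
  have hF0 : ∀ j, complexMGF id (ρ j) 0 = 1 := fun j => by simp [complexMGF]
  obtain ⟨l, hl, hl0, hl1, hl2⟩ := loc_inv' (analyticAt_complexMGF (z := 0)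
    (H.int (by simpa using H.R0))) H.d0
  rw [hM0] at hl hl0 hl2
  have hFa : ∀ j, AnalyticAt ℂ (complexMGF id (ρ j)) 0 := fun j =>
    analyticAt_complexMGF (int_of_cosh (hi j) (by simpa using hr))
  have hσ : ∀ j, AnalyticAt ℂ (fun z => l (complexMGF id (ρ j) z)) 0 := fun j =>
    AnalyticAt.comp_of_eq hl (hFa j) (hF0 j)
  have hη : ∀ j, Tendsto (η j) (𝓝 0) (𝓝 0) := fun j => by
    have h1 : Tendsto (fun ξ : ℝ => -(Ψ (ξ * Complex.I)).re) (𝓝 0) (𝓝 0) := by
      have := H.hΨ.continuous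
      have h : Continuous fun ξ : ℝ => -(Ψ (ξ * Complex.I)).re := by fun_prop
      simpa [H.Ψ0] using h.tendsto 0
    refine squeeze_zero (H.ηnn j) (fun ξ => ?_) h1
    have := H.ηnn 0 ξ
    have := H.ηnn 1 ξ
    rw [H.sum]
    fin_cases j <;> simp <;> linarith
  have him : ∀ j, ∀ᶠ ξ : ℝ in 𝓝 0, l (complexMGF id (ρ j) (ξ * Complex.I)) = -η j ξ := fun j => by
    have h1 : Tendsto (fun ξ => ((-η j ξ : ℝ) : ℂ)) (𝓝 0) (𝓝 0) := by
      simpa [Function.comp_def] using (Complex.continuous_ofReal.tendsto _).comp (hη j).neg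
    filter_upwards [h1.eventually hl1] with ξ hξ
    rw [complexMGF_id_mul_I, H.cf, ← complexMGF_ofReal, hξ]; simp
  have hsum : ∀ᶠ z in 𝓝 0, l (complexMGF id (ρ 0) z) + l (complexMGF id (ρ 1) z) = Ψ z := by
    refine (((hσ 0).add (hσ 1)).frequently_eq_iff_eventually_eq (H.hΨ.analyticAt 0)).1 ?_
    have h1 : Tendsto (fun ξ : ℝ => ξ * Complex.I) (𝓝[≠] 0) (𝓝[≠] 0) := by
      refine tendsto_nhdsWithin_iff.2 ⟨?_, eventually_mem_nhdsWithin.mono fun x hx => by
        simpa using hx⟩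
      have : Continuous fun ξ : ℝ => ξ * Complex.I := by fun_prop
      simpa using (this.tendsto 0).mono_left nhdsWithin_le_nhds
    refine h1.frequently (Eventually.frequently (Eventually.filter_mono nhdsWithin_le_nhds ?_))
    filter_upwards [him 0, him 1] with ξ a b
    simp only [Pi.add_apply, a, b, H.sum]; push_cast; ring
  have hinv : ∀ j, ∀ᶠ z in 𝓝 0, complexMGF id μ (l (complexMGF id (ρ j) z)) =
      complexMGF id (ρ j) z := fun j =>
    (hF0 j ▸ (hFa j).continuousAt.tendsto).eventually hl2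
  have h0 : ∀ j, mgf id (ρ j) 0 = mgf id μ 0 := fun j => by rw [H.zero]; simp
  have hint := fun j => H.near (hi j) (y := 0) (by simpa using hr) H.R0 (h0 j).le
  have hre : ∀ j, ∀ᶠ y : ℝ in 𝓝 0, l (complexMGF id (ρ j) y) = mil μ R (mgf id (ρ j) y) :=
    fun j => by
    have h1 := ((H.mi_an H.R0).comp_of_eq (analyticAt_mgf (int_of_cosh (hi j) (t := 0)
      (by simpa using hr))) (h0 j)).continuousAt.tendsto
    simp only [Function.comp, h0, H.mi_m H.R0] at h1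
    have h2 := (Complex.continuous_ofReal.tendsto _).comp h1
    rw [Complex.ofReal_zero] at h2
    filter_upwards [h2.eventually hl1, hint j] with y hy hy'
    simp only [Function.comp] at hy
    rwa [complexMGF_ofReal, (H.hmi hy').1, ← complexMGF_ofReal] at hy
  refine ⟨fun z => l (complexMGF id (ρ 0) z), by simp only [hF0, hl0], ⟨hσ 0, ?_⟩, ?_⟩
  · filter_upwards [hsum, hinv 0, hinv 1] with z a b c
    exact ⟨b, by rw [← a, add_sub_cancel_left, c]⟩
  · have h1 : Tendsto (fun y : ℝ => (y : ℂ)) (𝓝 0) (𝓝 0) := Complex.continuous_ofReal.tendsto 0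
    filter_upwards [eventually_all.2 hint, hre 0, hre 1, h1.eventually hsum] with y a b c d
    refine ⟨a, ?_⟩
    rw [b, c, H.hP] at d
    rw [Fin.sum_univ_two]; exact_mod_cast d

theorem DecL.stepC (H : DecL μ R ρ η Ψ P) {y : ℝ} (hy : 0 < y) (hR : P y < R)
    (h : ∀ t, 0 ≤ t → t < y → Inv μ R ρ P t) : ∀ᶠ t in 𝓝 y, Inv μ R ρ P t := by
  have hpr := H.pr
  have hsym := H.sym
  obtain ⟨x0, hx0, hx1⟩ := exists_between hR
  have hev : ∀ᶠ t in 𝓝[<] y, 0 ≤ t ∧ t < y :=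
    ((le_mem_nhds hy : ∀ᶠ t in 𝓝 y, 0 ≤ t).filter_mono nhdsWithin_le_nhds).and
      eventually_mem_nhdsWithin
  have hpt : ∀ x, Tendsto (fun t => Real.cosh (t * x)) (𝓝[<] y) (𝓝 (Real.cosh (y * x))) :=
    fun x => (Continuous.tendsto (by fun_prop) y).mono_left nhdsWithin_le_nhds
  have hbd : ∀ j, ∀ᶠ t in 𝓝[<] y, mgf id (ρ j) t ≤ mgf id μ x0 := fun j => by
    filter_upwards [hev, ((H.Pan y).continuousAt.eventually (gt_mem_nhds hx0)).filter_mono
      nhdsWithin_le_nhds] with t ht h3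
    obtain ⟨a, b⟩ := h t ht.1 ht.2
    rw [← (H.hmi (a j)).1]
    refine H.mono.monotoneOn (H.hmi (a j)).2.2 hx1 ?_
    have := Finset.single_le_sum (f := fun j => mil μ R (mgf id (ρ j) t))
      (fun i _ => (H.hmi (a i)).2.1) (Finset.mem_univ j)
    linarith
  have hiy : ∀ j, Integrable (fun x => Real.cosh (y * x)) (ρ j) := fun j => by
    refine ⟨by fun_prop, ?_⟩
    have h1 := lintegral_liminf_le (μ := ρ j) (u := 𝓝[<] y)
      (f := fun t x => ENNReal.ofReal (Real.cosh (t * x))) fun t => by fun_prop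
    have h2 : ∀ x, liminf (fun t => ENNReal.ofReal (Real.cosh (t * x))) (𝓝[<] y) =
        ‖Real.cosh (y * x)‖ₑ := fun x => by
      rw [Real.enorm_eq_ofReal (Real.cosh_pos _).le]
      exact ((ENNReal.continuous_ofReal.tendsto _).comp (hpt x)).liminf_eq
    simp only [h2] at h1
    refine lt_of_le_of_lt (h1.trans (liminf_le_of_frequently_le' (Eventually.frequently ?_)))
      (ENNReal.ofReal_lt_top (r := mgf id μ x0))
    filter_upwards [hev, hbd j] with t ht h3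
    have a := ((h t ht.1 ht.2).1 j).1
    rw [← ofReal_integral_eq_lintegral_ofReal a
      (Eventually.of_forall fun x => (Real.cosh_pos _).le), int_cosh a]
    exact ENNReal.ofReal_le_ofReal h3
  have hl : ∀ j, Tendsto (mgf id (ρ j)) (𝓝[<] y) (𝓝 (mgf id (ρ j) y)) := fun j => by
    have h2 := tendsto_integral_filter_of_dominated_convergence (μ := ρ j) (l := 𝓝[<] y)
      (F := fun t x => Real.cosh (t * x)) (fun x => Real.cosh (y * x))
      (Eventually.of_forall fun t => by fun_prop) (hev.mono fun t ht => Eventually.of_forall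
        fun x => by
          rw [Real.norm_of_nonneg (Real.cosh_pos _).le, Real.cosh_le_cosh, abs_mul, abs_mul,
            abs_of_nonneg ht.1, abs_of_pos hy]
          exact mul_le_mul_of_nonneg_right ht.2.le (abs_nonneg _))
      (hiy j) (Eventually.of_forall hpt)
    rw [int_cosh (hiy j)] at h2
    exact h2.congr' (hev.mono fun t ht => int_cosh ((h t ht.1 ht.2).1 j).1)
  have hle := fun j => le_of_tendsto (hl j) (hbd j)
  have hmi := fun j => H.hmi ⟨hiy j, x0, hx1, hle j⟩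
  have hlim : ∀ j, Tendsto (fun t => mil μ R (mgf id (ρ j) t)) (𝓝[<] y)
      (𝓝 (mil μ R (mgf id (ρ j) y))) := fun j => by
    have h1 := (H.mi_an (hmi j).2.2).continuousAt.tendsto
    rw [(hmi j).1] at h1
    exact h1.comp (hl j)
  have hid : ∑ j, mil μ R (mgf id (ρ j) y) = P y :=
    tendsto_nhds_unique ((tendsto_finsetSum _ fun j _ => hlim j).congr'
      (hev.mono fun t ht => (h t ht.1 ht.2).2))
      ((H.Pan y).continuousAt.tendsto.mono_left nhdsWithin_le_nhds)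
  obtain ⟨r, C, hr, hb⟩ := boot (kerCosh hy) (ρ := ρ) (m := mgf id μ)
    (s := fun j => mil μ R (mgf id (ρ j) y)) (Θ := fun h => P (y + h) - P y)
    (σ := fun j h => mil μ R (mgf id (ρ j) (y + h)) - mil μ R (mgf id (ρ j) y))
    (fun j => H.an (hmi j).2.2) (fun j => H.deriv_pos (hmi j).2.2)
    (td_of_analytic (((H.Pan y).comp_of_eq (by fun_prop) (add_zero y)).sub analyticAt_const)
      (by simp))
    (fun j => by
      simp only [ch_zero, Nat.factorial_zero, Nat.cast_one, div_one]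
      exact ⟨hiy j, by rw [(hmi j).1, int_cosh (hiy j)]⟩)
    ((kerCosh hy).ev.mono fun u hu => by
      obtain ⟨a, b⟩ := h (y + u) (by linarith) (by linarith)
      refine ⟨fun j => ⟨(a j).1, by rw [add_sub_cancel, (H.hmi (a j)).1, int_cosh (a j).1], ?_⟩,
        by rw [Finset.sum_sub_distrib, b, hid]⟩
      rw [sub_nonpos, ← H.mono.le_iff_le (H.hmi (a j)).2.2 (hmi j).2.2, (H.hmi (a j)).1, (hmi j).1,
        ← int_cosh (a j).1, ← int_cosh (hiy j)]
      exact (cosh_mono (hiy j) (by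
        rw [abs_of_pos hy, abs_of_pos (by linarith)]; linarith)).2)
  have hir : ∀ j, Integrable (fun x => Real.cosh ((y + r) * x)) (ρ j) := fun j =>
    (kerCosh hy).integrable hr (hb j) fun x => hasSum_ch x y r
  have hyr : |y| < y + r := by rw [abs_of_pos hy]; linarith
  have han : AnalyticAt ℝ (fun t => ∑ j, mil μ R (mgf id (ρ j) t)) y :=
    Finset.analyticAt_fun_sum _ fun j _ => ((H.mi_an (hmi j).2.2).comp_of_eq
      (analyticAt_mgf (int_of_cosh (hir j) hyr)) (hmi j).1.symm)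
  have hE := (han.frequently_eq_iff_eventually_eq (H.Pan y)).1
    ((hev.mono fun t ht => (h t ht.1 ht.2).2).frequently.filter_mono
      (nhdsWithin_mono _ fun t ht => ne_of_lt ht))
  filter_upwards [hE, eventually_all.2 fun j => H.near (hir j) hyr hx1 (hle j)] with t a b
  exact ⟨b, a⟩

theorem DecL.all (H : DecL μ R ρ η Ψ P) {r : ℝ} (hr : ∀ y, 0 ≤ y → y < r → P y < R) {y : ℝ}
    (hy : 0 ≤ y) (hy' : y < r) : Inv μ R ρ P y := by
  by_contra hcon
  set B := {y : ℝ | 0 ≤ y ∧ ¬ Inv μ R ρ P y} with hB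
  have hbd : BddBelow B := ⟨0, fun t ht => ht.1⟩
  have hne : y ∈ B := ⟨hy, hcon⟩
  have h0 : 0 ≤ sInf B := le_csInf ⟨y, hne⟩ fun t ht => ht.1
  have hev : ∀ᶠ t in 𝓝 (sInf B), t ∉ B := by
    rcases h0.eq_or_lt with h | h
    · obtain ⟨σ, -, -, h'⟩ := H.stepB
      rw [← h]
      exact h'.mono fun t ht hb => hb.2 ht
    · refine (H.stepC h (hr _ h0 ((csInf_le hbd hne).trans_lt hy')) fun t a b => ?_).mono
        fun t ht hb => hb.2 ht
      by_contra hc
      exact notMem_of_lt_csInf b hbd ⟨a, hc⟩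
  exact (mem_closure_iff_frequently.1 (csInf_mem_closure ⟨y, hne⟩ hbd)) hev

theorem DecL.real (H : DecL μ R ρ η Ψ P) {r : ℝ} (hr : ∀ y, 0 ≤ y → y < r → P y < R) {y : ℝ}
    (hy : |y| < r) : (∀ j, y ∈ interior (integrableExpSet id (ρ j))) ∧ ∃ a b : ℝ, 0 ≤ a ∧ 0 ≤ b ∧
      a + b = P y ∧ P y < R ∧ mgf id (ρ 0) y = mgf id μ a ∧ mgf id (ρ 1) y = mgf id μ b := by
  have hpr := H.pr
  have hsym := H.sym
  obtain ⟨y', a1, a2⟩ := exists_between hy
  refine ⟨fun j => int_of_cosh ((H.all hr ((abs_nonneg y).trans a1.le) a2).1 j).1 a1, ?_⟩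
  obtain ⟨h1, h2⟩ := H.all hr (abs_nonneg y) hy
  have e : ∀ j, mgf id (ρ j) |y| = mgf id (ρ j) y := fun j => by
    rcases abs_choice y with h | h <;> rw [h]
    have := cmgf_even (ν := ρ j) y
    rw [← Complex.ofReal_neg, complexMGF_ofReal, complexMGF_ofReal] at this
    exact_mod_cast this
  have eP : P |y| = P y := by
    rcases abs_choice y with h | h <;> rw [h]
    have := H.even y
    rw [← Complex.ofReal_neg, H.hP, H.hP] at this
    exact_mod_cast this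
  have hmi := fun j => H.hmi (h1 j)
  rw [Fin.sum_univ_two, eP] at h2
  exact ⟨_, _, (hmi 0).2.1, (hmi 1).2.1, h2, eP ▸ hr _ (abs_nonneg y) hy, by rw [(hmi 0).1, e],
    by rw [(hmi 1).1, e]⟩

end Pool.Agent.MP_9cb8e5_pr.H55
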