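import Pool.Agent.MP_9cb8e5_pr.H55.LMom
import Pool.Agent.MP_9cb8e5_pr.H67.Rigid

/-! The exponent of a factor extends analytically to a large disc. -/

open Filter Topology Set MeasureTheory ProbabilityTheory Complex Metric
open Pool.Agent.MP_9cb8e5_pr.H67

namespace Pool.Agent.MP_9cb8e5_pr.H55

variable {μ : Measure ℝ} {R r A : ℝ} {ρ : Fin 2 → Measure ℝ} {η : Fin 2 → ℝ → ℝ} {Ψ : ℂ → ℂ}
  {P : ℝ → ℝ}

theorem DecL.lt (H : DecL μ R ρ η Ψ P) (hb : ∀ z, ‖z‖ < r → ‖Ψ z‖ < A) {y : ℝ} (hy : |y| < r) :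
    P y < A := by
  have := hb y (by simpa using hy)
  rw [H.hP, norm_real] at this
  exact (le_abs_self _).trans_lt this

theorem DecL.miss (H : DecL μ R ρ η Ψ P) (hb : ∀ z, ‖z‖ < r → ‖Ψ z‖ < A) (hA : A ≤ R) {z : ℂ}
    (hz : ‖z‖ < r) {x : ℝ} (hx : x < R) (j : Fin 2)
    (h : complexMGF id μ x = complexMGF id (ρ j) z) : x ≤ P z.re := by
  obtain ⟨-, a, b, a0, b0, hab, hP, ha, hb'⟩ := H.real (r := r)
    (fun y h0 h1 => (H.lt hb (by rwa [abs_of_nonneg h0])).trans_le hA) (y := z.re)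
    ((abs_re_le_norm z).trans_lt hz)
  have h2 := norm_complexMGF_le_mgf (X := id) (μ := ρ j) (z := z)
  rw [← h, complexMGF_ofReal, norm_real, Real.norm_eq_abs] at h2
  have h3 := (le_abs_self _).trans h2
  fin_cases j
  · linarith [(H.mono.le_iff_le hx (show a < R by linarith)).1 (h3.trans_eq ha)]
  · linarith [(H.mono.le_iff_le hx (show b < R by linarith)).1 (h3.trans_eq hb')]

theorem DecL.hyp (H : DecL μ R ρ η Ψ P) (hr : 0 < r) (hb : ∀ z, ‖z‖ < r → ‖Ψ z‖ < A) (hA : A ≤ R)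
    (hF : ∃ x : ℂ, ‖x‖ < r ∧ deriv (complexMGF id (ρ 0)) x ≠ 0) :
    HypL (complexMGF id μ) (complexMGF id (ρ 0)) (complexMGF id (ρ 1)) Ψ r R A := by
  have hre := fun y hy => H.real (r := r)
    (fun y h0 h1 => (H.lt hb (by rwa [abs_of_nonneg h0])).trans_le hA) (y := y) hy
  have hlt := fun z hz => H.lt hb (y := re z) ((abs_re_le_norm z).trans_lt hz)
  exact
    { hM := fun s hs => analyticAt_complexMGF (H.int hs)
      h1 := fun z hz => analyticAt_complexMGF ((hre _ ((abs_re_le_norm z).trans_lt hz)).1 0)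
      h2 := fun z hz => analyticAt_complexMGF ((hre _ ((abs_re_le_norm z).trans_lt hz)).1 1)
      hΨ := H.hΨ
      nM := ⟨0, by simpa using H.R0, H.d0⟩
      nF := hF
      A0 := (norm_nonneg _).trans_lt (hb 0 (by simpa using hr))
      d0 := H.d0
      bΨ := fun z hz => (hb z hz).le
      uniq := fun y s s' d d' h1 h2 h3 h4 => by
        obtain ⟨-, a, b, a0, b0, hab, hP, ha, hb⟩ := hre y (by simpa using d.1)
        have e1 := d.2.2
        have e2 := d'.2.2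
        rw [complexMGF_ofReal, ha] at h1 h3
        rw [complexMGF_ofReal, hb] at h2 h4
        rw [H.hP, ← hab] at h2 h4 e1 e2
        have := (H.uniq (by linarith) (by linarith) d.2.1 e1 h1 h2).add
          (H.uniq (by linarith) (by linarith) d'.2.1 e2 h3 h4).neg
        rwa [show s - a + -(s' - a) = s - s' by ring] at this
      perim := fun t ht => H.perim ht
      pcl := H.pcl
      om := fun z x hz h1 h2 => ⟨fun h => by linarith [H.miss hb hA hz h2 0 h, hlt z hz],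
        fun h => by linarith [H.miss hb hA hz h2 1 h, hlt z hz]⟩ }

/-- an analytic extension of `-e` from the imaginary axis whose real values are below `P` -/
def Nice (e P : ℝ → ℝ) (x : ℝ) (S : ℂ → ℂ) : Prop :=
  DifferentiableOn ℂ S (ball 0 x) ∧ (∀ ξ : ℝ, |ξ| < x → S (ξ * I) = -e ξ) ∧
    ∀ z, ‖z‖ < x → ∀ y : ℝ, S z = y → y ≤ P z.re

theorem DecL.inj (H : DecL μ R ρ η Ψ P) {a b : ℝ} (ha : 0 ≤ a) (hb : 0 ≤ b)
    (h : (mgf id μ (-a) : ℂ) = mgf id μ (-b)) : a = b :=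
  neg_injective (H.mono.injOn (show -a < R by linarith [H.R0]) (show -b < R by linarith [H.R0])
    (ofReal_inj.1 h))

theorem exists_nice : ∃ Λ : ℝ, 1 ≤ Λ ∧ ∀ (μ : Measure ℝ) (R : ℝ) (ρ : Fin 2 → Measure ℝ)
    (η : Fin 2 → ℝ → ℝ) (Ψ : ℂ → ℂ) (P : ℝ → ℝ) (r A : ℝ), DecL μ R ρ η Ψ P → 0 < r →
    (∀ z, ‖z‖ < r → ‖Ψ z‖ < A) → Λ * A ≤ R → ∃ S, Nice (η 0) P (r / 8) S := by
  obtain ⟨Λ, hΛ, h⟩ := exists_solOn
  refine ⟨Λ, hΛ, fun μ R ρ η Ψ P r A H hr hb hR => ?_⟩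
  have hA0 : 0 < A := (norm_nonneg _).trans_lt (hb 0 (by simpa using hr))
  have hA : A ≤ R := by nlinarith
  have hpr := H.pr
  have hR0 := H.R0
  have hM0 : complexMGF id μ (0 : ℝ) = 1 := by have := H.prob; simp [complexMGF]
  by_cases hF : ∃ x : ℂ, ‖x‖ < r ∧ deriv (complexMGF id (ρ 0)) x ≠ 0
  · have HH := H.hyp hr hb hA hF
    obtain ⟨σ, h0, hσ, -⟩ := H.stepB
    obtain ⟨S, hS0, hS⟩ := h _ _ _ _ _ _ _ HH hr hR σ h0 hσ
    have hp : ∀ ξ : ℝ, |ξ| < r / 8 → Per (complexMGF id μ) (S (ξ * I) - (-η 0 ξ : ℝ)) :=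
      fun ξ hξ => by
      obtain ⟨⟨-, a⟩, d⟩ := hS (ξ * I) (by simpa using hξ)
      obtain ⟨a1, a2⟩ := a.self_of_nhds
      have e : Ψ (ξ * I) = ((-η 0 ξ + -η 1 ξ : ℝ) : ℂ) := by rw [H.sum]; push_cast; ring
      rw [complexMGF_id_mul_I, H.cf] at a1 a2
      exact H.uniq (by linarith [H.ηnn 0 ξ]) (by linarith [H.ηnn 1 ξ]) d.2.1 (e ▸ d.2.2) a1 (e ▸ a2)
    have hre : ∀ ξ : ℝ, |ξ| < r / 8 → (S (ξ * I)).re = -η 0 ξ := fun ξ hξ => by
      simpa [add_eq_zero_iff_eq_neg] using H.perim (hp ξ hξ)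
    have han : ∀ ξ : ℝ, |ξ| < r / 8 → AnalyticAt ℝ (fun ξ : ℝ => S (ξ * I)) ξ := fun ξ hξ =>
      ((hS (ξ * I) (by simpa using hξ)).1.1.restrictScalars (𝕜 := ℝ)).comp
        (f := fun ξ : ℝ => (ξ * I : ℂ)) ((ofRealCLM.analyticAt ξ).mul analyticAt_const)
    have him : EqOn (fun ξ : ℝ => (S (ξ * I)).im) 0 (Ioo (-(r / 8)) (r / 8)) := by
      refine AnalyticOnNhd.eqOn_zero_of_preconnected_of_eventuallyEq_zero
        (fun ξ hξ => (imCLM.analyticAt _).comp (han ξ (abs_lt.2 hξ))) isPreconnected_Ioo (z₀ := 0)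
        (by simpa using hr) ?_
      have c : Tendsto (fun ξ : ℝ => S (ξ * I) - (S (ξ * I)).re) (𝓝 0) (𝓝 0) := by
        have c1 := (han 0 (by simpa using hr)).continuousAt
        have c2 : ContinuousAt (fun ξ : ℝ => S (ξ * I) - (S (ξ * I)).re) 0 :=
          c1.sub ((continuous_ofReal.comp continuous_re).continuousAt.comp c1)
        simpa [hS0] using c2.tendsto
      filter_upwards [c.eventually H.per_small, Ioo_mem_nhds (show -(r / 8) < 0 by linarith)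
        (show 0 < r / 8 by linarith)] with ξ a b
      have := congrArg im (a (by rw [hre ξ (abs_lt.2 b)]; exact hp ξ (abs_lt.2 b)))
      simpa using this
    refine ⟨S, fun z hz => (hS z (by simpa using hz)).1.1.differentiableAt.differentiableWithinAt,
      fun ξ hξ => Complex.ext (by simpa using hre ξ hξ) (by simpa using him (abs_lt.1 hξ)),
      fun z hz y hy => ?_⟩
    obtain ⟨⟨-, a⟩, d⟩ := hS z hz
    exact H.miss hb hA d.1 (by simpa [hy] using d.2.1) 0 (hy ▸ a.self_of_nhds.1)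
  push Not at hF
  have hre := fun y hy => H.real (r := r)
    (fun y h0 h1 => (H.lt hb (by rwa [abs_of_nonneg h0])).trans_le hA) (y := y) hy
  have hc : ∀ z, ‖z‖ < r → complexMGF id μ (0 : ℝ) = complexMGF id (ρ 0) z := fun z hz => by
    rw [hM0, isOpen_ball.eqOn_of_deriv_eq (convex_ball (0 : ℂ) r).isPreconnected (g := fun _ => 1)
      (fun z hz => (analyticAt_complexMGF ((hre _ ((abs_re_le_norm z).trans_lt
        (by simpa using hz))).1 0)).differentiableAt.differentiableWithinAt) (by fun_prop)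
      (fun z hz => by simpa using hF z (by simpa using hz)) (mem_ball_self hr)
      (by simp [complexMGF]) (by simpa using hz)]
  refine ⟨0, by fun_prop, fun ξ hξ => ?_, fun z hz y hy => ?_⟩
  · have := hc (ξ * I) (by simp; linarith)
    rw [complexMGF_id_mul_I, H.cf, complexMGF_ofReal, ← neg_zero] at this
    simp [← H.inj le_rfl (H.ηnn 0 ξ) this]
  · have : y = 0 := by simpa using hy.symm
    exact this ▸ H.miss hb hA (by linarith) hR0 0 (hc z (by linarith))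

theorem DecL.ηeven (H : DecL μ R ρ η Ψ P) (ξ : ℝ) : η 0 (-ξ) = η 0 ξ :=
  H.inj (H.ηnn _ _) (H.ηnn _ _) (by rw [← H.cf, charFun_neg, H.cf]; simp)

theorem DecL.ηper (H : DecL μ R ρ η Ψ P) {T : ℝ} (hT : η 0 T + η 1 T = 0) (ξ : ℝ) :
    η 0 (ξ + T) = η 0 ξ := by
  have hpr := H.pr
  have h1 : η 0 T = 0 := by linarith [H.ηnn 0 T, H.ηnn 1 T]
  have h2 : Per (complexMGF id (ρ 0)) (T * I) :=
    per_of_eq (a := 0) (by simp) (by simp [complexMGF_id_mul_I, H.cf, h1, H.zero])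
  refine H.inj (H.ηnn _ _) (H.ηnn _ _) ?_
  rw [← H.cf, ← H.cf, ← complexMGF_id_mul_I, ← complexMGF_id_mul_I, ← h2 (ξ * I)]
  congr 1; push_cast; ring

end Pool.Agent.MP_9cb8e5_pr.H55
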