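import Pool.Agent.MP_9cb8e5_pr.H55.LCurve

/-! A Phragmen-Lindelof principle on the fibre product, inside a box. -/

open Complex Filter Topology Set Metric Pool.Agent.MP_9cb8e5_pr.H67

namespace Pool.Agent.MP_9cb8e5_pr.H55

variable {M F1 F2 Ψ : ℂ → ℂ} {r R : ℝ}

def Box (Ψ : ℂ → ℂ) (r R : ℝ) (z s : ℂ) : Prop := ‖z‖ ≤ r ∧ s.re ≤ R ∧ (Ψ z - s).re ≤ R

theorem Box.dom {r' R' : ℝ} {z s : ℂ} (h : Box Ψ r' R' z s) (hr : r' < r) (hR : R' < R) :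
    Dom Ψ r R z s := ⟨h.1.trans_lt hr, h.2.1.trans_lt hR, h.2.2.trans_lt hR⟩

theorem Loc.clos (H : Loc M F1 F2 Ψ r R) {r' R' : ℝ} (hr : r' < r) (hR : R' < R)
    {T : Set (ℂ × ℂ × ℂ)} (hT : ∀ q ∈ T, (Gd M F1 F2 Ψ r R q.1 q.2.1 ∧ Gd M F1 F2 Ψ r R q.1 q.2.2) ∧
      Box Ψ r' R' q.1 q.2.1 ∧ Box Ψ r' R' q.1 q.2.2) (q : ℂ × ℂ × ℂ) (hq : q ∈ closure T) :
    (Box Ψ r' R' q.1 q.2.1 ∧ Box Ψ r' R' q.1 q.2.2) ∧
    ((∃ᶠ p : ℂ × ℂ in 𝓝 (q.1, q.2.1), Gd M F1 F2 Ψ r R p.1 p.2) ∧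
      ∃ᶠ p : ℂ × ℂ in 𝓝 (q.1, q.2.2), Gd M F1 F2 Ψ r R p.1 p.2) ∧
    (M q.2.1 = F1 q.1 ∧ M (Ψ q.1 - q.2.1) = F2 q.1) ∧ M q.2.2 = F1 q.1 := by
  have hc := H.hΨ.continuous
  have h1 : IsClosed {q : ℂ × ℂ × ℂ | Box Ψ r' R' q.1 q.2.1 ∧ Box Ψ r' R' q.1 q.2.2} :=
    IsClosed.and (IsClosed.and (isClosed_le (by fun_prop) (by fun_prop)) (IsClosed.and
      (isClosed_le (by fun_prop) (by fun_prop)) (isClosed_le (by fun_prop) (by fun_prop))))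
      (IsClosed.and (isClosed_le (by fun_prop) (by fun_prop)) (IsClosed.and
      (isClosed_le (by fun_prop) (by fun_prop)) (isClosed_le (by fun_prop) (by fun_prop))))
  have h2 := h1.closure_subset_iff.2 (fun q hq => (hT q hq).2) hq
  have hfr : ∃ᶠ p in 𝓝 q, p ∈ T := mem_closure_iff_frequently.1 hq
  have f1 : ∃ᶠ p : ℂ × ℂ in 𝓝 (q.1, q.2.1), Gd M F1 F2 Ψ r R p.1 p.2 :=
    ((by fun_prop : Continuous fun p : ℂ × ℂ × ℂ => (p.1, p.2.1)).tendsto q).frequently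
      (hfr.mono fun p hp => (hT p hp).1.1)
  have f2 : ∃ᶠ p : ℂ × ℂ in 𝓝 (q.1, q.2.2), Gd M F1 F2 Ψ r R p.1 p.2 :=
    ((by fun_prop : Continuous fun p : ℂ × ℂ × ℂ => (p.1, p.2.2)).tendsto q).frequently
      (hfr.mono fun p hp => (hT p hp).1.2)
  exact ⟨h2, ⟨f1, f2⟩, H.eq_of_freq (h2.1.dom hr hR) f1, (H.eq_of_freq (h2.2.dom hr hR) f2).1⟩

theorem Loc.PL (H : Loc M F1 F2 Ψ r R) {r' R0 : ℝ} (hr : r' < r) (hR : R0 < R) {a : ℂ}
    (haR : a.re < R) (ha0 : ∀ z, ‖z‖ ≤ r' → M a ≠ F1 z)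
    {T : Set (ℂ × ℂ × ℂ)} {g : ℂ × ℂ × ℂ → ℂ} {Q : ℝ}
    (hT : ∀ q ∈ T, (Gd M F1 F2 Ψ r R q.1 q.2.1 ∧ Gd M F1 F2 Ψ r R q.1 q.2.2) ∧
      Box Ψ r' R0 q.1 q.2.1 ∧ Box Ψ r' R0 q.1 q.2.2)
    (hgc : ContinuousOn g (closure T)) (hgQ : ∀ q ∈ T, ‖g q‖ ≤ Q)
    (hint : ∀ q ∈ closure T, Gd M F1 F2 Ψ r R q.1 q.2.1 → Gd M F1 F2 Ψ r R q.1 q.2.2 → 1 < ‖g q‖ →
      (∀ᶠ p in 𝓝 q, Gd M F1 F2 Ψ r R p.1 p.2.1 → Gd M F1 F2 Ψ r R p.1 p.2.2 → p ∈ T) ∧
      (∀ᶠ p in 𝓝 q, DifferentiableAt ℂ g p)) :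
    ∀ p ∈ T, ‖g p‖ ≤ 1 := by
  classical
  intro p0 hp0
  by_contra hcon
  push Not at hcon
  obtain ⟨δ, hδ, ha⟩ : ∃ δ, 0 < δ ∧ ∀ z s, ‖z‖ ≤ r' → M s = F1 z → δ ≤ ‖s - a‖ := by
    obtain ⟨δ, hδ, h⟩ := Metric.eventually_nhds_iff.1 ((isCompact_closedBall (0 : ℂ)
      r').eventually_forall_of_forall_eventually (P := fun s z => M s ≠ F1 z) (x₀ := a) fun z hz => by
        have hz' := mem_closedBall_zero_iff.1 hz
        have c : ContinuousAt (fun p : ℂ × ℂ => M p.1 - F1 p.2) (a, z) :=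
          ((H.hM a haR).continuousAt.comp_of_eq continuousAt_fst rfl).sub
            ((H.h1 z (hz'.trans_lt hr)).continuousAt.comp_of_eq continuousAt_snd rfl)
        exact (c.eventually_ne (sub_ne_zero.2 (ha0 z hz'))).mono fun p hp => sub_ne_zero.1 hp)
    exact ⟨δ, hδ, fun z s hz e => le_of_not_gt fun hs =>
      h (by rwa [dist_eq_norm]) z (mem_closedBall_zero_iff.2 hz) e⟩
  have hcl' := H.clos hr hR hT
  have hcl : ∀ q ∈ closure T, M q.2.1 = F1 q.1 ∧ M q.2.2 = F1 q.1 ∧ ‖q.1‖ ≤ r' := fun q hq =>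
    ⟨(hcl' q hq).2.2.1.1, (hcl' q hq).2.2.2, (hcl' q hq).1.1.1⟩
  have hQ : ∀ q ∈ closure T, ‖g q‖ ≤ Q := fun q hq =>
    le_on_closure hgQ hgc.norm continuousOn_const hq
  set b : ℂ × ℂ × ℂ → ℂ := fun q => (q.2.1 - a) * (q.2.2 - a) / (δ : ℂ) ^ 2 with hb
  have hbc : Continuous b := by fun_prop
  have hbn : ∀ q, ‖b q‖ = ‖q.2.1 - a‖ * ‖q.2.2 - a‖ / δ ^ 2 := by
    intro q; simp [hb, abs_of_pos hδ]
  have hb1 : ∀ q ∈ closure T, 1 ≤ ‖b q‖ := by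
    intro q hq
    obtain ⟨h1, h2, h3⟩ := hcl q hq
    rw [hbn, le_div_iff₀ (by positivity), one_mul, sq]
    exact mul_le_mul (ha _ _ h3 h1) (ha _ _ h3 h2) hδ.le (norm_nonneg _)
  obtain ⟨N, hN⟩ := pow_unbounded_of_one_lt ‖b p0‖ hcon
  set R' : ℝ := |Q| ^ N + ‖b p0‖ + 1 with hR'
  have hbound : ∀ q ∈ closure T, ‖b q‖ ≤ R' → ‖q.2.1 - a‖ ≤ R' * δ ∧ ‖q.2.2 - a‖ ≤ R' * δ := by
    intro q hq hq2
    obtain ⟨h1, h2, h3⟩ := hcl q hq
    rw [hbn, div_le_iff₀ (by positivity)] at hq2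
    have e1 := ha _ _ h3 h1
    have e2 := ha _ _ h3 h2
    constructor
    · refine le_of_mul_le_mul_right ?_ hδ
      nlinarith [mul_le_mul_of_nonneg_left e2 (norm_nonneg (q.2.1 - a))]
    · refine le_of_mul_le_mul_right ?_ hδ
      nlinarith [mul_le_mul_of_nonneg_right e1 (norm_nonneg (q.2.2 - a))]
  have hfin := H.fin ((isCompact_closedBall a (R' * δ)).inter_right
    (isClosed_le continuous_re (continuous_const (y := R0)))) fun s hs => lt_of_le_of_lt hs.2 hR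
  set S := hfin.toFinset with hS
  set P : ℂ → ℂ := fun z => ∏ c ∈ S, (F1 z - M c) with hP
  have hPd : ∀ z, ‖z‖ ≤ r' → DifferentiableAt ℂ P z := fun z hz => by
    rw [hP]
    exact DifferentiableAt.fun_finsetProd fun c _ =>
      (H.h1 z (hz.trans_lt hr)).differentiableAt.sub_const _
  obtain ⟨C0, hC0⟩ := (isCompact_closedBall (0 : ℂ) r').exists_bound_of_continuousOn (f := P)
    fun z hz => (hPd z (mem_closedBall_zero_iff.1 hz)).continuousAt.continuousWithinAt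
  set Hf : ℂ × ℂ × ℂ → ℂ := fun q => g q ^ N / b q with hHf
  set K := closure (T ∩ {q | ‖b q‖ ≤ R'}) with hK
  have hKT : K ⊆ closure T := closure_mono inter_subset_left
  have hKb : ∀ q ∈ K, ‖b q‖ ≤ R' := fun q hq =>
    (isClosed_le hbc.norm continuous_const).closure_subset_iff.2 inter_subset_right hq
  have hKc : IsCompact K := by
    refine Bornology.IsBounded.isCompact_closure ?_
    refine ((isBounded_closedBall (x := (0 : ℂ)) (r := r')).prod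
      ((isBounded_closedBall (x := a) (r := R' * δ)).prod
        (isBounded_closedBall (x := a) (r := R' * δ)))).subset ?_
    rintro q ⟨hq, hq2⟩
    have := hbound q (subset_closure hq) hq2
    simp only [mem_prod, mem_closedBall, dist_eq_norm, sub_zero]
    exact ⟨(hT q hq).2.1.1, this⟩
  -- sections through a good interior point
  have hsec : ∀ q ∈ closure T, Gd M F1 F2 Ψ r R q.1 q.2.1 → Gd M F1 F2 Ψ r R q.1 q.2.2 → 1 < ‖g q‖ →
      ‖b q‖ < R' → ∃ γ : ℂ → ℂ × ℂ × ℂ, γ q.1 = q ∧ ContinuousAt γ q.1 ∧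
        ∀ᶠ z in 𝓝 q.1, γ z ∈ K ∧ (γ z).1 = z ∧ DifferentiableAt ℂ (fun w => Hf (γ w)) z := by
    rintro ⟨z, s, s'⟩ hq g1 g2 hg hbq
    obtain ⟨hi1, hi2⟩ := hint _ hq g1 g2 hg
    obtain ⟨σ, ⟨hσ, -⟩, hσ0, hσg⟩ := g1.sol H
    obtain ⟨τ, ⟨hτ, -⟩, hτ0, hτg⟩ := g2.sol H
    simp only at hσ hσ0 hσg hτ hτ0 hτg
    have hγc : ContinuousAt (fun w => (w, σ w, τ w)) z :=
      continuousAt_id.prodMk (hσ.continuousAt.prodMk hτ.continuousAt)
    have hγt : Tendsto (fun w => (w, σ w, τ w)) (𝓝 z) (𝓝 (z, s, s')) := by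
      have := hγc.tendsto; rwa [hσ0, hτ0] at this
    refine ⟨fun w => (w, σ w, τ w), by simp [hσ0, hτ0], hγc, ?_⟩
    have hlt : ∀ᶠ p in 𝓝 (z, s, s'), ‖b p‖ < R' :=
      hbc.norm.continuousAt.eventually_lt continuousAt_const hbq
    filter_upwards [hγt.eventually hi1, hγt.eventually hi2, hγt.eventually hlt, hσg, hτg,
      hσ.eventually_analyticAt, hτ.eventually_analyticAt] with w e1 e2 e3 e4 e5 e6 e7
    have hmem : (w, σ w, τ w) ∈ T := e1 e4 e5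
    refine ⟨subset_closure ⟨hmem, e3.le⟩, rfl, ?_⟩
    have hd : DifferentiableAt ℂ (fun w => (w, σ w, τ w)) w :=
      differentiableAt_id.prodMk (e6.differentiableAt.prodMk e7.differentiableAt)
    have hbne : b (w, σ w, τ w) ≠ 0 := by
      have := hb1 _ (subset_closure hmem)
      intro h0; rw [h0] at this; norm_num at this
    have hbd : DifferentiableAt ℂ b (w, σ w, τ w) := by rw [hb]; fun_prop
    have k1 : DifferentiableAt ℂ (fun w => g (w, σ w, τ w)) w := e2.comp w hd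
    have k2 : DifferentiableAt ℂ (fun w => b (w, σ w, τ w)) w :=
      DifferentiableAt.comp (g := b) w hbd hd
    exact (k1.pow N).div k2 hbne
  have hmain : ∀ n : ℕ, ∀ q ∈ K, ‖Hf q ^ n * P q.1‖ ≤ C0 := by
    intro n
    have hbne : ∀ q ∈ K, b q ≠ 0 := by
      intro q hq h0
      have := hb1 q (hKT hq); rw [h0] at this; norm_num at this
    refine maxP hKc (p := Prod.fst) ?_ continuous_fst ?_
    · exact (((((hgc.mono hKT).pow N).div hbc.continuousOn hbne).pow n).mul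
        fun q hq => ((hPd _ (hcl q (hKT hq)).2.2).continuousAt.comp
          continuousAt_fst).continuousWithinAt)
    intro q hq hlt
    obtain ⟨e1, e2, e3⟩ := hcl q (hKT hq)
    have hPq : ‖P q.1‖ ≤ C0 := hC0 _ (by simpa using e3)
    rw [norm_mul, norm_pow] at hlt
    have hH1 : 1 < ‖Hf q‖ := by
      by_contra hh
      push Not at hh
      have := pow_le_one₀ (n := n) (norm_nonneg _) hh
      nlinarith [norm_nonneg (P q.1)]
    have hP0 : P q.1 ≠ 0 := by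
      intro h0; rw [h0] at hlt hPq; simp at hlt hPq; linarith
    have hbq := hb1 q (hKT hq)
    have hH2 : ‖b q‖ < ‖g q‖ ^ N := by
      simp only [hHf, norm_div, norm_pow] at hH1
      rwa [one_lt_div (by linarith)] at hH1
    have hg1 : 1 < ‖g q‖ := by
      by_contra hh
      push Not at hh
      have := pow_le_one₀ (n := N) (norm_nonneg _) hh
      linarith
    have hbR : ‖b q‖ < R' := by
      have : ‖g q‖ ^ N ≤ |Q| ^ N :=
        pow_le_pow_left₀ (norm_nonneg _) ((hQ q (hKT hq)).trans (le_abs_self Q)) N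
      have := norm_nonneg (b p0)
      linarith
    obtain ⟨f1, f2⟩ := hbound q (hKT hq) hbR.le
    have hcrit : ∀ s, M s = F1 q.1 → ‖s - a‖ ≤ R' * δ → s.re ≤ R0 → deriv M s ≠ 0 := by
      intro s hs hs2 hs3 h0
      apply hP0
      refine Finset.prod_eq_zero (i := s) ?_ (by rw [hs, sub_self])
      simp only [hS, Set.Finite.mem_toFinset]
      exact ⟨⟨by rwa [mem_closedBall, dist_eq_norm], hs3⟩, h0⟩
    obtain ⟨⟨b1, b2⟩, ⟨c1, c2⟩, -⟩ := hcl' q (hKT hq)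
    have g1 := H.gd_of_freq (b1.dom hr hR) (hcrit _ e1 f1 b1.2.1) c1
    have g2 := H.gd_of_freq (b2.dom hr hR) (hcrit _ e2 f2 b2.2.1) c2
    obtain ⟨γ, hγ0, -, hγ⟩ := hsec q (hKT hq) g1 g2 hg1 hbR
    refine ⟨γ, hγ0, ?_⟩
    filter_upwards [hγ, hγ.eventually_nhds] with z hz hz'
    refine ⟨hz.1, hz.2.1, ?_⟩
    have : (fun w => Hf (γ w) ^ n * P (γ w).1) =ᶠ[𝓝 z] fun w => Hf (γ w) ^ n * P w := by
      filter_upwards [hz'] with w hw; rw [hw.2.1]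
    exact ((hz.2.2.pow n).mul (hPd z (hz.2.1 ▸ (hcl _ (hKT hz.1)).2.2))).congr_of_eventuallyEq this
  -- the base point
  have hp0b : ‖b p0‖ < R' := by have := pow_nonneg (abs_nonneg Q) N; linarith
  obtain ⟨γ, hγ0, -, hγ⟩ :=
    hsec p0 (subset_closure hp0) (hT p0 hp0).1.1 (hT p0 hp0).1.2 hcon hp0b
  have hH0 : 1 < ‖Hf (γ p0.1)‖ := by
    rw [hγ0]
    simp only [hHf, norm_div, norm_pow]
    have := hb1 p0 (subset_closure hp0)
    rwa [one_lt_div (by linarith)]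
  have hev1 : ∀ᶠ z in 𝓝 p0.1, 1 < ‖Hf (γ z)‖ :=
    continuousAt_const.eventually_lt hγ.self_of_nhds.2.2.continuousAt.norm hH0
  have hev2 : ∀ᶠ z in 𝓝[≠] p0.1, P z ≠ 0 := by
    have : ∀ᶠ z in 𝓝[≠] p0.1, ∀ c ∈ S, F1 z ≠ M c :=
      (eventually_all_finset S).2 fun c _ => H.vF (hT p0 hp0).1.1.1.1 _
    filter_upwards [this] with z hz
    exact Finset.prod_ne_zero_iff.2 fun c hc => sub_ne_zero.2 (hz c hc)
  obtain ⟨z, hz1, hz2, hz3⟩ :=
    (hev2.and (nhdsWithin_le_nhds (hev1.and hγ))).exists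
  have hPpos : 0 < ‖P z‖ := norm_pos_iff.2 hz1
  obtain ⟨n, hn⟩ := pow_unbounded_of_one_lt (C0 / ‖P z‖) hz2
  have := hmain n _ hz3.1
  rw [norm_mul, norm_pow, hz3.2.1] at this
  rw [div_lt_iff₀ hPpos] at hn
  linarith

end Pool.Agent.MP_9cb8e5_pr.H55
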