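import Pool.Agent.MP_9cb8e5_pr.H55.LLim

/-! One large exponential moment of the limit makes the limit decomposition almost proportional. -/

open MeasureTheory Set Filter Topology ProbabilityTheory Pool.Agent.MP_9cb8e5_pr.H67

namespace Pool.Agent.MP_9cb8e5_pr.H55

variable {μ ν ρ₀ ρ₁ : Measure ℝ} {μk ρk₀ ρk₁ : ℕ → Measure ℝ} {ψk : ℕ → ℝ → ℝ} {R : ℝ}

theorem PC_diff (b : Bool) (c t : ℝ) : Differentiable ℂ (PC b c t) := by
  cases b <;> unfold PC <;> simp only [cond_true, cond_false] <;> fun_prop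

theorem uniq_locL (H : LapL μ R) [IsProbabilityMeasure ν] (b : Bool) {c : ℝ} (hc : 0 ≤ c) (t : ℝ)
    (h : ∀ᶠ ξ in 𝓝 0, charFun ν ξ = mgf id μ (-psi b c t ξ)) (ξ : ℝ) :
    charFun ν ξ = mgf id μ (-psi b c t ξ) := by
  obtain ⟨-, -, -, h3⟩ := psi_data b c t
  have h4 : Tendsto (fun h : ℝ => √(-h)) (𝓝[<] 0) (𝓝 0) := by
    have : Continuous fun h : ℝ => √(-h) := by fun_prop
    simpa using (this.tendsto 0).mono_left nhdsWithin_le_nhds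
  obtain ⟨r, C, hr, h5⟩ := boot kerCos (ρ := fun _ : Unit => ν) (m := mgf id μ) (s := fun _ => 0)
    (σ := fun _ h => -psi b c t √(-h)) (fun _ => H.an H.R0) (fun _ => H.deriv_pos H.R0) h3
    (fun j => by simp [H.zero]) ((h4.eventually h).mono fun y hy => ⟨fun _ =>
      ⟨(tf_cos _).int ν, by
        rw [zero_add, ← Complex.ofReal_re (mgf _ _ _), ← hy, re_charFun]; rfl,
        neg_nonpos.2 (psi_nonneg b hc t _)⟩, by simp⟩)
  have hi : Integrable (fun x => Real.cosh (√r * x)) ν := by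
    refine kerCos.integrable hr (h5 ()) fun x => ?_
    refine (Real.hasSum_cosh (√r * x)).congr_fun fun k => ?_
    rw [mul_pow, pow_mul √r, Real.sq_sqrt hr.le]; ring
  have e : ∀ ξ : ℝ, complexMGF id μ (PC b c t (ξ * Complex.I)) = mgf id μ (-psi b c t ξ) :=
    fun ξ => by rw [PC_im, ← Complex.ofReal_neg, complexMGF_ofReal]
  have lin : ∀ ξ, AnalyticAt ℝ (fun ξ : ℝ => (ξ * Complex.I : ℂ)) ξ := fun ξ =>
    (Complex.ofRealCLM.analyticAt ξ).mul analyticAt_const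
  rw [← e, ← complexMGF_id_mul_I]
  refine congrFun (AnalyticOnNhd.eq_of_eventuallyEq (𝕜 := ℝ) (z₀ := 0)
    (f := fun ξ : ℝ => complexMGF id ν (ξ * Complex.I))
    (g := fun ξ : ℝ => complexMGF id μ (PC b c t (ξ * Complex.I)))
    (fun ξ _ => ((analyticAt_complexMGF (int_of_cosh hi (by simpa using hr))).restrictScalars
      (𝕜 := ℝ)).comp (lin ξ))
    (fun ξ _ => (((analyticAt_complexMGF (H.int ?_)).comp
      ((PC_diff b c t).analyticAt _)).restrictScalars (𝕜 := ℝ)).comp (lin ξ))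
    (h.mono fun ξ a => ?_)) ξ
  · rw [PC_im, Complex.neg_re, Complex.ofReal_re]
    linarith [psi_nonneg b hc t ξ, H.R0]
  · simp only [e, complexMGF_id_mul_I, a]

theorem normalL [IsFiniteMeasure μ] (nn : ∀ᵐ w ∂μ, 0 ≤ w) (ne : ¬ ∀ᵐ w ∂μ, w = 0) (hR : 0 < R)
    (ex : Integrable (fun w => Real.exp (R * w)) μ) : 0 < lap μ 0 ∧ ∃ σ : Measure ℝ,
      LapL σ R ∧ ∀ s, 0 ≤ s → mgf id σ (-s) = lap μ s / lap μ 0 := by
  have h0 : μ ≠ 0 := by rintro rfl; simp at ne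
  have : NeZero μ := ⟨h0⟩
  have e : lap μ 0 = μ.real univ := by simp [lap]
  have h1 : (μ univ)⁻¹ ≠ 0 := ENNReal.inv_ne_zero.2 (measure_ne_top _ _)
  refine ⟨e ▸ measureReal_univ_pos, (μ univ)⁻¹ • μ, ⟨inferInstance,
    Measure.ae_smul_measure nn _, by rwa [Measure.ae_ennreal_smul_measure_iff h1], hR,
    ex.smul_measure (ENNReal.inv_ne_top.2 (Measure.measure_univ_ne_zero.2 h0))⟩, fun s hs => ?_⟩
  rw [mgf, integral_smul_measure, e, ENNReal.toReal_inv, smul_eq_mul, div_eq_inv_mul, lap]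
  congr 1
  refine integral_congr_ae (nn.mono fun w hw => ?_)
  simp [abs_of_nonneg hs, abs_of_nonneg hw]

theorem Sq.bigL {b : Bool} {c t : ℝ} (H : Sq μk ρk₀ ρk₁ ψk μ ρ₀ ρ₁ (psi b c t)) (hc : 0 ≤ c)
    {σ : Measure ℝ} (hσ : LapL σ R) (h0 : 0 < lap μ 0)
    (e : ∀ s, 0 ≤ s → mgf id σ (-s) = lap μ s / lap μ 0) (h : lap μ 0 < Cs ρ₀ 0) (ξ : ℝ) :
    Cs ρ₁ ξ = lap μ (psi b c t ξ) := by
  have := fin_of_le H.m₀
  have := fin_of_le H.m₁
  have h1 : ∀ᶠ ξ in 𝓝 0, Cs ρ₁ ξ = lap μ (psi b c t ξ) := by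
    filter_upwards [cont_Cs.continuousAt.eventually (lt_mem_nhds h)] with ξ a
    have := H.point ξ (u := 0) ⟨le_rfl, H.nn ξ⟩
    rw [sub_zero] at this
    exact le_antisymm (by nlinarith) (H.swap.low ξ)
  have h2 : Cs ρ₁ 0 = lap μ 0 := by simpa [psi_zero] using h1.self_of_nhds
  obtain ⟨ρ, hρ, h3⟩ := exists_sym (ν := ρ₁) (h2 ▸ h0)
  have h4 := uniq_locL (ν := ρ) hσ b hc t (h1.mono fun ξ a => by rw [h3, e _ (H.nn ξ), a, h2]) ξ
  rw [h3, e _ (H.nn ξ), h2, Complex.ofReal_inj] at h4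
  exact (div_left_inj' h0.ne').1 h4

theorem Sq.cases {b : Bool} {c t : ℝ} (H : Sq μk ρk₀ ρk₁ ψk μ ρ₀ ρ₁ (psi b c t)) (hc : 0 ≤ c)
    (nn : ∀ᵐ w ∂μ, 0 ≤ w) (ne : ¬ ∀ᵐ w ∂μ, w = 0) (hR : 0 < R)
    (ex : Integrable (fun w => Real.exp (R * w)) μ) : (∃ a ∈ Icc (0 : ℝ) 1,
      ∀ᵐ ξ ∂gm, jj (Lm μ) (psi b c t) (Cs ρ₀) (Cs ρ₁) a ξ = 0) ∨ ∃ η σ τ,
      DecL σ R τ η (PC b c t) (PP b c t) ∧ ∀ ξ, η 0 ξ + η 1 ξ = psi b c t ξ ∧
        Cs ρ₀ ξ = lap μ (η 0 ξ) ∧ Cs ρ₁ ξ = lap μ (η 1 ξ) := by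
  have := fin_of_le H.mμ
  have := fin_of_le H.m₀
  have := fin_of_le H.m₁
  obtain ⟨h0, σ, hσ, e⟩ := normalL nn ne hR ex
  by_cases a0 : lap μ 0 < Cs ρ₀ 0
  · exact .inl ⟨0, by simp, H.pos.mono fun ξ h => by simp [jj, Lm, h.ne', H.bigL hc hσ h0 e a0]⟩
  by_cases a1 : lap μ 0 < Cs ρ₁ 0
  · exact .inl ⟨1, by simp, H.pos.mono fun ξ h => by
      simp [jj, Lm, h.ne', H.swap.bigL hc hσ h0 e a1]⟩
  have b0 : Cs ρ₀ 0 = lap μ 0 := le_antisymm (le_of_not_gt a0) (by simpa [psi_zero] using H.low 0)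
  have b1 : Cs ρ₁ 0 = lap μ 0 :=
    le_antisymm (le_of_not_gt a1) (by simpa [psi_zero] using H.swap.low 0)
  have c0 : ∀ ξ, ∃ s ∈ Icc 0 (psi b c t ξ), lap μ s = Cs ρ₀ ξ := fun ξ =>
    intermediate_value_Icc' (H.nn ξ) cont_lap.continuousOn ⟨H.low ξ, b0 ▸ Cs_le ξ⟩
  have c1 : ∀ ξ, ∃ s ∈ Icc 0 (psi b c t ξ), lap μ s = Cs ρ₁ ξ := fun ξ =>
    intermediate_value_Icc' (H.nn ξ) cont_lap.continuousOn ⟨H.swap.low ξ, b1 ▸ Cs_le ξ⟩
  choose η₀ d0 e0 using c0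
  choose η₁ d1 e1 using c1
  have hs : ∀ ξ, η₀ ξ + η₁ ξ = psi b c t ξ := fun ξ => by
    have f0 := d0 ξ
    have f1 := d1 ξ
    have := H.point ξ (u := (η₀ ξ - η₁ ξ + psi b c t ξ) / 2)
      ⟨by linarith [f0.1, f1.2], by linarith [f0.2, f1.1]⟩
    rw [← e0, ← e1] at this
    by_contra hne
    refine this.not_gt ?_
    rcases lt_or_gt_of_ne hne with h | h
    · exact mul_pos (sub_pos.2 (lap_strict ne f0.1 (by linarith)))
        (sub_pos.2 (lap_strict ne f1.1 (by linarith)))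
    · exact mul_pos_of_neg_of_neg (sub_neg.2 (lap_strict ne (by linarith [f0.1, f1.2]) (by linarith)))
        (sub_neg.2 (lap_strict ne (by linarith [f0.2, f1.1]) (by linarith)))
  obtain ⟨τ₀, p0, g0⟩ := exists_sym (ν := ρ₀) (b0 ▸ h0)
  obtain ⟨τ₁, p1, g1⟩ := exists_sym (ν := ρ₁) (b1 ▸ h0)
  obtain ⟨-, -, -, h3⟩ := psi_data b c t
  exact .inr ⟨![η₀, η₁], σ, ![τ₀, τ₁],
    { toLapL := hσ
      pr := Fin.forall_fin_two.2 ⟨p0, p1⟩
      cf := Fin.forall_fin_two.2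
        ⟨fun ξ => (g0 ξ).trans (by rw [b0, ← e0, ← e _ (d0 ξ).1]; rfl),
          fun ξ => (g1 ξ).trans (by rw [b1, ← e1, ← e _ (d1 ξ).1]; rfl)⟩
      ηnn := Fin.forall_fin_two.2 ⟨fun ξ => (d0 ξ).1, fun ξ => (d1 ξ).1⟩
      sum := fun ξ => by rw [PC_im, ← hs]; rfl
      hΨ := PC_diff b c t
      Ψ0 := by cases b <;> simp [PC]
      even := fun z => by cases b <;> simp [PC]
      hP := PC_real b c t
      td := (congrArg TD (funext fun h => by rw [← hs]; rfl)).mp h3 },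
    fun ξ => ⟨hs ξ, (e0 ξ).symm, (e1 ξ).symm⟩⟩

theorem lip_lim (h : ∀ k, μk k univ ≤ 1) {u v : ℕ → ℝ} {x : ℝ} (hx : 0 < x)
    (hu : Tendsto u atTop (𝓝 x)) (hv : Tendsto v atTop (𝓝 x)) :
    Tendsto (fun k => lap (μk k) (u k) - Lm (μk k) (v k)) atTop (𝓝 0) := by
  refine squeeze_zero_norm' (a := fun k => |u k - v k| / (x / 2)) ?_
    (by simpa using ((hu.sub hv).abs).div_const (x / 2))
  filter_upwards [hu.eventually (lt_mem_nhds (half_lt_self hx)),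
    hv.eventually (lt_mem_nhds (half_lt_self hx))] with k a b
  have := fin_of_le (h k)
  rw [Lm, if_neg (by linarith), Real.norm_eq_abs]
  rcases le_total (u k) (v k) with h1 | h1
  · rw [abs_of_nonneg (sub_nonneg.2 (lap_anti (by linarith) h1)), abs_sub_comm,
      abs_of_nonneg (sub_nonneg.2 h1)]
    exact lap_lip (h k) (half_pos hx) a.le h1
  · rw [abs_sub_comm, abs_of_nonneg (sub_nonneg.2 (lap_anti (by linarith) h1)),
      abs_of_nonneg (sub_nonneg.2 h1)]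
    exact lap_lip (h k) (half_pos hx) b.le h1

/-- a limit of decompositions that is far from proportional -/
def Cfg (b : Bool) (m R : ℝ) (μ ρ₀ ρ₁ : Measure ℝ) (c t : ℝ) : Prop :=
  (∃ μk ρk₀ ρk₁ ψk, Sq μk ρk₀ ρk₁ ψk μ ρ₀ ρ₁ (psi b c t)) ∧ (c ∈ Icc m⁻¹ m ∧ t ∈ Icc m⁻¹ m) ∧
  (∀ᵐ w ∂μ, 0 ≤ w) ∧ (¬ ∀ᵐ w ∂μ, w = 0) ∧ Integrable (fun w => Real.exp (R * w)) μ ∧
  ∀ a ∈ Icc (0 : ℝ) 1, ∫ ξ, jj (Lm μ) (psi b c t) (Cs ρ₀) (Cs ρ₁) a ξ ∂gm ≤ -m⁻¹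

theorem loc_rig (b : Bool) {m : ℝ} (hm : 0 < m) :
    ∃ R, 0 < R ∧ ∀ μ ρ₀ ρ₁ c t, ¬ Cfg b m R μ ρ₀ ρ₁ c t := by
  by_contra hcon
  push Not at hcon
  obtain ⟨Λ, hΛ, hN⟩ := exists_nice
  choose A hA using fun k : ℕ => PC_bd b m (8 * ((k : ℝ) + 1))
  have A0 : ∀ k, 0 < A k := fun k => (norm_nonneg _).trans_lt
    (hA k 0 ⟨le_rfl, hm.le⟩ 0 ⟨le_rfl, hm.le⟩ 0 (by simp; positivity))
  have R0 : ∀ k, 0 < Λ * A k := fun k => mul_pos (by linarith) (A0 k)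
  choose μ ρ₀ ρ₁ c t h using fun k : ℕ => hcon _ (R0 k)
  have hm' := inv_pos.2 hm
  have ct : ∀ k, c k ∈ Icc 0 m ∧ t k ∈ Icc 0 m := fun k =>
    ⟨Icc_subset_Icc_left hm'.le (h k).2.1.1, Icc_subset_Icc_left hm'.le (h k).2.1.2⟩
  choose μk ρk₀ ρk₁ ψk H using fun k => (h k).1
  choose η σ τ D hη using fun k => ((H k).cases (ct k).1.1 (h k).2.2.1 (h k).2.2.2.1 (R0 k)
    (h k).2.2.2.2.1).resolve_left fun ⟨a, ha, h0⟩ => by
      linarith [(h k).2.2.2.2.2 a ha, integral_eq_zero_of_ae h0]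
  choose S hS using fun k : ℕ => hN _ _ _ _ _ _ (8 * ((k : ℝ) + 1)) _ (D k) (by positivity)
    (fun z hz => hA k _ (ct k).1 _ (ct k).2 z hz.le) le_rfl
  obtain ⟨⟨c', t'⟩, ⟨hc, ht⟩, hct⟩ := (isCompact_Icc.prod isCompact_Icc).ultrafilter_le_nhds
    ((hyperfilter ℕ).map fun k => (c k, t k)) (le_principal_iff.2
      (mem_map.2 (univ_mem' fun k => (h k).2.1)))
  have hc' := hm'.trans_le hc.1
  have ht' := hm'.trans_le ht.1
  obtain ⟨a, ha, hl⟩ := lim_prop b Nat.hyperfilter_le_atTop hc' ht' ct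
    ((continuous_fst.tendsto _).comp hct) ((continuous_snd.tendsto _).comp hct)
    (fun k ξ => ⟨(D k).ηnn 0 ξ, by linarith [(hη k ξ).1, (D k).ηnn 1 ξ]⟩) (fun k => (D k).ηeven)
    (fun k T hT => (D k).ηper ((hη k T).1.trans hT))
    (tendsto_atTop_mono (fun k => by linarith) tendsto_natCast_atTop_atTop) hS
  choose κ k1 k2 using fun n : ℕ => ((hl n (1 / ((n : ℝ) + 1)) (by positivity)).and
    (Tendsto.eventually (f := fun k => (c k, t k)) hct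
      (Metric.ball_mem_nhds _ (show 0 < 1 / ((n : ℝ) + 1) by positivity)))).exists
  have l1 : Tendsto (fun n => (c (κ n), t (κ n))) atTop (𝓝 (c', t')) :=
    tendsto_iff_dist_tendsto_zero.2 (squeeze_zero (fun _ => dist_nonneg) (fun n => le_of_lt (k2 n))
      tendsto_one_div_add_atTop_nhds_zero_nat)
  have l2 : ∀ ξ, Tendsto (fun n => psi b (c (κ n)) (t (κ n)) ξ) atTop (𝓝 (psi b c' t' ξ)) :=
    fun ξ => ((cont_psi b).tendsto ((c', t'), ξ)).comp (l1.prodMk_nhds tendsto_const_nhds)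
  have l3 : ∀ ξ, Tendsto (fun n => η (κ n) 0 ξ) atTop (𝓝 (a * psi b c' t' ξ)) := fun ξ =>
    tendsto_iff_dist_tendsto_zero.2 (squeeze_zero' (Eventually.of_forall fun _ => dist_nonneg)
      ((tendsto_natCast_atTop_atTop.eventually_ge_atTop |ξ|).mono fun n hn => (k1 n ξ hn).le)
      tendsto_one_div_add_atTop_nhds_zero_nat)
  have bd : ∀ k, (∀ ξ s, ‖Cs (ρ₀ k) ξ - Lm (μ k) s‖ ≤ 1 + 1) ∧
      ∀ ξ s, ‖Cs (ρ₁ k) ξ - Lm (μ k) s‖ ≤ 1 + 1 := fun k =>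
    ⟨fun ξ s => (abs_sub _ _).trans (add_le_add ((tf_Cs (H k).m₀).2 ξ) ((tf_Lm (H k).mμ).2 s)),
      fun ξ s => (abs_sub _ _).trans (add_le_add ((tf_Cs (H k).m₁).2 ξ) ((tf_Lm (H k).mμ).2 s))⟩
  have l4 := tendsto_integral_of_dominated_convergence (μ := gm) (f := fun _ => (0 : ℝ))
    (F := fun n ξ => jj (Lm (μ (κ n))) (psi b (c (κ n)) (t (κ n))) (Cs (ρ₀ (κ n))) (Cs (ρ₁ (κ n)))
      a ξ) (fun _ => (1 + 1) * (1 + 1)) (fun n => by
      have := (H (κ n)).cψ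
      exact (expand (tf_Cs (H _).m₀) (tf_Cs (H _).m₁) ((tf_Lm (H _).mμ).comp (by fun_prop))
        ((tf_Lm (H _).mμ).comp (by fun_prop))).1.1) (integrable_const _)
    (fun n => Eventually.of_forall fun ξ => by
      rw [jj, norm_mul]
      exact mul_le_mul ((bd _).1 _ _) ((bd _).2 _ _) (norm_nonneg _) (by norm_num))
    ((psi_pos b hc' ht').mono fun ξ hξ => by
      rcases ha.1.eq_or_lt with rfl | ha0
      · have := lip_lim (fun n => (H (κ n)).mμ) (mul_pos (sub_pos.2 one_pos) hξ)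
          (u := fun n => η (κ n) 1 ξ) (by
            simpa [← (hη _ ξ).1] using (l2 ξ).sub (l3 ξ)) ((l2 ξ).const_mul (1 - 0))
        refine squeeze_zero_norm (fun n => ?_) (mul_zero (1 + 1 : ℝ) ▸
          (tendsto_zero_iff_norm_tendsto_zero.1 this).const_mul (1 + 1))
        rw [jj, norm_mul, (hη _ ξ).2.2]
        exact mul_le_mul_of_nonneg_right ((bd _).1 _ _) (norm_nonneg _)
      · have := lip_lim (fun n => (H (κ n)).mμ) (mul_pos ha0 hξ) (l3 ξ) ((l2 ξ).const_mul a)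
        refine squeeze_zero_norm (fun n => ?_) (zero_mul (1 + 1 : ℝ) ▸
          (tendsto_zero_iff_norm_tendsto_zero.1 this).mul_const (1 + 1))
        rw [jj, norm_mul, (hη _ ξ).2.1]
        exact mul_le_mul_of_nonneg_left ((bd _).2 _ _) (norm_nonneg _))
  have := le_of_tendsto' l4 fun n => (h (κ n)).2.2.2.2.2 a ha
  rw [integral_zero] at this
  linarith

end Pool.Agent.MP_9cb8e5_pr.H55
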