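import Pool.Agent.MP_9cb8e5_pr.H55.LUniq

/-! Removal of branch points and continuation to a larger disc. -/

open Complex Filter Topology Set Metric Pool.Agent.MP_9cb8e5_pr.H67

namespace Pool.Agent.MP_9cb8e5_pr.H55

variable {M F1 F2 Ψ : ℂ → ℂ} {r R A r0 B : ℝ}

/-- uniqueness modulo periods of good points of norm at most `B` -/
def Uq (M F1 F2 Ψ : ℂ → ℂ) (r R r0 B : ℝ) : Prop := ∀ z s s' : ℂ, ‖z‖ ≤ r0 → ‖s‖ ≤ B → ‖s'‖ ≤ B →
  Gd M F1 F2 Ψ r R z s → Gd M F1 F2 Ψ r R z s' → Per M (s - s')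

theorem HypL.per_small (H : HypL M F1 F2 Ψ r R A) (hR : 0 < R) :
    ∀ᶠ t in 𝓝 (0 : ℂ), Per M t → t = 0 := by
  obtain ⟨l, -, h0, hl, -⟩ := loc_inv' (H.hM 0 (by simpa using hR)) H.d0
  filter_upwards [hl] with t ht hp
  have := hp 0
  rw [zero_add] at this
  rw [this, h0] at ht; exact ht.symm

theorem HypL.add_per (H : HypL M F1 F2 Ψ r R A) {z s t : ℂ} (h : Gd M F1 F2 Ψ r R z s)
    (ht : Per M t) : Gd M F1 F2 Ψ r R z (s + t) :=
  ⟨⟨h.1.1, by simpa [H.perim t ht] using h.1.2.1, by simpa [H.perim t ht] using h.1.2.2⟩,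
    h.2.add_per ht⟩

theorem HypL.uniq_sol (H : HypL M F1 F2 Ψ r R A) (U : Uq M F1 F2 Ψ r R r0 B) {z : ℂ} {σ τ : ℂ → ℂ}
    (h : Sol M F1 F2 Ψ z σ) (h' : Sol M F1 F2 Ψ z τ) (d : Dom Ψ r R z (σ z)) (d' : Dom Ψ r R z (τ z))
    (hz : ‖z‖ < r0) (b : ‖σ z‖ < B) (b' : ‖τ z‖ < B) : Per M (σ z - τ z) := by
  refine H.pcl.mem_of_tendsto (b := 𝓝[≠] z) (f := fun w => σ w - τ w)
    ((h.1.continuousAt.sub h'.1.continuousAt).mono_left nhdsWithin_le_nhds) ?_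
  filter_upwards [H.gd h d, H.gd h' d', nhdsWithin_le_nhds
    ((continuous_norm.continuousAt.eventually (gt_mem_nhds hz)).and
    ((h.1.continuousAt.norm.eventually (gt_mem_nhds b)).and
    (h'.1.continuousAt.norm.eventually (gt_mem_nhds b'))))] with w a1 a2 ⟨a3, a4, a5⟩
  exact U _ _ _ a3.le a4.le a5.le a1 a2

theorem HypL.sol_of_freq (H : HypL M F1 F2 Ψ r R A) (hR : 0 < R) (U : Uq M F1 F2 Ψ r R r0 B)
    {z0 s0 : ℂ} (hD : Dom Ψ r R z0 s0) (hz0 : ‖z0‖ < r0) (hs0 : ‖s0‖ < B)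
    (h : ∃ᶠ p : ℂ × ℂ in 𝓝 (z0, s0), Gd M F1 F2 Ψ r R p.1 p.2) :
    ∃ σ, Sol M F1 F2 Ψ z0 σ ∧ σ z0 = s0 := by
  classical
  by_cases hd : deriv M s0 ≠ 0
  · obtain ⟨σ, a, b, -⟩ := (H.gd_of_freq hD hd h).sol H.toLoc
    exact ⟨σ, a, b⟩
  push Not at hd
  have he := (H.eq_of_freq hD h).1
  obtain ⟨r3, hr3, hdom⟩ := nhds_basis_closedBall.eventually_iff.1 ((H.ev hD).and
    (((continuous_fst.norm.tendsto (z0, s0)).eventually (gt_mem_nhds hz0)).and
    ((continuous_snd.norm.tendsto (z0, s0)).eventually (gt_mem_nhds hs0))))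
  obtain ⟨r1, hr1, hper⟩ := nhds_basis_closedBall.eventually_iff.1 (H.per_small hR)
  have e1 := (H.dM hD.2.1).and (H.vM hD.2.1 (F1 z0))
  rw [eventually_nhdsWithin_iff] at e1
  obtain ⟨r2, hr2, hs⟩ := nhds_basis_closedBall.eventually_iff.1 e1
  set ρ := min (r1 / 2) (min r2 r3) with hr
  have hr0 : 0 < ρ := by positivity
  have hs' : ∀ x ∈ closedBall s0 ρ, x ≠ s0 → deriv M x ≠ 0 ∧ M x ≠ F1 z0 := fun x hx h =>
    hs (closedBall_subset_closedBall ((min_le_right _ _).trans (min_le_left _ _)) hx) h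
  have hdom' : ∀ w ∈ closedBall z0 r3, ∀ x ∈ closedBall s0 ρ,
      Dom Ψ r R w x ∧ ‖w‖ < r0 ∧ ‖x‖ < B := fun w hw x hx => hdom (x := (w, x)) (by
    rw [← closedBall_prod_same]
    exact ⟨hw, closedBall_subset_closedBall ((min_le_right _ _).trans (min_le_right _ _)) hx⟩)
  have e2 : ∀ᶠ w in 𝓝 z0, ∀ x ∈ sphere s0 ρ, M x ≠ F1 w := by
    refine (isCompact_sphere s0 ρ).eventually_forall_of_forall_eventually
      (P := fun w x => M x ≠ F1 w) fun x hx => ?_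
    have hx0 : x ≠ s0 := ne_of_mem_sphere hx hr0.ne'
    have c : ContinuousAt (fun p : ℂ × ℂ => M p.2 - F1 p.1) (z0, x) :=
      ((H.hM x (hdom' z0 (mem_closedBall_self hr3.le) x
        (sphere_subset_closedBall hx)).1.2.1).continuousAt.comp_of_eq continuousAt_snd rfl).sub
        ((H.h1 z0 hD.1).continuousAt.comp_of_eq continuousAt_fst rfl)
    exact (c.eventually_ne (sub_ne_zero.2 (hs' x (sphere_subset_closedBall hx) hx0).2)).mono
      fun p hp => sub_ne_zero.1 hp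
  have e3 := H.vF hD.1 (F1 z0)
  rw [eventually_nhdsWithin_iff] at e3
  obtain ⟨ε, hε, hz⟩ := nhds_basis_ball.eventually_iff.1
    (e2.and (e3.and (closedBall_mem_nhds z0 hr3)))
  set W : Set ℂ := {w | ∃ x ∈ ball s0 ρ, Gd M F1 F2 Ψ r R w x} with hW
  have hsec : ∀ w x, x ∈ ball s0 ρ → Gd M F1 F2 Ψ r R w x → ∃ τ : ℂ → ℂ, AnalyticAt ℂ τ w ∧
      ∀ᶠ v in 𝓝 w, τ v ∈ ball s0 ρ ∧ Gd M F1 F2 Ψ r R v (τ v) := by
    intro w x hx hg
    obtain ⟨τ, a, b, c⟩ := hg.sol H.toLoc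
    refine ⟨τ, a.1, Eventually.and ?_ c⟩
    exact a.1.continuousAt.eventually (isOpen_ball.mem_nhds (by rwa [b]))
  have hWo : IsOpen W := by
    rw [isOpen_iff_eventually]
    rintro w ⟨x, hx, hg⟩
    obtain ⟨τ, -, hτ⟩ := hsec w x hx hg
    exact hτ.mono fun v hv => ⟨τ v, hv⟩
  have hsub : ball z0 ε \ {z0} ⊆ W := by
    refine (preconn_punct z0 ε).subset_of_closure_inter_subset hWo ?_ ?_
    · have : ∀ᶠ p : ℂ × ℂ in 𝓝 (z0, s0), p.1 ∈ ball z0 ε ∧ p.2 ∈ ball s0 ρ :=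
        prod_mem_nhds (ball_mem_nhds z0 hε) (ball_mem_nhds s0 hr0)
      obtain ⟨p, a, b, c⟩ := (h.and_eventually this).exists
      refine ⟨p.1, ⟨b, fun h0 => ?_⟩, p.2, c, a⟩
      by_cases h1 : p.2 = s0
      · exact a.2.1 (by rw [h1]; exact hd)
      · exact (hs' _ (ball_subset_closedBall c) h1).2 (by rw [a.2.2.1, h0])
    · rintro w ⟨hw, hw1, hw2⟩
      obtain ⟨x, hx, hfr⟩ := tube (P := Gd M F1 F2 Ψ r R) (isCompact_closedBall s0 ρ)
        ((mem_closure_iff_frequently.1 hw).mono fun v ⟨x, a, b⟩ => ⟨x, ball_subset_closedBall a, b⟩)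
      have hdx := (hdom' w (hz hw1).2.2 x hx).1
      have hxe := (H.eq_of_freq hdx hfr).1
      have hx0 : x ≠ s0 := fun h0 => (hz hw1).2.1 hw2 (by rw [← hxe, h0, he])
      refine ⟨x, ?_, H.gd_of_freq hdx (hs' x hx hx0).1 hfr⟩
      exact lt_of_le_of_ne (mem_closedBall.1 hx) fun h0 => (hz hw1).1 x h0 hxe
  choose! σ hσ1 hσ2 using fun w (hw : w ∈ ball z0 ε \ {z0}) => hsub hw
  have hU : IsOpen (ball z0 ε \ {z0}) := isOpen_ball.sdiff isClosed_singleton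
  have hσd : DifferentiableOn ℂ σ (ball z0 ε \ {z0}) := by
    intro w hw
    obtain ⟨τ, a, b⟩ := hsec w _ (hσ1 w hw) (hσ2 w hw)
    refine (a.differentiableAt.congr_of_eventuallyEq ?_).differentiableWithinAt
    filter_upwards [b, hU.mem_nhds hw] with v c d
    have j1 := hdom' v (hz d.1).2.2 _ (ball_subset_closedBall (hσ1 v d))
    have j2 := hdom' v (hz d.1).2.2 _ (ball_subset_closedBall c.1)
    refine sub_eq_zero.1 (hper ?_ (U _ _ _ j1.2.1.le j1.2.2.le j2.2.2.le (hσ2 v d) c.2))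
    have k1 := mem_ball.1 (hσ1 v d)
    have k2 := mem_ball.1 c.1
    have k3 := dist_triangle_right (σ v) (τ v) s0
    have k4 : ρ ≤ r1 / 2 := min_le_left _ _
    rw [mem_closedBall, dist_zero_right, ← dist_eq_norm]
    linarith
  have hbd : BddAbove (norm ∘ σ '' (ball z0 ε \ {z0})) := by
    refine ⟨‖s0‖ + ρ, ?_⟩
    rintro _ ⟨w, hw, rfl⟩
    exact norm_le_of_mem_closedBall (ball_subset_closedBall (hσ1 w hw))
  have hupd := differentiableOn_update_limUnder_of_bddAbove (ball_mem_nhds z0 hε) hσd hbd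
  set σ' := Function.update σ z0 (limUnder (𝓝[≠] z0) σ) with hσ'
  have hσ'a : AnalyticAt ℂ σ' z0 := hupd.analyticAt (ball_mem_nhds z0 hε)
  have hev : ∀ᶠ w in 𝓝[≠] z0, Gd M F1 F2 Ψ r R w (σ' w) ∧ σ' w ∈ closedBall s0 ρ := by
    filter_upwards [nhdsWithin_le_nhds (ball_mem_nhds z0 hε), self_mem_nhdsWithin] with w a b
    rw [hσ', Function.update_of_ne b]
    exact ⟨hσ2 w ⟨a, b⟩, ball_subset_closedBall (hσ1 w ⟨a, b⟩)⟩
  have hm : σ' z0 ∈ closedBall s0 ρ := isClosed_closedBall.mem_of_tendsto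
    (hσ'a.continuousAt.mono_left nhdsWithin_le_nhds) (hev.mono fun w hw => hw.2)
  have hd0 := (hdom' z0 (mem_closedBall_self hr3.le) _ hm).1
  have hE := H.eq_of_freq hd0 (((tendsto_sect hσ'a.continuousAt).mono_left
    nhdsWithin_le_nhds).frequently (hev.mono fun w hw => hw.1).frequently)
  refine ⟨σ', ⟨hσ'a, ?_⟩, by_contra fun hne => (hs' _ hm hne).2 hE.1⟩
  rw [eventually_nhdsWithin_iff] at hev
  filter_upwards [hev] with w hw
  by_cases e : w = z0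
  · rw [e]; exact hE
  · exact ⟨(hw e).1.2.2.1, (hw e).1.2.eq2⟩

/-- analytic solutions on a disc -/
def SolOn (M F1 F2 Ψ : ℂ → ℂ) (r R x : ℝ) (S : ℂ → ℂ) : Prop :=
  S 0 = 0 ∧ ∀ z, ‖z‖ < x → Sol M F1 F2 Ψ z S ∧ Dom Ψ r R z (S z)

theorem HypL.extend (H : HypL M F1 F2 Ψ r R A) (hR : 0 < R) (U : Uq M F1 F2 Ψ r R r0 B) {ρ : ℝ}
    (hρ : 0 < ρ) (h2 : 2 * ρ ≤ r0) {S : ℂ → ℂ} (hS0 : S 0 = 0) {n : ℂ × ℂ → ℝ} (hn : Continuous n)
    (init : ∀ z, ‖z‖ ≤ ρ → Sol M F1 F2 Ψ z S ∧ n (z, S z) < 1640)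
    (dom : ∀ z s, ‖z‖ < 2 * ρ → n (z, s) ≤ 1681 → Dom Ψ r R z s)
    (gap : ∀ z s, ρ ≤ ‖z‖ → ‖z‖ < 2 * ρ → Gd M F1 F2 Ψ r R z s → n (z, s) ≤ 1681 → n (z, s) < 1600)
    {C : ℝ} (hC : C < B) (tr : ∀ z s, ‖z‖ < 2 * ρ → n (z, s) ≤ 1681 →
      ∃ p, Per M p ∧ ‖s + p‖ ≤ C ∧ ∀ w x, n (w, x + p) = n (w, x)) :
    ∃ S', SolOn M F1 F2 Ψ r R (2 * ρ) S' := by
  have hall : ball (0 : ℂ) (2 * ρ) ⊆ {z | ∃ σ, Sol M F1 F2 Ψ z σ ∧ n (z, σ z) < 1640} := by
    refine (convex_ball _ _).isPreconnected.subset_of_closure_inter_subset ?_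
      ⟨0, by simpa using hρ, S, init 0 (by simpa using hρ.le)⟩ ?_
    · rw [isOpen_iff_eventually]
      rintro z ⟨σ, a, b⟩
      filter_upwards [a.ev, ((hn.tendsto _).comp (tendsto_sect a.1.continuousAt)).eventually
        (gt_mem_nhds b)] with w c d using ⟨σ, c, d⟩
    rintro z0 ⟨hz0, hz1⟩
    rw [mem_ball_zero_iff] at hz1
    rcases le_or_gt ‖z0‖ ρ with hz2 | hz2
    · exact ⟨S, init z0 hz2⟩
    have h3 : ∀ᶠ w in 𝓝 z0, ρ < ‖w‖ ∧ ‖w‖ < 2 * ρ :=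
      (continuous_norm.continuousAt.eventually (lt_mem_nhds hz2)).and
        (continuous_norm.continuousAt.eventually (gt_mem_nhds hz1))
    have h1 : ∃ᶠ w in 𝓝 z0, ∃ x ∈ closedBall (0 : ℂ) C, Gd M F1 F2 Ψ r R w x ∧ n (w, x) < 1600 := by
      intro h4
      obtain ⟨w, ⟨σ, a, b⟩, h5⟩ := ((mem_closure_iff_frequently.1 hz0).and_eventually
        (h3.and h4).eventually_nhds).exists
      obtain ⟨v, c, ⟨d, e⟩, f⟩ := ((H.gd a (dom _ _ h5.self_of_nhds.1.2 (by linarith))).and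
        (nhdsWithin_le_nhds (h5.and (((hn.tendsto _).comp
          (tendsto_sect a.1.continuousAt)).eventually (gt_mem_nhds b))))).exists
      have f' : n (v, σ v) ≤ 1681 := le_trans (le_of_lt f) (by norm_num)
      obtain ⟨p, p1, p2, p3⟩ := tr v _ d.2 f'
      exact e ⟨_, mem_closedBall_zero_iff.2 p2, H.add_per c p1, (p3 _ _).trans_lt (gap v _ d.1.le d.2 c f')⟩
    obtain ⟨x, hx, hfr⟩ := tube (P := fun w x => Gd M F1 F2 Ψ r R w x ∧ n (w, x) < 1600)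
      (isCompact_closedBall 0 C) h1
    have h6 : n (z0, x) ≤ 1600 := isClosed_Iic.mem_of_frequently_of_tendsto
      (hfr.mono fun p hp => hp.2.le) (hn.tendsto _)
    obtain ⟨σ, a, b⟩ := H.sol_of_freq hR U (dom z0 x hz1 (by linarith)) (by linarith)
      ((mem_closedBall_zero_iff.1 hx).trans_lt hC) (hfr.mono fun p hp => hp.1)
    exact ⟨σ, a, by rw [b]; linarith⟩
  have huq : ∀ z σ τ, ‖z‖ < 2 * ρ → Sol M F1 F2 Ψ z σ → n (z, σ z) < 1640 → Sol M F1 F2 Ψ z τ →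
      n (z, τ z) < 1640 → Per M (σ z - τ z) := fun z σ τ hz a b c d => by
    have sh : ∀ σ p, Sol M F1 F2 Ψ z σ → Per M p → Sol M F1 F2 Ψ z fun w => σ w + p :=
      fun σ p a hp => ⟨a.1.add analyticAt_const, a.2.mono fun w hw => ⟨by rw [hp, hw.1], by
        rw [← hw.2, ← hp.neg (Ψ w - σ w)]; congr 1; ring⟩⟩
    obtain ⟨p, p1, p2, p3⟩ := tr z (σ z) hz (by linarith)
    obtain ⟨q, q1, q2, q3⟩ := tr z (τ z) hz (by linarith)
    have := (H.uniq_sol U (sh σ p a p1) (sh τ q c q1) (dom _ _ hz (by rw [p3]; linarith))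
      (dom _ _ hz (by rw [q3]; linarith)) (by linarith) (p2.trans_lt hC) (q2.trans_lt hC)).add
      (p1.neg.add q1)
    rwa [show σ z + p - (τ z + q) + (-p + q) = σ z - τ z by ring] at this
  choose! σ hσ hσn using fun z (hz : z ∈ ball (0 : ℂ) (2 * ρ)) => hall hz
  have hev : ∀ z ∈ ball (0 : ℂ) (2 * ρ), ∀ τ, Sol M F1 F2 Ψ z τ → n (z, τ z) < 1640 →
      ∀ᶠ w in 𝓝 z, w ∈ ball (0 : ℂ) (2 * ρ) ∧ Sol M F1 F2 Ψ w τ ∧ n (w, τ w) < 1640 :=
    fun z hz τ a b => (isOpen_ball.eventually_mem hz).and (a.ev.and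
      (((hn.tendsto _).comp (tendsto_sect a.1.continuousAt)).eventually (gt_mem_nhds b)))
  have hder : ∀ z ∈ ball (0 : ℂ) (2 * ρ), ∀ τ, Sol M F1 F2 Ψ z τ → n (z, τ z) < 1640 →
      deriv (σ z) z = deriv τ z := fun z hz τ a b => by
    have c : ContinuousAt (fun w => σ z w - τ w - (σ z z - τ z)) z :=
      ((hσ z hz).1.continuousAt.sub a.1.continuousAt).sub continuousAt_const
    have c' : Tendsto (fun w => σ z w - τ w + -(σ z z - τ z)) (𝓝 z) (𝓝 0) := by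
      simpa [← sub_eq_add_neg, -neg_sub] using c.tendsto
    have e : σ z =ᶠ[𝓝 z] fun w => τ w + (σ z z - τ z) := by
      filter_upwards [hev z hz _ (hσ z hz) (hσn z hz), hev z hz τ a b,
        c'.eventually (H.per_small hR)] with w i j k
      have := k ((huq w _ _ (mem_ball_zero_iff.1 i.1) i.2.1 i.2.2 j.2.1 j.2.2).add
        (huq z _ _ (mem_ball_zero_iff.1 hz) (hσ z hz) (hσn z hz) a b).neg)
      linear_combination this
    rw [e.deriv_eq, deriv_add_const]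
  have hDd : DifferentiableOn ℂ (fun z => deriv (σ z) z) (ball 0 (2 * ρ)) := fun z hz =>
    ((hσ z hz).1.deriv.differentiableAt.congr_of_eventuallyEq
      ((hev z hz _ (hσ z hz) (hσn z hz)).mono fun w i =>
        hder w i.1 _ i.2.1 i.2.2)).differentiableWithinAt
  obtain ⟨S', hS'0, hS'⟩ := hDd.isExactOn_ball.with_val_at 0 0
  have hloc : ∀ z ∈ ball (0 : ℂ) (2 * ρ), S' =ᶠ[𝓝 z] fun w => σ z w + (S' z - σ z z) := by
    intro z hz
    obtain ⟨ε, hε, h⟩ := nhds_basis_ball.eventually_iff.1 (hev z hz _ (hσ z hz) (hσn z hz))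
    refine (isOpen_ball.eqOn_of_deriv_eq (convex_ball z ε).isPreconnected
      (fun w hw => (hS' w (h hw).1).differentiableAt.differentiableWithinAt)
      (fun w hw => ((h hw).2.1.1.differentiableAt.add_const _).differentiableWithinAt)
      (fun w hw => ?_) (mem_ball_self hε) (by simp)).eventuallyEq_of_mem (ball_mem_nhds z hε)
    rw [(hS' w (h hw).1).deriv, deriv_add_const]
    exact hder w (h hw).1 _ (h hw).2.1 (h hw).2.2
  have hiff : ∀ z ∈ ball (0 : ℂ) (2 * ρ), ∀ᶠ w in 𝓝 z, (Per M (S' w - σ w w) ↔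
      Per M (S' z - σ z z)) := fun z hz => by
    filter_upwards [hloc z hz, hev z hz _ (hσ z hz) (hσn z hz)] with w a b
    have c := huq w _ _ (mem_ball_zero_iff.1 b.1) b.2.1 b.2.2 (hσ w b.1) (hσn w b.1)
    constructor <;> intro d
    · have := d.add c.neg
      rwa [show S' w - σ w w + -(σ z w - σ w w) = S' z - σ z z by rw [a]; ring] at this
    · have := d.add c
      rwa [show S' z - σ z z + (σ z w - σ w w) = S' w - σ w w by rw [a]; ring] at this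
  have h0 : (0 : ℂ) ∈ ball (0 : ℂ) (2 * ρ) := by simpa using hρ
  have hper : ball (0 : ℂ) (2 * ρ) ⊆ ball 0 (2 * ρ) ∩ {z | Per M (S' z - σ z z)} := by
    refine (convex_ball _ _).isPreconnected.subset_of_closure_inter_subset ?_ ⟨0, h0, h0, ?_⟩ ?_
    · rw [isOpen_iff_eventually]
      rintro z ⟨a, b⟩
      filter_upwards [isOpen_ball.mem_nhds a, hiff z a] with w c d using ⟨c, d.2 b⟩
    · have := huq 0 S (σ 0) (by simpa using hρ) (init 0 (by simpa using hρ.le)).1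
        (init 0 (by simpa using hρ.le)).2 (hσ 0 h0) (hσn 0 h0)
      rwa [hS0.trans hS'0.symm] at this
    · rintro z ⟨a, b⟩
      obtain ⟨w, c, d⟩ := ((mem_closure_iff_frequently.1 a).and_eventually (hiff z b)).exists
      exact ⟨b, d.1 c.2⟩
  refine ⟨S', hS'0, fun z hz => ?_⟩
  have hz' := mem_ball_zero_iff.2 hz
  have hp : Per M (S' z - σ z z) := (hper hz').2
  have d := dom z _ hz ((hσn z hz').le.trans (by norm_num))
  have e := H.perim _ hp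
  rw [sub_re] at e
  refine ⟨⟨((hσ z hz').1.add analyticAt_const).congr (hloc z hz').symm, ?_⟩, d.1,
    by linarith [d.2.1], by have := d.2.2; rw [sub_re] at this ⊢; linarith⟩
  filter_upwards [hloc z hz', (hσ z hz').2] with w a b
  exact ⟨by rw [a, hp, b.1], by rw [a, ← b.2, ← hp.neg (Ψ w - σ z w)]; congr 1; ring⟩

end Pool.Agent.MP_9cb8e5_pr.H55
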