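import Pool.Agent.MP_9cb8e5_pr.H55.LSol

/-! The local solution extends to a disc of a size independent of the transform. -/

open Complex Filter Topology Set Metric Pool.Agent.MP_9cb8e5_pr.H67

namespace Pool.Agent.MP_9cb8e5_pr.H55

variable {M F1 F2 Ψ : ℂ → ℂ} {r R A r0 : ℝ}

theorem omit_bound' {S : ℂ → ℂ} {A R : ℝ} (hS : ∀ z, ‖z‖ < R → DifferentiableAt ℂ S z)
    (h0 : S 0 = 0) (hA : 0 < A) (hR : 0 < R) (h : ∀ z, ‖z‖ < R → 1 - S z / A ∈ slitPlane) {z : ℂ}
    (hz : ‖z‖ ≤ 2 / 3 * R) : ‖S z‖ ≤ 50 * A := by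
  have hd : DifferentiableOn ℂ (fun z => -(1 - S z / A).sqrt) (ball 0 R) := fun z hz =>
    ((differentiableAt_sqrt (h z (by simpa using hz))).comp z (f := fun z => 1 - S z / A)
      (((hS z (by simpa using hz)).div_const _).const_sub 1)).neg.differentiableWithinAt
  have h1 := borelCaratheodory (M := 1 / 2) (by norm_num) hd (fun z _ => by
    simp only [mem_ofPred_eq, neg_re, re_sqrt]
    linarith [Real.sqrt_nonneg ((‖1 - S z / A‖ + (1 - S z / A).re) / 2)]) hR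
    (z := z) (by simp only [mem_ball, dist_zero_right]; linarith)
  have h2 : ‖(1 : ℂ).sqrt‖ = 1 := by
    have := norm_sqrt_sq 1
    rw [norm_one] at this
    nlinarith [norm_nonneg (1 : ℂ).sqrt]
  simp only [h0, zero_div, sub_zero, norm_neg, h2] at h1
  have h3 : 0 < R - ‖z‖ := by linarith
  have h4 : ‖(1 - S z / A).sqrt‖ ≤ 7 := by
    refine h1.trans ?_
    rw [← add_div, div_le_iff₀ h3]; linarith
  have h5 : ‖1 - S z / A‖ ≤ 49 := by
    rw [← norm_sqrt_sq]; nlinarith [norm_nonneg (1 - S z / A).sqrt]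
  have h6 : ‖S z / A‖ ≤ 50 := by
    have := norm_sub_le 1 (1 - S z / A)
    rw [sub_sub_cancel, norm_one] at this; linarith
  rwa [norm_div, norm_real, Real.norm_of_nonneg hA.le, div_le_iff₀ hA] at h6

theorem nrm_le {A : ℝ} (hA : 0 < A) {c : ℂ} {y : ℝ} (h : ‖1 - c / A‖ ≤ y) : ‖c‖ ≤ (y + 1) * A := by
  have := norm_sub_le 1 (1 - c / A)
  rw [sub_sub_cancel, norm_one, norm_div, norm_real, Real.norm_of_nonneg hA.le] at this
  rw [← div_le_iff₀ hA]; linarith

theorem le_nrm {A : ℝ} (hA : 0 < A) {c : ℂ} (h : ‖c‖ ≤ A / 2) : ‖1 - c / A‖ < 1640 := by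
  have := norm_sub_le 1 (c / A)
  rw [norm_one, norm_div, norm_real, Real.norm_of_nonneg hA.le] at this
  have h2 : ‖c‖ / A ≤ 1 / 2 := by rw [div_le_iff₀ hA]; linarith
  linarith

theorem HypL.step (H : HypL M F1 F2 Ψ r R A) {B1 B3 : ℝ} (e1 : B1 = 9 ^ 21 * (102 * A))
    (e3 : B3 = 9 ^ 21 * B1) (U : Uq M F1 F2 Ψ r R r0 (3400 * B1 + 2 * B3))
    (hR : 3400 * B1 + 2 * B3 + A < R) {ρ : ℝ} (hρ : 0 < ρ) (h2 : 2 * ρ ≤ r0) (h3 : 3 * ρ < r)
    {S : ℂ → ℂ} (hS : SolOn M F1 F2 Ψ r R (3 / 2 * ρ) S) :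
    ∃ S', SolOn M F1 F2 Ψ r R (2 * ρ) S' := by
  have hA := H.A0
  have a1 : 2000 * (102 * A) ≤ B1 := e1 ▸ mul_le_mul_of_nonneg_right (by norm_num) (by positivity)
  have a3 : B1 ≤ B3 := e3 ▸ le_mul_of_one_le_left (by linarith) (by norm_num)
  have hSz : ∀ z, ‖z‖ ≤ ρ → Sol M F1 F2 Ψ z S ∧ Dom Ψ r R z (S z) := fun z hz =>
    hS.2 z (by linarith)
  have hSb : ∀ z, ‖z‖ ≤ ρ → ‖S z‖ ≤ 50 * A := fun z hz =>
    omit_bound' (fun z hz => (hS.2 z hz).1.1.differentiableAt) hS.1 hA (by positivity)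
      (fun z hz => H.slit (hS.2 z hz).2 (hS.2 z hz).1.2.self_of_nhds.1 le_rfl) (by linarith)
  have hu : ∀ z s, ‖z‖ = ρ → Gd M F1 F2 Ψ r R z s → ‖s‖ < 3400 * B1 + 2 * B3 → Per M (s - S z) := by
    intro z s hz hg hs
    obtain ⟨σ, a, rfl, -⟩ := hg.sol H.toLoc
    exact H.uniq_sol U a (hSz z hz.le).1 hg.1 (hSz z hz.le).2 (by linarith) hs
      (by linarith [hSb z hz.le])
  have hΨ := H.hΨ
  have hb := fun z hz => (abs_le.1 ((abs_re_le_norm (Ψ z)).trans (H.bΨ z hz)))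
  by_cases hper : ∀ p, Per M p → ‖p‖ ≤ 2 * B1 → p = 0
  · have hA' : 0 < 102 * A := by positivity
    have hbox : ∀ z s : ℂ, ‖z‖ < 2 * ρ → ‖1 - s / (102 * A : ℝ)‖ ≤ 1681 →
        ‖s‖ ≤ B1 ∧ Box Ψ (2 * ρ) (3400 * B1 + 2 * B3) z s := fun z s hz h => by
      have h1 := nrm_le hA' h
      have h4 := abs_le.1 (abs_re_le_norm s)
      exact ⟨by linarith, hz.le, by linarith, by rw [sub_re]; linarith [hb z (by linarith)]⟩
    refine H.extend (by linarith) U hρ h2 hS.1 (n := fun p => ‖1 - p.2 / (102 * A : ℝ)‖)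
      (by fun_prop) (fun z hz => ⟨(hSz z hz).1, le_nrm hA' (by linarith [hSb z hz])⟩)
      (fun z s hz h => (hbox z s hz h).2.dom (by linarith) (by linarith))
      (fun z s hz hz' hg h => lt_of_lt_of_le (H.gap (χ := Prod.snd) differentiable_snd hρ hA' h3
        (by linarith) (by linarith) (fun z s d e _ x hx hs => (H.om z x d.1 (by linarith)
          (by have := d.2.1; rwa [show s = x from hs, ofReal_re] at this)).1 (hs ▸ e)) (fun z s hg h => ?_) hz
        (hbox z s hz' h).2 hg (h.trans (by norm_num))) (by norm_num))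
      (C := B1) (by linarith) fun z s hz h => ⟨0, Per.zero M, by simpa using (hbox z s hz h).1,
        by simp⟩
    refine (lt_or_ge ‖s‖ B1).imp (fun hs => ?_) fun hs => e1 ▸ hs
    have h4 := abs_le.1 (abs_re_le_norm s)
    rcases h with h | h | h
    · have := hper _ (hu z s h hg (by linarith))
        ((norm_sub_le _ _).trans (by linarith [hSb z h.le]))
      rw [sub_eq_zero.1 this]; linarith [hSb z h.le]
    · linarith
    · rw [sub_re] at h; linarith [hb z hg.1.1]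
  push Not at hper
  obtain ⟨τ, hτ, hτp, hτB⟩ : ∃ τ : ℝ, 0 < τ ∧ Per M (τ * I) ∧ τ ≤ 2 * B1 := by
    obtain ⟨t, ht, htB, ht0⟩ := hper
    have h1 : t = t.im * I := Complex.ext (by simp [H.perim t ht]) (by simp)
    have h2 : t.im ≠ 0 := fun h => ht0 (by rw [h1, h]; simp)
    have h4 := abs_le.1 ((abs_im_le_norm t).trans htB)
    rcases lt_or_gt_of_ne h2 with h | h
    · refine ⟨-t.im, by linarith, ?_, by linarith⟩
      have := ht.neg; rw [h1] at this; simpa using this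
    · exact ⟨t.im, h, h1 ▸ ht, h4.2⟩
  set κ : ℝ := 2 * Real.pi / τ with hκ
  have hκ0 : 0 < κ := by positivity
  have hκ1 : 1 ≤ κ * B1 := by
    rw [hκ, div_mul_eq_mul_div, one_le_div hτ]; nlinarith [Real.pi_gt_three]
  set A' : ℝ := 2 * Real.exp (κ * (51 * A)) with hA'd
  have hA' : 0 < A' := by positivity
  have hκc : (κ : ℂ) ≠ 0 := by exact_mod_cast hκ0.ne'
  have hτc : (τ : ℂ) ≠ 0 := by exact_mod_cast hτ.ne'
  have hom : ∀ (u : ℂ) (x : ℝ), A' ≤ x → exp (κ * u) = x → A ≤ u.re ∧ M u = M u.re := by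
    intro u x hx hux
    have hx0 : 0 < x := hA'.trans_le hx
    have h1 : exp (κ * u) = exp (κ * ((Real.log x / κ : ℝ) : ℂ)) := by
      rw [hux, ← ofReal_mul, mul_div_cancel₀ _ hκ0.ne', ← ofReal_exp, Real.exp_log hx0]
    obtain ⟨n, hn⟩ := exp_eq_exp_iff_exists_int.1 h1
    have h2 : u = ((Real.log x / κ : ℝ) : ℂ) + n * (τ * I) := by
      apply mul_left_cancel₀ hκc
      rw [hn, mul_add]
      congr 1
      simp only [hκ]; push_cast; field_simp
    have h4 : u.re = Real.log x / κ := by rw [h2]; simp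
    refine ⟨?_, by rw [h4, h2, hτp.zsmul n]⟩
    rw [h4, le_div_iff₀ hκ0, Real.le_log_iff_exp_le hx0]
    refine le_trans ?_ hx
    linarith [Real.exp_pos (A * κ), Real.exp_le_exp.2 (show A * κ ≤ κ * (51 * A) by nlinarith)]
  have hnorm : ∀ u : ℂ, ‖exp (κ * u)‖ = Real.exp (κ * (u.re - 51 * A)) * (A' / 2) := fun u => by
    rw [norm_exp, re_ofReal_mul, hA'd, mul_div_cancel_left₀ _ two_ne_zero, ← Real.exp_add]
    congr 1; ring
  have small : ∀ u : ℂ, u.re ≤ 51 * A → ‖exp (κ * u)‖ ≤ A' / 2 := fun u h => by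
    rw [hnorm]
    exact mul_le_of_le_one_left (by positivity) (Real.exp_le_one_iff.2 (by nlinarith))
  have alt : ∀ u : ℂ, u.re ≤ 51 * A ∨ 51 * A + 2 * B3 ≤ u.re →
      ‖exp (κ * u)‖ ≤ A' / 2 ∨ 9 ^ 21 * A' ≤ ‖exp (κ * u)‖ := fun u h => h.imp (small u) fun h => by
    have h1 := Real.add_one_le_exp (κ * (u.re - 51 * A))
    have h4 : κ * (2 * B3) ≤ κ * (u.re - 51 * A) := by gcongr; linarith
    rw [e3] at h4
    rw [hnorm]; nlinarith
  have bd : ∀ u : ℂ, ‖1 - exp (κ * u) / A'‖ ≤ 1681 → u.re ≤ 51 * A + 3364 * B1 := fun u h => by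
    have h1 := nrm_le hA' h
    rw [hnorm] at h1
    have h4 := Real.add_one_le_exp (κ * (u.re - 51 * A))
    have h5 : κ * (u.re - 51 * A) ≤ κ * (3364 * B1) := by nlinarith
    linarith [le_of_mul_le_mul_left h5 hκ0]
  have red : ∀ s : ℂ, ∃ k : ℤ, ‖s + k * (τ * I)‖ ≤ |s.re| + 2 * B1 := fun s => by
    refine ⟨-⌊s.im / τ⌋, (norm_le_abs_re_add_abs_im _).trans (add_le_add (by simp) ?_)⟩
    simp only [add_im, mul_im, intCast_re, ofReal_re, I_im, mul_one, ofReal_im, I_re, mul_zero,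
      add_zero, intCast_im, mul_re, sub_self]
    push_cast
    have k1 := Int.floor_le (s.im / τ)
    have k2 := Int.lt_floor_add_one (s.im / τ)
    rw [le_div_iff₀ hτ] at k1
    rw [div_lt_iff₀ hτ] at k2
    rw [abs_le]
    constructor <;> nlinarith
  have inv : ∀ (u : ℂ) (k : ℤ), exp (κ * (u + k * (τ * I))) = exp (κ * u) := fun u k =>
    exp_eq_exp_iff_exists_int.2 ⟨k, by simp only [hκ]; push_cast; field_simp⟩
  have Q : ∀ z s, Gd M F1 F2 Ψ r R z s → ‖z‖ = ρ ∨ s.re = 3400 * B1 + 2 * B3 ∨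
      (Ψ z - s).re = 3400 * B1 + 2 * B3 → (s.re ≤ 51 * A ∨ 51 * A + 2 * B3 ≤ s.re) ∧
      ((Ψ z - s).re ≤ 51 * A ∨ 51 * A + 2 * B3 ≤ (Ψ z - s).re) := fun z s hg h => by
    have h4 := hb z hg.1.1
    rw [sub_re] at h ⊢
    rcases h with h | h | h
    · obtain ⟨k, hk⟩ := red s
      rcases lt_or_ge ‖s + k * (τ * I)‖ (3400 * B1 + 2 * B3) with h5 | h5
      · have h6 := H.perim _ (hu z _ h (H.add_per hg (hτp.zsmul k)) h5)
        have h7 := abs_le.1 ((abs_re_le_norm _).trans (hSb z h.le))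
        simp only [sub_re, add_re, mul_re, intCast_re, ofReal_re, I_re, mul_zero, ofReal_im, I_im,
          mul_one, sub_self, intCast_im, zero_mul, add_zero] at h6
        exact ⟨.inl (by linarith), .inl (by linarith)⟩
      · rcases le_abs.1 (show 3398 * B1 + 2 * B3 ≤ |s.re| by linarith) with h6 | h6
        · exact ⟨.inr (by linarith), .inl (by linarith)⟩
        · exact ⟨.inl (by linarith), .inr (by linarith)⟩
    · exact ⟨.inr (by linarith), .inl (by linarith)⟩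
    · exact ⟨.inl (by linarith), .inr (by linarith)⟩
  have hbox : ∀ z s : ℂ, ‖z‖ < 2 * ρ → max ‖1 - exp (κ * s) / A'‖ ‖1 - exp (κ * (Ψ z - s)) / A'‖ ≤
      1681 → |s.re| ≤ 3365 * B1 ∧ Box Ψ (2 * ρ) (3400 * B1 + 2 * B3) z s := fun z s hz h => by
    have h1 := bd _ ((le_max_left _ _).trans h)
    have h4 := bd _ ((le_max_right _ _).trans h)
    have h5 := hb z (by linarith)
    refine ⟨abs_le.2 ⟨?_, by linarith⟩, hz.le, by linarith, by linarith⟩
    rw [sub_re] at h4; linarith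
  refine H.extend (by linarith) U hρ h2 hS.1
    (n := fun p => max ‖1 - exp (κ * p.2) / A'‖ ‖1 - exp (κ * (Ψ p.1 - p.2)) / A'‖)
    (by have := hΨ.continuous; fun_prop) (fun z hz => ⟨(hSz z hz).1, ?_⟩)
    (fun z s hz h => (hbox z s hz h).2.dom (by linarith) (by linarith))
    (fun z s hz hz' hg h => max_lt
      (lt_of_lt_of_le (H.gap (χ := fun p => exp (κ * p.2)) (by fun_prop) hρ hA' h3 (by linarith)
        (by linarith) (fun z s d e _ x hx hs => (H.om z s.re d.1 (hom s x hx hs).1 d.2.1).1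
          ((hom s x hx hs).2 ▸ e)) (fun z s hg h => alt _ (Q z s hg h).1) hz (hbox z s hz' h).2 hg
        (((le_max_left _ _).trans h).trans (by norm_num))) (by norm_num))
      (lt_of_lt_of_le (H.gap (χ := fun p => exp (κ * (Ψ p.1 - p.2))) (by fun_prop) hρ hA' h3
        (by linarith) (by linarith) (fun z s d _ e x hx hs => (H.om z _ d.1 (hom _ x hx hs).1
          d.2.2).2 ((hom _ x hx hs).2 ▸ e)) (fun z s hg h => alt _ (Q z s hg h).2) hz
        (hbox z s hz' h).2 hg (((le_max_right _ _).trans h).trans (by norm_num))) (by norm_num)))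
    (C := 3367 * B1) (by linarith) fun z s hz h => ?_
  · have h7 := abs_le.1 ((abs_re_le_norm _).trans (hSb z hz))
    exact max_lt (le_nrm hA' (small _ (by linarith))) (le_nrm hA' (small _ (by
      rw [sub_re]; linarith [hb z (by linarith)])))
  · obtain ⟨k, hk⟩ := red s
    refine ⟨_, hτp.zsmul k, by linarith [(hbox z s hz h).1], fun w x => ?_⟩
    have := inv (Ψ w - x) (-k)
    simp only [inv]
    rw [← this]; congr 5; push_cast; ring

theorem exists_solOn : ∃ Λ : ℝ, 1 ≤ Λ ∧ ∀ (M F1 F2 Ψ : ℂ → ℂ) (r R A : ℝ),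
    HypL M F1 F2 Ψ r R A → 0 < r → Λ * A ≤ R → ∀ σ, σ 0 = 0 → Sol M F1 F2 Ψ 0 σ →
      ∃ S, SolOn M F1 F2 Ψ r R (r / 8) S := by
  set L : ℝ := 3400 * (9 ^ 21 * 102) + 2 * (9 ^ 21 * (9 ^ 21 * 102)) with hL
  have hL0 : 0 < L := by positivity
  obtain ⟨N, hN⟩ := pow_unbounded_of_one_lt ((2 + L) ^ 2) (one_lt_two (α := ℝ))
  have h16 : (0 : ℝ) < 16 ^ N := by positivity
  refine ⟨16 ^ N + 2 + L, by linarith, fun M F1 F2 Ψ r R A H hr hR σ h0 hσ => ?_⟩
  have hA := H.A0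
  have e : 3400 * (9 ^ 21 * (102 * A)) + 2 * (9 ^ 21 * (9 ^ 21 * (102 * A))) = L * A := by
    rw [hL]; ring
  have U : Uq M F1 F2 Ψ r R (r / 6) (L * A) := fun z s s' a b c =>
    H.uniq_gd (N := N) (by positivity) (by linarith) (by rwa [mul_div_cancel_right₀ _ hA.ne'])
      (by nlinarith) a b c
  have hd : Dom Ψ r R 0 (σ 0) := ⟨by simpa using hr, by rw [h0, zero_re]; nlinarith, by
    rw [h0, sub_zero]; nlinarith [re_le_norm (Ψ 0), H.bΨ 0 (by simpa using hr)]⟩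
  obtain ⟨ε, hε, h⟩ := nhds_basis_ball.eventually_iff.1
    (hσ.ev.and ((tendsto_sect hσ.1.continuousAt).eventually (H.ev hd)))
  have key : ∀ n : ℕ, ∃ S, SolOn M F1 F2 Ψ r R (min (ε * (4 / 3) ^ n) (r / 8)) S := by
    intro n
    induction n with
    | zero => exact ⟨σ, h0, fun z hz => h (by simpa using hz.trans_le (min_le_left _ _))⟩
    | succ n ih =>
      obtain ⟨S, hS⟩ := ih
      set x := min (ε * (4 / 3) ^ n) (r / 8) with hx
      have x0 : 0 < x := by positivity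
      have x1 : x ≤ r / 8 := min_le_right _ _
      obtain ⟨S', hS'⟩ := H.step rfl rfl (e ▸ U) (by rw [e]; nlinarith) (ρ := 2 / 3 * x)
        (by positivity) (by linarith) (by linarith) (S := S)
        (by rwa [show 3 / 2 * (2 / 3 * x) = x by ring])
      refine ⟨S', hS'.1, fun z hz => hS'.2 z (hz.trans_le ?_)⟩
      rw [pow_succ]
      rcases min_choice (ε * (4 / 3) ^ n) (r / 8) with h1 | h1 <;> rw [hx, h1]
      · exact (min_le_left _ _).trans (by linarith)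
      · exact (min_le_right _ _).trans (by linarith)
  obtain ⟨n, hn⟩ := pow_unbounded_of_one_lt (r / 8 / ε) (show (1 : ℝ) < 4 / 3 by norm_num)
  obtain ⟨S, hS⟩ := key n
  rw [min_eq_right (by rw [div_lt_iff₀ hε] at hn; linarith)] at hS
  exact ⟨S, hS⟩

end Pool.Agent.MP_9cb8e5_pr.H55
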