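import Pool.Agent.MP_9cb8e5_pr.H55.LPL

/-! Uniqueness of moderate good points modulo periods, and a gap for their size. -/

open Complex Filter Topology Set Metric Pool.Agent.MP_9cb8e5_pr.H67

namespace Pool.Agent.MP_9cb8e5_pr.H55

structure HypL (M F1 F2 Ψ : ℂ → ℂ) (r R A : ℝ) : Prop extends Loc M F1 F2 Ψ r R where
  A0 : 0 < A
  d0 : deriv M 0 ≠ 0
  bΨ : ∀ z, ‖z‖ < r → ‖Ψ z‖ ≤ A
  uniq : ∀ (y : ℝ) (s s' : ℂ), Dom Ψ r R y s → Dom Ψ r R y s' → M s = F1 y → M (Ψ y - s) = F2 y →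
    M s' = F1 y → M (Ψ y - s') = F2 y → Per M (s - s')
  perim : ∀ t, Per M t → t.re = 0
  pcl : IsClosed {t | Per M t}
  om : ∀ (z : ℂ) (x : ℝ), ‖z‖ < r → A ≤ x → x < R → M x ≠ F1 z ∧ M x ≠ F2 z

variable {M F1 F2 Ψ : ℂ → ℂ} {r R A : ℝ}

noncomputable def bt (A : ℝ) (c : ℂ) : ℂ := 1 + (1 - c / A).sqrt

theorem bt_sq (A : ℝ) (c : ℂ) : 1 + ‖1 - c / A‖ ≤ ‖bt A c‖ ^ 2 := by
  have h1 : 0 ≤ (1 - c / A).sqrt.re := by rw [re_sqrt]; positivity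
  rw [← norm_sqrt_sq, bt, ← normSq_eq_norm_sq, ← normSq_eq_norm_sq, normSq_add]
  simpa using h1

theorem one_le_bt (A : ℝ) (c : ℂ) : 1 ≤ ‖bt A c‖ := by
  nlinarith [bt_sq A c, norm_nonneg (1 - c / A), norm_nonneg (bt A c)]

theorem le_bt (hA : 0 < A) (c : ℂ) : ‖c‖ ≤ ‖bt A c‖ ^ 2 * A := by
  have := norm_sub_le 1 (1 - c / A)
  rw [sub_sub_cancel, norm_one, norm_div, norm_real, Real.norm_of_nonneg hA.le] at this
  rw [← div_le_iff₀ hA]; linarith [bt_sq A c]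

theorem bt_le (A : ℝ) (c : ℂ) {x : ℝ} (hx : 0 ≤ x) (h : ‖1 - c / A‖ ≤ x ^ 2) : ‖bt A c‖ ≤ 1 + x := by
  rw [← norm_sqrt_sq] at h
  exact (norm_add_le _ _).trans (by rw [norm_one]; linarith [abs_le_of_sq_le_sq' h hx])

theorem diff_bt {E : Type} [NormedAddCommGroup E] [NormedSpace ℂ E] {f : E → ℂ} {q : E}
    (hf : DifferentiableAt ℂ f q) (h : 1 - f q / A ∈ slitPlane) :
    DifferentiableAt ℂ (fun p => bt A (f p)) q :=
  ((differentiableAt_sqrt h).comp q (f := fun p => 1 - f p / A) (by fun_prop)).const_add 1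

theorem diff_div {E : Type} [NormedAddCommGroup E] [NormedSpace ℂ E] {f g : E → ℂ} {q : E}
    (hf : DifferentiableAt ℂ f q) (hg : DifferentiableAt ℂ g q) (h : g q ≠ 0) :
    DifferentiableAt ℂ (fun p => f p / g p) q := by
  simp only [div_eq_mul_inv]; exact hf.mul (hg.inv h)

theorem HypL.slit (H : HypL M F1 F2 Ψ r R A) {z s : ℂ} (h : Dom Ψ r R z s) (e : M s = F1 z)
    {A' : ℝ} (hA : A ≤ A') : 1 - s / A' ∈ slitPlane :=
  mem_slit (H.A0.trans_le hA) fun x hx hs =>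
    (H.om z x h.1 (hA.trans hx) (by simpa [hs] using h.2.1)).1 (hs ▸ e)

theorem HypL.uniq_gd (H : HypL M F1 F2 Ψ r R A) {r0 B : ℝ} {N : ℕ} (hr0 : 0 < r0) (h5 : 5 * r0 < r)
    (hN : (2 + B / A) ^ 2 < 2 ^ N) (hR : (16 ^ N + 2) * A ≤ R) {z s s' : ℂ} (hz0 : ‖z‖ ≤ r0)
    (hs : ‖s‖ ≤ B) (hs' : ‖s'‖ ≤ B) (h : Gd M F1 F2 Ψ r R z s) (h' : Gd M F1 F2 Ψ r R z s') :
    Per M (s - s') := by
  have hA := H.A0
  have hreal : ∀ z s s' : ℂ, z.im = 0 → Gd M F1 F2 Ψ r R z s → Gd M F1 F2 Ψ r R z s' →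
      Per M (s - s') := by
    intro z s s' hz h h'
    have hz' : z = (z.re : ℂ) := Complex.ext (by simp) (by simp [hz])
    have := H.uniq z.re s s'
    rw [← hz'] at this
    exact this h.1 h'.1 h.2.2.1 h.2.eq2 h'.2.2.1 h'.2.eq2
  obtain ⟨e, he1, he⟩ : ∃ e : ℝ, e ^ 2 = 1 ∧ 0 ≤ e * z.im := by
    rcases le_total 0 z.im with h0 | h0
    · exact ⟨1, by norm_num, by linarith⟩
    · exact ⟨-1, by norm_num, by linarith⟩
  by_contra hper
  set R0 := (16 ^ N + 1) * A with hR0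
  have hR1 : R0 < R := by linarith
  have hbox : ∀ w x : ℂ, ‖w‖ < r → ‖x‖ < 16 ^ N * A → x.re < R0 ∧ (Ψ w - x).re < R0 :=
    fun w x hw hx => ⟨by linarith [re_le_norm x], by
      linarith [re_le_norm (Ψ w - x), norm_sub_le (Ψ w) x, H.bΨ w hw]⟩
  set T : Set (ℂ × ℂ × ℂ) := {q | ((Gd M F1 F2 Ψ r R q.1 q.2.1 ∧ Gd M F1 F2 Ψ r R q.1 q.2.2) ∧
    Box Ψ (5 * r0) R0 q.1 q.2.1 ∧ Box Ψ (5 * r0) R0 q.1 q.2.2) ∧ 0 ≤ e * q.1.im ∧
    ¬ Per M (q.2.1 - q.2.2)} with hT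
  have hen : ‖(e * r0 : ℝ) * I‖ = r0 := by
    rw [norm_mul, norm_real, norm_I, mul_one, Real.norm_eq_abs, abs_mul, abs_of_pos hr0,
      (sq_eq_sq₀ (abs_nonneg e) zero_le_one).1 (by rw [sq_abs, he1]; norm_num), one_mul]
  have hlow : ∀ w : ℂ, 0 ≤ e * w.im → r0 ≤ ‖w + (e * r0 : ℝ) * I‖ := by
    intro w hw
    have h1 := Complex.abs_im_le_norm (w + (e * r0 : ℝ) * I)
    simp only [add_im, mul_im, ofReal_re, I_im, mul_one, ofReal_im, I_re, mul_zero,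
      add_zero] at h1
    refine le_trans ?_ h1
    refine (sq_le_sq₀ hr0.le (abs_nonneg _)).1 ?_
    rw [sq_abs]; nlinarith [sq_nonneg w.im, mul_nonneg hw hr0.le]
  have hcl : ∀ q ∈ closure T, 0 ≤ e * q.1.im := fun q hq =>
    (isClosed_le (f := fun _ : ℂ × ℂ × ℂ => (0 : ℝ)) (g := fun q => e * q.1.im)
      continuous_const (by fun_prop)).closure_subset_iff.2 (fun q hq => hq.2.1) hq
  have hcl' := H.clos h5 hR1 (T := T) fun q hq => hq.1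
  set g : ℂ × ℂ × ℂ → ℂ := fun q =>
    (((4 * r0 : ℝ) : ℂ) / (q.1 + (e * r0 : ℝ) * I)) ^ N / (bt A q.2.1 * bt A q.2.2) with hg
  have hgn : ∀ q, ‖g q‖ = (4 * r0 / ‖q.1 + (e * r0 : ℝ) * I‖) ^ N /
      (‖bt A q.2.1‖ * ‖bt A q.2.2‖) := fun q => by
    rw [hg, norm_div, norm_pow, norm_div, norm_mul, norm_real, Real.norm_of_nonneg (by positivity)]
  have hb1 : ∀ q : ℂ × ℂ × ℂ, 1 ≤ ‖bt A q.2.1‖ * ‖bt A q.2.2‖ := fun q =>
    one_le_mul_of_one_le_of_one_le (one_le_bt _ _) (one_le_bt _ _)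
  have h4 : ∀ q : ℂ × ℂ × ℂ, 0 ≤ e * q.1.im → (4 * r0 / ‖q.1 + (e * r0 : ℝ) * I‖) ^ N ≤ 4 ^ N :=
    fun q hq => pow_le_pow_left₀ (by positivity) ((div_le_iff₀ (hr0.trans_le (hlow _ hq))).2
      (by linarith [hlow _ hq])) N
  have hdiff : ∀ q : ℂ × ℂ × ℂ, q.1 + (e * r0 : ℝ) * I ≠ 0 ∧ 1 - q.2.1 / A ∈ slitPlane ∧
      1 - q.2.2 / A ∈ slitPlane → DifferentiableAt ℂ g q := fun q ⟨a, b, c⟩ =>
    diff_div ((diff_div (g := fun q : ℂ × ℂ × ℂ => q.1 + (e * r0 : ℝ) * I) (differentiableAt_const _)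
      (by fun_prop) a).pow N) ((diff_bt (f := fun q : ℂ × ℂ × ℂ => q.2.1) (by fun_prop) b).mul
      (diff_bt (f := fun q : ℂ × ℂ × ℂ => q.2.2) (by fun_prop) c))
      (norm_pos_iff.1 (lt_of_lt_of_le one_pos ((hb1 q).trans_eq (norm_mul _ _).symm)))
  have hsl : ∀ q ∈ closure T, q.1 + (e * r0 : ℝ) * I ≠ 0 ∧ 1 - q.2.1 / A ∈ slitPlane ∧
      1 - q.2.2 / A ∈ slitPlane := fun q hq =>
    ⟨norm_pos_iff.1 (hr0.trans_le (hlow _ (hcl q hq))),
      H.slit ((hcl' q hq).1.1.dom h5 hR1) (hcl' q hq).2.2.1.1 le_rfl,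
      H.slit ((hcl' q hq).1.2.dom h5 hR1) (hcl' q hq).2.2.2 le_rfl⟩
  have hB : B < 16 ^ N * A := by
    have a1 : 0 ≤ B / A := div_nonneg ((norm_nonneg _).trans hs) hA.le
    have a2 : (2 : ℝ) ^ N ≤ 16 ^ N := by gcongr; norm_num
    rw [← div_lt_iff₀ hA]; nlinarith
  have key := H.PL (T := T) (g := g) (Q := 4 ^ N) h5 hR1 (a := A) (by
      have : (0 : ℝ) < 16 ^ N := by positivity
      simp only [ofReal_re]; nlinarith) (fun w hw => (H.om w A (hw.trans_lt h5) le_rfl (by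
      have : (0 : ℝ) < 16 ^ N := by positivity
      nlinarith)).1) (fun q hq => hq.1)
    (fun q hq => (hdiff q (hsl q hq)).continuousAt.continuousWithinAt)
    (fun q hq => by rw [hgn]; exact (div_le_self (by positivity) (hb1 q)).trans (h4 q hq.2.1)) ?_
    (z, s, s') ⟨⟨⟨h, h'⟩, ⟨by simp only; linarith, (hbox z s h.1.1 (by linarith)).imp
      le_of_lt le_of_lt⟩, by simp only; linarith, (hbox z s' h.1.1 (by linarith)).imp
      le_of_lt le_of_lt⟩, he, hper⟩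
  · rw [hgn, div_le_one (by linarith [hb1 (z, s, s')])] at key
    have a1 : ∀ x : ℂ, ‖x‖ ≤ B → ‖bt A x‖ ≤ 2 + B / A := fun x hx => by
      have a2 : ‖x‖ / A ≤ B / A := by gcongr
      have a3 := norm_sub_le 1 (x / A)
      have a4 : 0 ≤ ‖x‖ / A := by positivity
      rw [norm_one, norm_div, norm_real, Real.norm_of_nonneg hA.le] at a3
      linarith [bt_le A x (x := 1 + B / A) (by linarith) (by nlinarith)]
    have a2 : (2 : ℝ) ^ N ≤ (4 * r0 / ‖z + (e * r0 : ℝ) * I‖) ^ N := pow_le_pow_left₀ two_pos.le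
      ((le_div_iff₀ (hr0.trans_le (hlow z he))).2 (by
        linarith [norm_add_le z ((e * r0 : ℝ) * I)])) N
    have a3 := mul_le_mul (a1 s hs) (a1 s' hs') (norm_nonneg _)
      ((norm_nonneg _).trans (a1 s hs))
    simp only at key
    nlinarith
  · rintro ⟨w, x, x'⟩ hq g1 g2 hg1
    simp only at g1 g2
    have h0 := hcl _ hq
    have h1 := hlow w h0
    rw [hgn, one_lt_div (by linarith [hb1 (w, x, x')])] at hg1
    simp only at h0 hg1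
    have hwR : ‖w‖ < 5 * r0 := by
      have a1 := norm_sub_le (w + (e * r0 : ℝ) * I) ((e * r0 : ℝ) * I)
      rw [add_sub_cancel_right] at a1
      by_contra a2
      have := pow_le_one₀ (n := N) (by positivity) ((div_le_one (hr0.trans_le h1)).2
        (show 4 * r0 ≤ _ by linarith))
      linarith [hb1 (w, x, x')]
    have hx : ∀ y : ℂ, ‖bt A y‖ < 4 ^ N → ‖y‖ < 16 ^ N * A := fun y hy =>
      (le_bt hA y).trans_lt (mul_lt_mul_of_pos_right (by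
        rw [show (16 : ℝ) = 4 ^ 2 by norm_num, ← pow_mul, mul_comm, pow_mul]; gcongr) hA)
    have b1 := hbox w x g1.1.1 (hx x (by
      nlinarith [h4 (w, x, x') h0, one_le_bt A x, one_le_bt A x']))
    have b2 := hbox w x' g1.1.1 (hx x' (by
      nlinarith [h4 (w, x, x') h0, one_le_bt A x, one_le_bt A x']))
    have hnp : ¬ Per M (x - x') := by
      intro ht
      obtain ⟨l, -, -, hl, -⟩ := loc_inv' (H.hM x g1.1.2.1) g1.2.1
      have t1 : Tendsto (fun p : ℂ × ℂ × ℂ => p.2.1) (𝓝 (w, x, x')) (𝓝 x) :=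
        (by fun_prop : Continuous fun p : ℂ × ℂ × ℂ => p.2.1).tendsto _
      have t2 : Tendsto (fun p : ℂ × ℂ × ℂ => p.2.2 + (x - x')) (𝓝 (w, x, x')) (𝓝 x) := by
        have := (by fun_prop : Continuous fun p : ℂ × ℂ × ℂ => p.2.2 + (x - x')).tendsto (w, x, x')
        simpa using this
      obtain ⟨p, hp, e1, e2⟩ := ((mem_closure_iff_frequently.1 hq).and_eventually
        ((t1.eventually hl).and (t2.eventually hl))).exists
      apply hp.2.2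
      rw [ht, hp.1.1.2.2.2.1, ← hp.1.1.1.2.2.1, e1] at e2
      rw [e2]; simpa using ht
    have hpos : 0 < e * w.im := by
      refine lt_of_le_of_ne h0 fun h3 => hnp (hreal w x x' ?_ g1 g2)
      rcases mul_eq_zero.1 h3.symm with h4 | h4
      · rw [h4] at he1; norm_num at he1
      · exact h4
    have hc := H.hΨ.continuous
    constructor
    · have o : IsOpen {p : ℂ × ℂ × ℂ | (‖p.1‖ < 5 * r0 ∧ 0 < e * p.1.im ∧
          p.2.1 - p.2.2 ∈ {t | Per M t}ᶜ) ∧ (p.2.1.re < R0 ∧ (Ψ p.1 - p.2.1).re < R0) ∧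
          p.2.2.re < R0 ∧ (Ψ p.1 - p.2.2).re < R0} :=
        IsOpen.and (IsOpen.and (isOpen_lt (by fun_prop) (by fun_prop)) (IsOpen.and
          (isOpen_lt (by fun_prop) (by fun_prop)) (H.pcl.isOpen_compl.preimage (by fun_prop))))
          (IsOpen.and (IsOpen.and (isOpen_lt (by fun_prop) (by fun_prop))
            (isOpen_lt (by fun_prop) (by fun_prop))) (IsOpen.and
            (isOpen_lt (by fun_prop) (by fun_prop)) (isOpen_lt (by fun_prop) (by fun_prop))))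
      filter_upwards [o.mem_nhds ⟨⟨hwR, hpos, hnp⟩, b1, b2⟩] with p ⟨⟨a1, a2, a3⟩, a4, a5⟩ c1 c2
        using ⟨⟨⟨c1, c2⟩, ⟨a1.le, a4.1.le, a4.2.le⟩, a1.le, a5.1.le, a5.2.le⟩, a2.le, a3⟩
    · have o : IsOpen {q : ℂ × ℂ × ℂ | q.1 + (e * r0 : ℝ) * I ≠ 0 ∧ 1 - q.2.1 / A ∈ slitPlane ∧
          1 - q.2.2 / A ∈ slitPlane} := IsOpen.and (isOpen_ne_fun (by fun_prop) (by fun_prop))
        (IsOpen.and (isOpen_slitPlane.preimage (by fun_prop)) (isOpen_slitPlane.preimage (by fun_prop)))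
      filter_upwards [o.mem_nhds (hsl _ hq)] with p hp using hdiff p hp

theorem HypL.gap (H : HypL M F1 F2 Ψ r R A) {χ : ℂ × ℂ → ℂ} (hχ : Differentiable ℂ χ)
    {ρ R0 A' : ℝ} (hρ : 0 < ρ) (hA : 0 < A') (h3 : 3 * ρ < r) (hR : R0 < R) (hAR : A < R)
    (homit : ∀ z s, Dom Ψ r R z s → M s = F1 z → M (Ψ z - s) = F2 z → ∀ x : ℝ, A' ≤ x →
      χ (z, s) ≠ x)
    (hin : ∀ z s, Gd M F1 F2 Ψ r R z s → ‖z‖ = ρ ∨ s.re = R0 ∨ (Ψ z - s).re = R0 →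
      ‖χ (z, s)‖ ≤ A' / 2 ∨ 9 ^ 21 * A' ≤ ‖χ (z, s)‖) {z s : ℂ} (hz : ρ ≤ ‖z‖)
    (hb : Box Ψ (2 * ρ) R0 z s) (hs : Gd M F1 F2 Ψ r R z s) (hw : ‖1 - χ (z, s) / A'‖ ≤ 41 ^ 2) :
    ‖1 - χ (z, s) / A'‖ < 40 ^ 2 := by
  set T : Set (ℂ × ℂ × ℂ) := {q | ((Gd M F1 F2 Ψ r R q.1 q.2.1 ∧ Gd M F1 F2 Ψ r R q.1 q.2.2) ∧
    Box Ψ (3 * ρ) R0 q.1 q.2.1 ∧ Box Ψ (3 * ρ) R0 q.1 q.2.2) ∧ ρ ≤ ‖q.1‖ ∧ q.2.2 = q.2.1} with hT
  set w : ℂ × ℂ × ℂ → ℂ := fun q => 1 - χ (q.1, q.2.1) / A' with hw'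
  have hwd : Differentiable ℂ w := by rw [hw']; fun_prop
  set g : ℂ × ℂ × ℂ → ℂ := fun q => (((3 * ρ : ℝ) : ℂ) / q.1 * exp (-(8 : ℝ) * (w q).sqrt⁻¹)) ^ 21 /
    bt A' (χ (q.1, q.2.1)) with hg
  have hgn : ∀ q, ‖g q‖ = (3 * ρ / ‖q.1‖ * Real.exp (-(8 * ((w q).sqrt⁻¹).re))) ^ 21 /
      ‖bt A' (χ (q.1, q.2.1))‖ := fun q => by
    rw [hg, norm_div, norm_pow, norm_mul, norm_div, norm_real, Real.norm_of_nonneg (by positivity),
      norm_exp, neg_mul, neg_re, re_ofReal_mul]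
  have hcl' := H.clos h3 hR (T := T) fun q hq => hq.1
  have hcl : ∀ q ∈ closure T, ρ ≤ ‖q.1‖ ∧ q.2.2 = q.2.1 := fun q hq => by
    have o : IsClosed {q : ℂ × ℂ × ℂ | ρ ≤ ‖q.1‖ ∧ q.2.2 = q.2.1} :=
      IsClosed.and (isClosed_le continuous_const (by fun_prop))
        (isClosed_eq (by fun_prop) (by fun_prop))
    exact o.closure_subset_iff.2 (fun q hq => hq.2) hq
  have hsl : ∀ q ∈ closure T, w q ∈ slitPlane ∧ q.1 ≠ 0 := fun q hq =>
    ⟨mem_slit hA (homit _ _ ((hcl' q hq).1.1.dom h3 hR) (hcl' q hq).2.2.1.1 (hcl' q hq).2.2.1.2),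
      norm_pos_iff.1 (hρ.trans_le (hcl q hq).1)⟩
  have hdiff : ∀ q, w q ∈ slitPlane ∧ q.1 ≠ 0 → DifferentiableAt ℂ g q := fun q ⟨h1, h2⟩ => by
    have k1 : DifferentiableAt ℂ (fun q => (w q).sqrt) q :=
      (differentiableAt_sqrt h1).comp q (hwd q)
    have k2 : (w q).sqrt ≠ 0 := by
      intro h0
      have := sqrt_sq (w q)
      rw [h0] at this
      exact slitPlane_ne_zero h1 (by rw [← this]; simp)
    exact diff_div (((diff_div (differentiableAt_const _) differentiableAt_fst h2).mul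
      (((differentiableAt_const _).mul (k1.inv k2)).cexp)).pow 21)
      (diff_bt (f := fun q : ℂ × ℂ × ℂ => χ (q.1, q.2.1)) (by fun_prop) h1)
      (norm_pos_iff.1 (lt_of_lt_of_le one_pos (one_le_bt _ _)))
  have hexp : ∀ q, Real.exp (-(8 * ((w q).sqrt⁻¹).re)) ≤ 1 := fun q =>
    Real.exp_le_one_iff.2 (by linarith [re_inv_sqrt_nonneg (w q)])
  have h33 : ∀ q : ℂ × ℂ × ℂ, ρ ≤ ‖q.1‖ →
      (3 * ρ / ‖q.1‖ * Real.exp (-(8 * ((w q).sqrt⁻¹).re))) ^ 21 ≤ 3 ^ 21 := fun q hq =>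
    pow_le_pow_left₀ (by positivity) ((mul_le_of_le_one_right (by positivity) (hexp q)).trans
      ((div_le_iff₀ (hρ.trans_le hq)).2 (by linarith))) 21
  have key := H.PL (T := T) (g := g) (Q := 3 ^ 21) h3 hR (a := A) hAR
    (fun w hw => (H.om w A (hw.trans_lt h3) le_rfl hAR).1) (fun q hq => hq.1)
    (fun q hq => (hdiff q (hsl q hq)).continuousAt.continuousWithinAt)
    (fun q hq => by
      rw [hgn]; exact (div_le_self (by positivity) (one_le_bt _ _)).trans (h33 q hq.2.1)) ?_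
    (z, s, s) ⟨⟨⟨hs, hs⟩, ⟨by linarith [hb.1], hb.2⟩, by linarith [hb.1], hb.2⟩, hz, rfl⟩
  · by_contra hcon
    rw [hgn, div_le_one (by linarith [one_le_bt A' (χ (z, s))])] at key
    have a1 := bt_le A' (χ (z, s)) (x := 41) (by norm_num) hw
    have a2 : 40 ≤ ‖(w (z, s, s)).sqrt‖ :=
      le_of_sq_le_sq (by rw [norm_sqrt_sq]; exact le_of_not_gt hcon) (norm_nonneg _)
    have a3 : ((w (z, s, s)).sqrt⁻¹).re ≤ 1 / 40 :=
      (re_le_norm _).trans (by rw [norm_inv, ← one_div]; gcongr)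
    have a4 := Real.add_one_le_exp (-(8 * ((w (z, s, s)).sqrt⁻¹).re))
    have a5 : 3 / 2 ≤ 3 * ρ / ‖z‖ := (le_div_iff₀ (hρ.trans_le hz)).2 (by linarith [hb.1])
    have a6 := pow_le_pow_left₀ (by norm_num : (0 : ℝ) ≤ 3 / 2 * (4 / 5))
      (mul_le_mul a5 (show 4 / 5 ≤ Real.exp (-(8 * ((w (z, s, s)).sqrt⁻¹).re)) by linarith)
        (by norm_num) (by linarith)) 21
    have a7 : (1 + 41 : ℝ) < (3 / 2 * (4 / 5)) ^ 21 := by norm_num
    exact (a6.trans (key.trans a1)).not_gt a7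
  · rintro ⟨v, x, x'⟩ hq g1 - hg1
    obtain ⟨e2, rfl⟩ : ρ ≤ ‖v‖ ∧ x' = x := hcl _ hq
    obtain ⟨⟨⟨e1, e3, e4⟩, -⟩, -⟩ := hcl' _ hq
    have b1 := one_le_bt A' (χ (v, x'))
    rw [hgn, one_lt_div (by linarith)] at hg1
    simp only at g1 hg1 e1 e3 e4
    have hg2 : 1 < 3 * ρ / ‖v‖ * Real.exp (-(8 * ((w (v, x', x')).sqrt⁻¹).re)) :=
      lt_of_not_ge fun h => by linarith [pow_le_one₀ (n := 21) (by positivity) h]
    have f1 : ‖v‖ < 3 * ρ := by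
      rw [← one_lt_div (hρ.trans_le e2)]
      exact hg2.trans_le (mul_le_of_le_one_right (by positivity) (hexp _))
    have f2 : ¬ (‖v‖ = ρ ∨ x'.re = R0 ∨ (Ψ v - x').re = R0) := fun h0 => by
      rcases hin v x' g1 h0 with h1 | h1
      · have h2 : ‖w (v, x', x') - 1‖ ≤ 1 / 2 := by
          simp only [hw', sub_sub_cancel_left, norm_neg, norm_div, norm_real, Real.norm_eq_abs,
            abs_of_pos hA]
          rw [div_le_iff₀ hA]; linarith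
        have h4 : Real.exp (-(8 * ((w (v, x', x')).sqrt⁻¹).re)) ≤ (Real.exp 2)⁻¹ := by
          rw [← Real.exp_neg, Real.exp_le_exp]; linarith [re_inv_sqrt_ge h2]
        have h5 : (Real.exp 2)⁻¹ ≤ 3⁻¹ := inv_anti₀ three_pos (by linarith [Real.add_one_le_exp 2])
        have h6 : 3 * ρ / ‖v‖ ≤ 3 := (div_le_iff₀ (hρ.trans_le e2)).2 (by linarith)
        nlinarith [mul_le_mul h6 (h4.trans h5) (Real.exp_pos _).le three_pos.le]
      · have h2 := le_bt hA (χ (v, x'))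
        have h4 : ‖bt A' (χ (v, x'))‖ ^ 2 < (3 ^ 21) ^ 2 := by
          gcongr; exact hg1.trans_le (h33 (v, x', x') e2)
        norm_num at h4 h1
        nlinarith
    push Not at f2
    have hc := H.hΨ.continuous
    obtain ⟨l, -, -, hl, -⟩ := loc_inv' (H.hM x' g1.1.2.1) g1.2.1
    constructor
    · have o : IsOpen {p : ℂ × ℂ × ℂ | (‖p.1‖ < 3 * ρ ∧ ρ < ‖p.1‖) ∧
          p.2.1.re < R0 ∧ (Ψ p.1 - p.2.1).re < R0} :=
        IsOpen.and (IsOpen.and (isOpen_lt (by fun_prop) (by fun_prop))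
          (isOpen_lt (by fun_prop) (by fun_prop))) (IsOpen.and
            (isOpen_lt (by fun_prop) (by fun_prop)) (isOpen_lt (by fun_prop) (by fun_prop)))
      filter_upwards [o.mem_nhds ⟨⟨f1, lt_of_le_of_ne e2 f2.1.symm⟩, lt_of_le_of_ne e3 f2.2.1,
        lt_of_le_of_ne e4 f2.2.2⟩, ((by fun_prop : Continuous fun p : ℂ × ℂ × ℂ =>
          p.2.1).tendsto _).eventually hl, ((by fun_prop : Continuous fun p : ℂ × ℂ × ℂ =>
          p.2.2).tendsto _).eventually hl] with p ⟨⟨a1, a2⟩, a4, a5⟩ l1 l2 c1 c2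
      have : p.2.2 = p.2.1 := by rw [← l2, c2.2.2.1, ← c1.2.2.1, l1]
      exact ⟨⟨⟨c1, c2⟩, ⟨a1.le, a4.le, a5.le⟩, this ▸ ⟨a1.le, a4.le, a5.le⟩⟩, a2.le, this⟩
    · have o : IsOpen {q : ℂ × ℂ × ℂ | w q ∈ slitPlane ∧ q.1 ≠ 0} := IsOpen.and
        (isOpen_slitPlane.preimage hwd.continuous) (isOpen_ne_fun (by fun_prop) (by fun_prop))
      filter_upwards [o.mem_nhds (hsl _ hq)] with p hp using hdiff p hp

end Pool.Agent.MP_9cb8e5_pr.H55
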