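import Pool.Agent.MP_9cb8e5_pr.H55.Minty
import Pool.Agent.MP_9cb8e5_pr.H67.Generic

/-! The limit of decompositions is proportional when the limit transform is entire. -/

open MeasureTheory Set Filter Topology ProbabilityTheory Pool.Agent.MP_9cb8e5_pr.H67

namespace Pool.Agent.MP_9cb8e5_pr.H55

variable {μ ν ρ₀ ρ₁ : Measure ℝ} {μk ρk₀ ρk₁ : ℕ → Measure ℝ} {ψk : ℕ → ℝ → ℝ}

theorem re_charFun [IsFiniteMeasure ν] (ξ : ℝ) : (charFun ν ξ).re = Cs ν ξ := by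
  have h1 : Integrable (fun x : ℝ => Complex.exp (ξ * x * Complex.I)) ν :=
    (integrable_const (1 : ℝ)).mono' (by fun_prop) (Eventually.of_forall fun x => by
      rw [← Complex.ofReal_mul, Complex.norm_exp_ofReal_mul_I])
  have h3 := integral_re h1
  simp only [← Complex.ofReal_mul, RCLike.re_to_complex, Complex.exp_ofReal_mul_I_re] at h3
  rw [Cs, h3, charFun_apply_real]; simp

theorem exists_sym [IsFiniteMeasure ν] (h : 0 < Cs ν 0) : ∃ ρ : Measure ℝ,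
    IsProbabilityMeasure ρ ∧ ∀ ξ, charFun ρ ξ = (Cs ν ξ / Cs ν 0 : ℝ) := by
  have e : Cs ν 0 = ν.real univ := by simp [Cs]
  have h1 : ∀ ξ, charFun (ν + ν.map ((-1 : ℝ) * ·)) ξ = (2 * Cs ν ξ : ℝ) := fun ξ => by
    have hi : ∀ (σ : Measure ℝ) [IsFiniteMeasure σ],
        Integrable (fun x : ℝ => Complex.exp (ξ * x * Complex.I)) σ := fun σ _ =>
      (integrable_const (1 : ℝ)).mono' (by fun_prop) (Eventually.of_forall fun x => by
        rw [← Complex.ofReal_mul, Complex.norm_exp_ofReal_mul_I])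
    rw [charFun_apply_real, integral_add_measure (hi _) (hi _), ← charFun_apply_real,
      ← charFun_apply_real, charFun_map_mul, neg_one_mul, charFun_neg, Complex.add_conj, re_charFun]
  refine ⟨ENNReal.ofReal (2 * Cs ν 0)⁻¹ • (ν + ν.map ((-1 : ℝ) * ·)), ⟨?_⟩, fun ξ => ?_⟩
  · rw [Measure.smul_apply, Measure.add_apply, Measure.map_apply (by fun_prop) MeasurableSet.univ,
      preimage_univ, ← ofReal_measureReal (μ := ν), ← e, ← ENNReal.ofReal_add h.le h.le,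
      smul_eq_mul, ← ENNReal.ofReal_mul (by positivity), ← two_mul, inv_mul_cancel₀ (by positivity),
      ENNReal.ofReal_one]
  · rw [charFun_apply_real, integral_smul_measure, ← charFun_apply_real, h1,
      ENNReal.toReal_ofReal (by positivity), Complex.real_smul, ← Complex.ofReal_mul]
    congr 1; field_simp

theorem psi_nonneg (b : Bool) {c : ℝ} (hc : 0 ≤ c) (t ξ : ℝ) : 0 ≤ psi b c t ξ := by
  have := Real.cos_le_one (t * ξ)
  cases b
  · exact mul_nonneg hc (sub_nonneg.2 this)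
  · exact mul_nonneg hc (sq_nonneg ξ)

theorem psi_data (b : Bool) (c t : ℝ) : ∃ Ψ : ℂ → ℂ, Differentiable ℂ Ψ ∧
    (∀ ξ : ℝ, Ψ (ξ * Complex.I) = (-psi b c t ξ : ℝ)) ∧ TD fun h => -psi b c t √(-h) := by
  cases b
  · refine ⟨fun z => c * (Complex.cosh (t * z) - 1), by fun_prop, fun ξ => ?_, ?_⟩
    · simp only [psi, cond_false]
      rw [← mul_assoc, Complex.cosh_mul_I]; push_cast; ring
    · have := kerCos.td c t (Real.hasSum_cosh t).summable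
      refine (congrArg TD (funext fun h => ?_)).mp this
      simp only [psi, cond_false]
      rw [mul_comm t]; simp; ring
  · refine ⟨fun z => c * z ^ 2, by fun_prop, fun ξ => ?_, ?_⟩
    · simp only [psi, cond_true]
      rw [mul_pow, Complex.I_sq]; push_cast; ring
    · obtain ⟨θ, R, C, a1, a2, a3, a4, a5⟩ :=
        td_of_analytic (Θ := fun h => c * h) (by fun_prop) (by simp)
      refine ⟨θ, R, C, a1, a2, a3, a4, fun N => (a5 N).congr' ?_ EventuallyEq.rfl⟩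
      filter_upwards [eventually_mem_nhdsWithin] with y (hy : y < 0)
      simp only [psi, cond_true]
      rw [Real.sq_sqrt (by linarith)]; ring

theorem uniq_loc (H : Lap μ) [IsProbabilityMeasure ν] (b : Bool) {c : ℝ} (hc : 0 ≤ c) (t : ℝ)
    (h : ∀ᶠ ξ in 𝓝 0, charFun ν ξ = mgf id μ (-psi b c t ξ)) (ξ : ℝ) :
    charFun ν ξ = mgf id μ (-psi b c t ξ) := by
  obtain ⟨Ψ, h1, h2, h3⟩ := psi_data b c t
  have h4 : Tendsto (fun h : ℝ => √(-h)) (𝓝[<] 0) (𝓝 0) := by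
    have : Continuous fun h : ℝ => √(-h) := by fun_prop
    simpa using (this.tendsto 0).mono_left nhdsWithin_le_nhds
  obtain ⟨r, C, hr, h5⟩ := boot kerCos (ρ := fun _ : Unit => ν) (m := mgf id μ) (s := fun _ => 0)
    (σ := fun _ h => -psi b c t √(-h)) (fun _ => H.an 0) (fun _ => H.deriv_pos 0) h3
    (fun j => by simp [H.zero]) ((h4.eventually h).mono fun y hy => ⟨fun _ =>
      ⟨(tf_cos _).int ν, by
        rw [zero_add, ← Complex.ofReal_re (mgf _ _ _), ← hy, re_charFun]; rfl,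
        neg_nonpos.2 (psi_nonneg b hc t _)⟩, by simp⟩)
  have hi : Integrable (fun x => Real.cosh (√r * x)) ν := by
    refine kerCos.integrable hr (h5 ()) fun x => ?_
    refine (Real.hasSum_cosh (√r * x)).congr_fun fun k => ?_
    rw [mul_pow, pow_mul √r, Real.sq_sqrt hr.le]; ring
  have hr' := Real.sqrt_pos.2 hr
  have e : ∀ ξ : ℝ, complexMGF id μ (Ψ (ξ * Complex.I)) = mgf id μ (-psi b c t ξ) := fun ξ => by
    rw [h2, complexMGF_ofReal]
  rw [← e, ← complexMGF_id_mul_I]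
  refine AnalyticOnNhd.eqOn_of_preconnected_of_frequently_eq (f := complexMGF id ν)
    (g := fun z => complexMGF id μ (Ψ z)) (U := Complex.re ⁻¹' Ioo (-√r) √r) (z₀ := 0)
    (fun z hz => analyticAt_complexMGF (int_of_cosh hi (abs_lt.2 hz)))
    (fun z _ => ((diff_of_all H.ex).comp h1).analyticAt z)
    ((convex_Ioo _ _).linear_preimage Complex.reLm).isPreconnected (by simpa using hr') ?_
    (by simpa using hr')
  have h6 : Tendsto (fun ξ : ℝ => ξ * Complex.I) (𝓝[≠] 0) (𝓝[≠] 0) := by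
    refine tendsto_nhdsWithin_iff.2 ⟨?_, eventually_mem_nhdsWithin.mono fun x hx => by
      simpa using hx⟩
    have : Continuous fun ξ : ℝ => ξ * Complex.I := by fun_prop
    simpa using (this.tendsto 0).mono_left nhdsWithin_le_nhds
  refine h6.frequently (Eventually.frequently (Eventually.filter_mono nhdsWithin_le_nhds ?_))
  filter_upwards [h] with ξ a
  rw [e, complexMGF_id_mul_I, a]

theorem lap_strict [IsFiniteMeasure μ] (h : ¬ ∀ᵐ w ∂μ, w = 0) {s t : ℝ} (hs : 0 ≤ s) (hst : s < t) :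
    lap μ t < lap μ s := by
  refine lt_of_le_of_ne (lap_anti hs hst.le) fun e => h ?_
  have i1 := (tf_exp s).int μ
  have i2 := (tf_exp t).int μ
  have h1 := (integral_eq_zero_iff_of_nonneg (fun w => sub_nonneg.2 (by
    simp only [Real.exp_le_exp, neg_le_neg_iff, abs_of_nonneg hs, abs_of_nonneg (hs.trans hst.le)]
    gcongr)) (i1.sub i2)).1 (by rw [integral_sub i1 i2]; exact sub_eq_zero.2 e.symm)
  filter_upwards [h1] with w hw
  simp only [Pi.zero_apply, sub_eq_zero, Real.exp_eq_exp, neg_inj, abs_of_nonneg hs,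
    abs_of_nonneg (hs.trans hst.le), mul_eq_mul_right_iff, hst.ne, false_or] at hw
  exact abs_eq_zero.1 hw

theorem normal [IsFiniteMeasure μ] (nn : ∀ᵐ w ∂μ, 0 ≤ w) (ne : ¬ ∀ᵐ w ∂μ, w = 0)
    (ex : ∀ t : ℝ, Integrable (fun w => Real.exp (t * w)) μ) : 0 < lap μ 0 ∧ ∃ σ : Measure ℝ,
      Lap σ ∧ ∀ s, 0 ≤ s → mgf id σ (-s) = lap μ s / lap μ 0 := by
  have h0 : μ ≠ 0 := by rintro rfl; simp at ne
  have : NeZero μ := ⟨h0⟩
  have e : lap μ 0 = μ.real univ := by simp [lap]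
  have h1 : (μ univ)⁻¹ ≠ 0 := ENNReal.inv_ne_zero.2 (measure_ne_top _ _)
  refine ⟨e ▸ measureReal_univ_pos, (μ univ)⁻¹ • μ, ⟨inferInstance,
    Measure.ae_smul_measure nn _, by rwa [Measure.ae_ennreal_smul_measure_iff h1], fun t => (ex t).smul_measure
      (ENNReal.inv_ne_top.2 (Measure.measure_univ_ne_zero.2 h0))⟩, fun s hs => ?_⟩
  rw [mgf, integral_smul_measure, e, ENNReal.toReal_inv, smul_eq_mul, div_eq_inv_mul, lap]
  congr 1
  refine integral_congr_ae (nn.mono fun w hw => ?_)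
  simp [abs_of_nonneg hs, abs_of_nonneg hw]

theorem Cs_le [IsFiniteMeasure ν] (ξ : ℝ) : Cs ν ξ ≤ Cs ν 0 :=
  integral_mono ((tf_cos ξ).int ν) ((tf_cos 0).int ν) fun x => by simpa using Real.cos_le_one _

theorem psi_zero (b : Bool) (c t : ℝ) : psi b c t 0 = 0 := by cases b <;> simp [psi]

theorem Sq.big {b : Bool} {c t : ℝ} (H : Sq μk ρk₀ ρk₁ ψk μ ρ₀ ρ₁ (psi b c t)) (hc : 0 ≤ c)
    {σ : Measure ℝ} (hσ : Lap σ) (h0 : 0 < lap μ 0)
    (e : ∀ s, 0 ≤ s → mgf id σ (-s) = lap μ s / lap μ 0) (h : lap μ 0 < Cs ρ₀ 0) (ξ : ℝ) :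
    Cs ρ₁ ξ = lap μ (psi b c t ξ) := by
  have := fin_of_le H.m₀
  have := fin_of_le H.m₁
  have h1 : ∀ᶠ ξ in 𝓝 0, Cs ρ₁ ξ = lap μ (psi b c t ξ) := by
    filter_upwards [cont_Cs.continuousAt.eventually (lt_mem_nhds h)] with ξ a
    have := H.point ξ (u := 0) ⟨le_rfl, H.nn ξ⟩
    rw [sub_zero] at this
    exact le_antisymm (by nlinarith) (H.swap.low ξ)
  have h2 : Cs ρ₁ 0 = lap μ 0 := by simpa [psi_zero] using h1.self_of_nhds
  obtain ⟨ρ, hρ, h3⟩ := exists_sym (ν := ρ₁) (h2 ▸ h0)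
  have h4 := uniq_loc (ν := ρ) hσ b hc t (h1.mono fun ξ a => by rw [h3, e _ (H.nn ξ), a, h2]) ξ
  rw [h3, e _ (H.nn ξ), h2, Complex.ofReal_inj] at h4
  exact (div_left_inj' h0.ne').1 h4

theorem Sq.concl {b : Bool} {c t : ℝ} (H : Sq μk ρk₀ ρk₁ ψk μ ρ₀ ρ₁ (psi b c t)) (hc : 0 < c)
    (ht : 0 < t) (nn : ∀ᵐ w ∂μ, 0 ≤ w) (ne : ¬ ∀ᵐ w ∂μ, w = 0)
    (ex : ∀ t : ℝ, Integrable (fun w => Real.exp (t * w)) μ) : ∃ a ∈ Icc (0 : ℝ) 1,
      ∀ᵐ ξ ∂gm, jj (Lm μ) (psi b c t) (Cs ρ₀) (Cs ρ₁) a ξ = 0 := by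
  have := fin_of_le H.mμ
  have := fin_of_le H.m₀
  have := fin_of_le H.m₁
  obtain ⟨h0, σ, hσ, e⟩ := normal nn ne ex
  by_cases a0 : lap μ 0 < Cs ρ₀ 0
  · exact ⟨0, by simp, H.pos.mono fun ξ h => by simp [jj, Lm, h.ne', H.big hc.le hσ h0 e a0]⟩
  by_cases a1 : lap μ 0 < Cs ρ₁ 0
  · exact ⟨1, by simp, H.pos.mono fun ξ h => by simp [jj, Lm, h.ne', H.swap.big hc.le hσ h0 e a1]⟩
  have b0 : Cs ρ₀ 0 = lap μ 0 := le_antisymm (le_of_not_gt a0) (by simpa [psi_zero] using H.low 0)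
  have b1 : Cs ρ₁ 0 = lap μ 0 :=
    le_antisymm (le_of_not_gt a1) (by simpa [psi_zero] using H.swap.low 0)
  have c0 : ∀ ξ, ∃ s ∈ Icc 0 (psi b c t ξ), lap μ s = Cs ρ₀ ξ := fun ξ =>
    intermediate_value_Icc' (H.nn ξ) cont_lap.continuousOn ⟨H.low ξ, b0 ▸ Cs_le ξ⟩
  have c1 : ∀ ξ, ∃ s ∈ Icc 0 (psi b c t ξ), lap μ s = Cs ρ₁ ξ := fun ξ =>
    intermediate_value_Icc' (H.nn ξ) cont_lap.continuousOn ⟨H.swap.low ξ, b1 ▸ Cs_le ξ⟩
  choose η₀ d0 e0 using c0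
  choose η₁ d1 e1 using c1
  have hs : ∀ ξ, η₀ ξ + η₁ ξ = psi b c t ξ := fun ξ => by
    have f0 := d0 ξ
    have f1 := d1 ξ
    have := H.point ξ (u := (η₀ ξ - η₁ ξ + psi b c t ξ) / 2)
      ⟨by linarith [f0.1, f1.2], by linarith [f0.2, f1.1]⟩
    rw [← e0, ← e1] at this
    by_contra hne
    refine this.not_gt ?_
    rcases lt_or_gt_of_ne hne with h | h
    · exact mul_pos (sub_pos.2 (lap_strict ne f0.1 (by linarith)))
        (sub_pos.2 (lap_strict ne f1.1 (by linarith)))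
    · exact mul_pos_of_neg_of_neg (sub_neg.2 (lap_strict ne (by linarith [f0.1, f1.2]) (by linarith)))
        (sub_neg.2 (lap_strict ne (by linarith [f0.2, f1.1]) (by linarith)))
  obtain ⟨τ₀, p0, g0⟩ := exists_sym (ν := ρ₀) (b0 ▸ h0)
  obtain ⟨τ₁, p1, g1⟩ := exists_sym (ν := ρ₁) (b1 ▸ h0)
  have pr : ∀ j, IsProbabilityMeasure (![τ₀, τ₁] j) := Fin.forall_fin_two.2 ⟨p0, p1⟩
  have cf : ∀ j ξ, charFun (![τ₀, τ₁] j) ξ = mgf id σ (-![η₀, η₁] j ξ) := Fin.forall_fin_two.2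
    ⟨fun ξ => (g0 ξ).trans (by rw [b0, ← e0, ← e _ (d0 ξ).1]; rfl),
      fun ξ => (g1 ξ).trans (by rw [b1, ← e1, ← e _ (d1 ξ).1]; rfl)⟩
  have n0 : ∀ j ξ, 0 ≤ ![η₀, η₁] j ξ := Fin.forall_fin_two.2 ⟨fun ξ => (d0 ξ).1, fun ξ => (d1 ξ).1⟩
  obtain ⟨a, ha, h⟩ : ∃ a ∈ Icc (0 : ℝ) 1, ∀ ξ, η₀ ξ = a * (η₀ ξ + η₁ ξ) := by
    cases b
    · exact rigid_cos hσ pr cf n0 hc ht hs
    · exact rigid_sq hσ pr cf n0 hc hs
  refine ⟨a, ha, H.pos.mono fun ξ hξ => ?_⟩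
  have h1 := h ξ
  have h2 : η₁ ξ = (1 - a) * psi b c t ξ := by rw [← hs]; linarith
  rw [hs] at h1
  rcases ha.1.eq_or_lt with rfl | ha0
  · simp [jj, Lm, hξ.ne', ← e1, h2]
  · simp [jj, Lm, hξ.ne', ha0.ne', ← e0, h1]

end Pool.Agent.MP_9cb8e5_pr.H55
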