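import Pool.Agent.MP_9cb8e5_pr.H55.Pair

/-! Passing to the limit in a decomposition by monotonicity. -/

open MeasureTheory Set Filter Topology ProbabilityTheory

namespace Pool.Agent.MP_9cb8e5_pr.H55

noncomputable def lap (μ : Measure ℝ) (s : ℝ) : ℝ := ∫ w, Real.exp (-(|s| * |w|)) ∂μ

noncomputable def Lm (μ : Measure ℝ) (s : ℝ) : ℝ := if s = 0 then 1 else lap μ s

noncomputable def jj (L ψ g₀ g₁ : ℝ → ℝ) (a ξ : ℝ) : ℝ :=
  (g₀ ξ - L (a * ψ ξ)) * (g₁ ξ - L ((1 - a) * ψ ξ))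

variable {μ ρ₀ ρ₁ : Measure ℝ} {μk ρk₀ ρk₁ : ℕ → Measure ℝ} {ψ : ℝ → ℝ} {ψk : ℕ → ℝ → ℝ}

theorem tf_exp (s : ℝ) : Tf fun w => Real.exp (-(|s| * |w|)) := ⟨by fun_prop, fun w => by
  rw [abs_of_pos (Real.exp_pos _), Real.exp_le_one_iff, neg_nonpos]; positivity⟩

theorem cont_lap [IsFiniteMeasure μ] : Continuous (lap μ) :=
  continuous_of_dominated (fun s => (tf_exp s).1.aestronglyMeasurable)
    (fun s => Eventually.of_forall (tf_exp s).2) (integrable_const (1 : ℝ))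
    (Eventually.of_forall fun x => by fun_prop)

theorem tf_lap (h : μ univ ≤ 1) : Tf (lap μ) :=
  have := fin_of_le h
  ⟨cont_lap.measurable, fun s => (tf_exp s).abs_int h⟩

theorem tf_Lm (h : μ univ ≤ 1) : Tf (Lm μ) :=
  ⟨Measurable.ite (measurableSet_singleton 0) measurable_const (tf_lap h).1, fun s => by
    unfold Lm; split_ifs; exacts [by simp, (tf_lap h).2 s]⟩

theorem lap_anti [IsFiniteMeasure μ] {s t : ℝ} (hs : 0 ≤ s) (h : s ≤ t) : lap μ t ≤ lap μ s :=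
  integral_mono ((tf_exp t).int μ) ((tf_exp s).int μ) fun w => by
    simp only [Real.exp_le_exp, neg_le_neg_iff, abs_of_nonneg hs, abs_of_nonneg (hs.trans h)]
    gcongr

theorem lap_lip (h1 : μ univ ≤ 1) {σ s t : ℝ} (hσ : 0 < σ) (hs : σ ≤ s) (h : s ≤ t) :
    lap μ s - lap μ t ≤ (t - s) / σ := by
  have := fin_of_le h1
  have h2 : 0 ≤ (t - s) / σ := div_nonneg (sub_nonneg.2 h) hσ.le
  rw [lap, lap, ← integral_sub ((tf_exp s).int μ) ((tf_exp t).int μ)]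
  refine (integral_mono (((tf_exp s).int μ).sub ((tf_exp t).int μ))
    (integrable_const ((t - s) / σ)) fun w => ?_).trans ?_
  · simp only [abs_of_pos (hσ.trans_le hs), abs_of_pos (hσ.trans_le (hs.trans h)), Pi.sub_apply]
    have a1 := Real.add_one_le_exp (-((t - s) * |w|))
    have a2 := Real.add_one_le_exp (s * |w|)
    have a3 : Real.exp (-(t * |w|)) = Real.exp (-(s * |w|)) * Real.exp (-((t - s) * |w|)) := by
      rw [← Real.exp_add]; congr 1; ring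
    have a4 : Real.exp (-(s * |w|)) * Real.exp (s * |w|) = 1 := by rw [← Real.exp_add]; simp
    have a5 := Real.exp_pos (-(s * |w|))
    have a6 : Real.exp (-(s * |w|)) * (σ * |w|) ≤ 1 := by
      have := abs_nonneg w
      nlinarith [mul_le_mul_of_nonneg_right hs this]
    rw [a3, le_div_iff₀ hσ]
    nlinarith [mul_le_mul_of_nonneg_left a1 (mul_pos a5 hσ).le,
      mul_le_mul_of_nonneg_left a6 (sub_nonneg.2 h)]
  · rw [integral_const, smul_eq_mul]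
    exact mul_le_of_le_one_left h2 (by
      simpa [Measure.real] using ENNReal.toReal_mono ENNReal.one_ne_top h1)

theorem conv (H : Vag μk μ) (hk : ∀ k, IsProbabilityMeasure (μk k)) {xk : ℕ → ℝ} {x a : ℝ}
    (hx : Tendsto xk atTop (𝓝 x)) (h0 : 0 < x) (ha : 0 ≤ a) :
    Tendsto (fun k => lap (μk k) (a * xk k)) atTop (𝓝 (Lm μ (a * x))) := by
  rcases ha.eq_or_lt with rfl | ha
  · simp [lap, Lm]
  have hs := mul_pos ha h0
  have h1 := H (fun w => Real.exp (-(|a * x| * |w|))) (by fun_prop) (Real.tendsto_exp_atBot.comp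
    (tendsto_neg_atTop_atBot.comp (tendsto_abs_atTop_atTop.const_mul_atTop (abs_pos.2 hs.ne'))))
  simp only [abs_abs] at h1
  rw [Lm, if_neg hs.ne']
  refine h1.congr_dist (squeeze_zero' (g := fun k => |a * xk k - a * x| / (a * x / 2))
    (Eventually.of_forall fun _ => dist_nonneg) ?_ ?_)
  · filter_upwards [(hx.const_mul a).eventually (lt_mem_nhds (half_lt_self hs))] with k hk2
    rw [Real.dist_eq]
    change |lap (μk k) (a * x) - lap (μk k) (a * xk k)| ≤ _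
    rcases le_total (a * x) (a * xk k) with h | h
    · rw [abs_of_nonneg (sub_nonneg.2 (lap_anti hs.le h)), abs_of_nonneg (sub_nonneg.2 h)]
      exact lap_lip prob_le_one (half_pos hs) (half_le_self hs.le) h
    · rw [abs_sub_comm, abs_of_nonneg (sub_nonneg.2 (lap_anti (by linarith) h)), abs_sub_comm,
        abs_of_nonneg (sub_nonneg.2 h)]
      exact lap_lip prob_le_one (half_pos hs) hk2.le h
  · simpa using (((hx.const_mul a).sub_const (a * x)).abs).div_const (a * x / 2)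

structure Sq (μk ρk₀ ρk₁ : ℕ → Measure ℝ) (ψk : ℕ → ℝ → ℝ) (μ ρ₀ ρ₁ : Measure ℝ) (ψ : ℝ → ℝ) :
    Prop where
  pμ : ∀ k, IsProbabilityMeasure (μk k)
  p₀ : ∀ k, ρk₀ k univ ≤ 1
  p₁ : ∀ k, ρk₁ k univ ≤ 1
  mμ : μ univ ≤ 1
  m₀ : ρ₀ univ ≤ 1
  m₁ : ρ₁ univ ≤ 1
  vμ : Vag μk μ
  v₀ : Vag ρk₀ ρ₀
  v₁ : Vag ρk₁ ρ₁
  ms : ∀ k, Measurable (ψk k)
  cψ : Continuous ψ
  nn : ∀ ξ, 0 ≤ ψ ξ
  pos : ∀ᵐ ξ ∂gm, 0 < ψ ξ
  lim : ∀ ξ, Tendsto (fun k => ψk k ξ) atTop (𝓝 (ψ ξ))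
  dec : ∀ k ξ, ∃ s t, 0 ≤ s ∧ 0 ≤ t ∧ s + t = ψk k ξ ∧ Cs (ρk₀ k) ξ = lap (μk k) s ∧
    Cs (ρk₁ k) ξ = lap (μk k) t

theorem Sq.swap (H : Sq μk ρk₀ ρk₁ ψk μ ρ₀ ρ₁ ψ) : Sq μk ρk₁ ρk₀ ψk μ ρ₁ ρ₀ ψ :=
  { H with
    p₀ := H.p₁, p₁ := H.p₀, m₀ := H.m₁, m₁ := H.m₀, v₀ := H.v₁, v₁ := H.v₀
    dec := fun k ξ => by
      obtain ⟨s, t, a, b, c, d, e⟩ := H.dec k ξ
      exact ⟨t, s, b, a, by rw [add_comm, c], e, d⟩ }

theorem Tf.comp {L φ : ℝ → ℝ} (h : Tf L) (hφ : Measurable φ) : Tf fun ξ => L (φ ξ) :=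
  ⟨h.1.comp hφ, fun _ => h.2 _⟩

theorem expand {f₀ f₁ v₀ v₁ : ℝ → ℝ} (a : Tf f₀) (b : Tf f₁) (c : Tf v₀) (d : Tf v₁) :
    Integrable (fun ξ => (f₀ ξ - v₀ ξ) * (f₁ ξ - v₁ ξ)) gm ∧
    ∫ ξ, (f₀ ξ - v₀ ξ) * (f₁ ξ - v₁ ξ) ∂gm = ∫ ξ, f₀ ξ * f₁ ξ ∂gm -
      (∫ ξ, f₀ ξ * v₁ ξ ∂gm + ∫ ξ, f₁ ξ * v₀ ξ ∂gm - ∫ ξ, v₀ ξ * v₁ ξ ∂gm) := by
  have e : (fun ξ => (f₀ ξ - v₀ ξ) * (f₁ ξ - v₁ ξ)) =
      fun ξ => f₀ ξ * f₁ ξ - (f₀ ξ * v₁ ξ + f₁ ξ * v₀ ξ - v₀ ξ * v₁ ξ) := by ext; ring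
  have h1 : Integrable (fun ξ => f₀ ξ * v₁ ξ + f₁ ξ * v₀ ξ) gm :=
    ((a.mul d).int _).add ((b.mul c).int _)
  have h2 : Integrable (fun ξ => f₀ ξ * v₁ ξ + f₁ ξ * v₀ ξ - v₀ ξ * v₁ ξ) gm :=
    h1.sub ((c.mul d).int _)
  rw [e, integral_sub ((a.mul b).int _) h2, integral_sub h1 ((c.mul d).int _),
    integral_add ((a.mul d).int _) ((b.mul c).int _)]
  exact ⟨((a.mul b).int _).sub h2, rfl⟩

theorem dct {uk : ℕ → ℝ → ℝ} {u : ℝ → ℝ} (huk : ∀ k, Tf (uk k))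
    (ht : ∀ᵐ ξ ∂gm, Tendsto (fun k => uk k ξ) atTop (𝓝 (u ξ))) :
    Tendsto (fun k => ∫ ξ, uk k ξ ∂gm) atTop (𝓝 (∫ ξ, u ξ ∂gm)) :=
  tendsto_integral_of_dominated_convergence (fun _ => 1)
    (fun k => (huk k).1.aestronglyMeasurable) (integrable_const _)
    (fun k => Eventually.of_forall (huk k).2) ht

theorem Sq.jlim (H : Sq μk ρk₀ ρk₁ ψk μ ρ₀ ρ₁ ψ) {α : ℝ → ℝ} (hα : Measurable α)
    (h01 : ∀ ξ, α ξ ∈ Icc (0 : ℝ) 1) {y : ℝ}
    (hy : y < ∫ ξ, jj (Lm μ) ψ (Cs ρ₀) (Cs ρ₁) (α ξ) ξ ∂gm) : ∀ᶠ k in atTop,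
      y < ∫ ξ, jj (lap (μk k)) (ψk k) (Cs (ρk₀ k)) (Cs (ρk₁ k)) (α ξ) ξ ∂gm := by
  have hψ := H.cψ.measurable
  have hψk := H.ms
  have hp := H.pμ
  have t0 : ∀ k, Tf fun ξ => lap (μk k) (α ξ * ψk k ξ) := fun k =>
    (tf_lap prob_le_one).comp (by fun_prop)
  have t1 : ∀ k, Tf fun ξ => lap (μk k) ((1 - α ξ) * ψk k ξ) := fun k =>
    (tf_lap prob_le_one).comp (by fun_prop)
  have s0 : Tf fun ξ => Lm μ (α ξ * ψ ξ) := (tf_Lm H.mμ).comp (by fun_prop)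
  have s1 : Tf fun ξ => Lm μ ((1 - α ξ) * ψ ξ) := (tf_Lm H.mμ).comp (by fun_prop)
  have c0 := H.pos.mono fun ξ h => conv H.vμ hp (H.lim ξ) h (h01 ξ).1
  have c1 := H.pos.mono fun ξ h => conv H.vμ hp (H.lim ξ) h (sub_nonneg.2 (h01 ξ).2)
  have h1 := ((weak H.v₀ H.p₀ H.m₀ t1 s1 c1).add (weak H.v₁ H.p₁ H.m₁ t0 s0 c0)).sub
    (dct (fun k => (t0 k).mul (t1 k)) ((c0.and c1).mono fun ξ h => h.1.mul h.2))
  simp only [jj] at hy ⊢
  rw [(expand (tf_Cs H.m₀) (tf_Cs H.m₁) s0 s1).2, lt_sub_iff_add_lt] at hy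
  obtain ⟨z, hz1, hz2⟩ := exists_between hy
  filter_upwards [lower H.v₀ H.v₁ H.p₀ H.m₀ H.p₁ H.m₁ hz2,
    (h1.const_add y).eventually (gt_mem_nhds hz1)] with k a b
  rw [(expand (tf_Cs (H.p₀ k)) (tf_Cs (H.p₁ k)) (t0 k) (t1 k)).2]
  linarith

theorem jj_nonpos [IsFiniteMeasure μ] {s t a : ℝ} (hs : 0 ≤ s) (ht : 0 ≤ t)
    (ha : a ∈ Icc (0 : ℝ) 1) :
    (lap μ s - lap μ (a * (s + t))) * (lap μ t - lap μ ((1 - a) * (s + t))) ≤ 0 := by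
  have h0 := mul_nonneg ha.1 (add_nonneg hs ht)
  have h1 := mul_nonneg (sub_nonneg.2 ha.2) (add_nonneg hs ht)
  rcases le_total s (a * (s + t)) with h | h
  · exact mul_nonpos_of_nonneg_of_nonpos (sub_nonneg.2 (lap_anti hs h))
      (sub_nonpos.2 (lap_anti h1 (by linarith)))
  · exact mul_nonpos_of_nonpos_of_nonneg (sub_nonpos.2 (lap_anti h0 h))
      (sub_nonneg.2 (lap_anti ht (by linarith)))

theorem exists_rat (h1 : μ univ ≤ 1) {y₀ y₁ x ε : ℝ} (h₀ : y₀ ≤ 1) (h₁ : y₁ ≤ 1) (hε : 0 < ε) :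
    ∃ q : ℚ, (q : ℝ) ∈ Icc (0 : ℝ) 1 ∧
      -ε ≤ (y₀ - Lm μ (q * x)) * (y₁ - Lm μ ((1 - q) * x)) := by
  have := fin_of_le h1
  have hc := cont_lap (μ := μ)
  rcases eq_or_ne x 0 with rfl | hx
  · exact ⟨0, by simp, by simp only [Lm, mul_zero, if_true]; nlinarith⟩
  by_cases a1 : y₀ ≤ lap μ x
  · refine ⟨1, by simp, ?_⟩
    simp only [Lm, Rat.cast_one, one_mul, sub_self, zero_mul, if_true, if_neg hx]
    nlinarith
  by_cases a2 : y₁ ≤ lap μ x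
  · refine ⟨0, by simp, ?_⟩
    simp only [Lm, Rat.cast_zero, one_mul, sub_zero, zero_mul, if_true, if_neg hx]
    nlinarith
  obtain ⟨a, ha, h⟩ : ∃ a ∈ Icc (0 : ℝ) 1,
      0 ≤ (y₀ - lap μ (a * x)) * (y₁ - lap μ ((1 - a) * x)) := by
    by_cases a3 : lap μ 0 ≤ y₀
    · exact ⟨0, by simp, by simp only [zero_mul, sub_zero, one_mul]; nlinarith⟩
    obtain ⟨a, ha, h⟩ := intermediate_value_Icc' (f := fun a => lap μ (a * x)) zero_le_one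
      (by fun_prop) (show y₀ ∈ Icc _ _ from ⟨by simpa using le_of_not_ge a1, by
        simpa using le_of_not_ge a3⟩)
    exact ⟨a, ha, by simp [← h]⟩
  have ho : IsOpen {a : ℝ | -ε < (y₀ - lap μ (a * x)) * (y₁ - lap μ ((1 - a) * x))} :=
    isOpen_lt continuous_const (by fun_prop)
  rw [← closure_Ioo zero_ne_one] at ha
  obtain ⟨q, hq, hq0, hq1⟩ := Rat.denseRange_cast.exists_mem_open (ho.inter isOpen_Ioo)
    (mem_closure_iff.1 ha _ ho (show -ε < _ by linarith))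
  refine ⟨q, ⟨hq0.le, hq1.le⟩, ?_⟩
  rw [Lm, Lm, if_neg (mul_ne_zero hq0.ne' hx), if_neg (mul_ne_zero (sub_pos.2 hq1).ne' hx)]
  exact le_of_lt hq

theorem select {P : ℚ → ℝ → Prop} (hP : ∀ q, MeasurableSet {x | P q x}) (h : ∀ x, ∃ q, P q x) :
    ∃ f : ℝ → ℚ, Measurable (fun x => (f x : ℝ)) ∧ ∀ x, P (f x) x := by
  classical
  obtain ⟨e, he⟩ := exists_surjective_nat ℚ
  have h1 : ∀ x, ∃ n, P (e n) x := fun x => by
    obtain ⟨q, hq⟩ := h x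
    obtain ⟨n, rfl⟩ := he q
    exact ⟨n, hq⟩
  exact ⟨fun x => e (Nat.find (h1 x)), Measurable.find (f := fun n _ => (e n : ℝ))
    (p := fun n x => P (e n) x) (fun _ => measurable_const) (fun n => hP _) h1,
    fun x => Nat.find_spec (h1 x)⟩

theorem all_of_ae {F : ℝ → ℝ} (hF : Continuous F) (h : ∀ᵐ ξ ∂gm, F ξ ≤ 0) (ξ : ℝ) : F ξ ≤ 0 :=
  (Measure.dense_of_ae ((gaussianReal_absolutelyContinuous' 0 one_ne_zero).ae_le h)).induction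
    (fun _ h => h) (isClosed_le hF continuous_const) ξ

theorem Sq.point (H : Sq μk ρk₀ ρk₁ ψk μ ρ₀ ρ₁ ψ) (ξ : ℝ) {u : ℝ} (hu : u ∈ Icc 0 (ψ ξ)) :
    (Cs ρ₀ ξ - lap μ u) * (Cs ρ₁ ξ - lap μ (ψ ξ - u)) ≤ 0 := by
  have hψ := H.cψ
  have hp := H.pμ
  have := fin_of_le H.mμ
  have := fin_of_le H.m₀
  have := fin_of_le H.m₁
  have hi : ∀ α : ℝ → ℝ, Measurable α →
      Integrable (fun ξ => jj (Lm μ) ψ (Cs ρ₀) (Cs ρ₁) (α ξ) ξ) gm := fun α hα =>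
    (expand (tf_Cs H.m₀) (tf_Cs H.m₁) ((tf_Lm H.mμ).comp (by fun_prop))
      ((tf_Lm H.mμ).comp (by fun_prop))).1
  have hm : ∀ a, Measurable (jj (Lm μ) ψ (Cs ρ₀) (Cs ρ₁) a) := fun a =>
    ((tf_Cs H.m₀).1.sub ((tf_Lm H.mμ).1.comp (by fun_prop))).mul
      ((tf_Cs H.m₁).1.sub ((tf_Lm H.mμ).1.comp (by fun_prop)))
  have h1 : ∀ a ∈ Ioo (0 : ℝ) 1, ∀ ξ, jj (lap μ) ψ (Cs ρ₀) (Cs ρ₁) a ξ ≤ 0 := fun a ha => by
    have h2 : ∫ ξ, max (jj (Lm μ) ψ (Cs ρ₀) (Cs ρ₁) a ξ) 0 ∂gm ≤ 0 := by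
      refine le_of_forall_pos_le_add fun ε hε => ?_
      obtain ⟨f, hf, h3⟩ := select (P := fun q ξ => (q : ℝ) ∈ Icc (0 : ℝ) 1 ∧
          -ε ≤ jj (Lm μ) ψ (Cs ρ₀) (Cs ρ₁) q ξ) (fun q => (MeasurableSet.const _).inter
            (measurableSet_le measurable_const (hm _))) fun ξ => exists_rat H.mμ
          (le_of_abs_le ((tf_Cs H.m₀).2 ξ)) (le_of_abs_le ((tf_Cs H.m₁).2 ξ)) hε
      set α : ℝ → ℝ := fun ξ => if 0 ≤ jj (Lm μ) ψ (Cs ρ₀) (Cs ρ₁) a ξ then a else f ξ with hα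
      have hαm : Measurable α := Measurable.ite (measurableSet_le measurable_const (hm a))
        measurable_const hf
      have h01 : ∀ ξ, α ξ ∈ Icc (0 : ℝ) 1 := fun ξ => by
        simp only [hα]; split_ifs; exacts [Ioo_subset_Icc_self ha, (h3 ξ).1]
      have h4 : ∫ ξ, jj (Lm μ) ψ (Cs ρ₀) (Cs ρ₁) (α ξ) ξ ∂gm ≤ 0 := le_of_not_gt fun h => by
        obtain ⟨k, hk⟩ := (H.jlim hαm h01 h).exists
        refine hk.not_ge (integral_nonpos fun ξ => ?_)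
        obtain ⟨s, t, a, b, c, d, e⟩ := H.dec k ξ
        simpa only [jj, d, e, ← c, Pi.zero_apply] using jj_nonpos a b (h01 ξ)
      refine (integral_mono (hi _ measurable_const).pos_part ((hi α hαm).add (integrable_const ε))
        fun ξ => ?_).trans ?_
      · simp only [hα, Pi.add_apply]
        split_ifs with h
        · rw [max_eq_left h]; linarith
        · rw [max_eq_right (le_of_not_ge h)]; linarith [(h3 ξ).2]
      · simp only [Pi.add_apply]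
        rw [integral_add (hi α hαm) (integrable_const ε)]; simpa using h4
    have h3 := (integral_eq_zero_iff_of_nonneg (fun ξ => le_max_right _ _)
      (hi _ measurable_const).pos_part).1 (h2.antisymm (integral_nonneg fun ξ => le_max_right _ _))
    refine all_of_ae (by
      have := cont_lap (μ := μ); have := cont_Cs (ν := ρ₀); have := cont_Cs (ν := ρ₁)
      unfold jj; fun_prop) ?_
    filter_upwards [h3, H.pos] with ξ h h'
    have := max_eq_right_iff.1 h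
    rwa [jj, Lm, Lm, if_neg (mul_pos ha.1 h').ne', if_neg (mul_pos (sub_pos.2 ha.2) h').ne'] at this
  have h2 : ∀ a ∈ Icc (0 : ℝ) 1, jj (lap μ) ψ (Cs ρ₀) (Cs ρ₁) a ξ ≤ 0 := fun a ha => by
    rw [← closure_Ioo zero_ne_one] at ha
    exact closure_minimal (t := {a | jj (lap μ) ψ (Cs ρ₀) (Cs ρ₁) a ξ ≤ 0}) (fun a ha => h1 a ha ξ)
      (isClosed_le (by have := cont_lap (μ := μ); unfold jj; fun_prop) continuous_const) ha
  rcases (H.nn ξ).eq_or_lt with h | h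
  · have := h2 0 (by simp)
    rw [← h] at hu
    simpa [jj, ← h, hu.2.antisymm hu.1] using this
  · simpa [jj, sub_mul, h.ne'] using h2 (u / ψ ξ) ⟨div_nonneg hu.1 h.le, (div_le_one h).2 hu.2⟩

theorem Sq.low (H : Sq μk ρk₀ ρk₁ ψk μ ρ₀ ρ₁ ψ) (ξ : ℝ) : lap μ (ψ ξ) ≤ Cs ρ₀ ξ := by
  have hψ := H.cψ
  have hp := H.pμ
  have := fin_of_le H.mμ
  have := fin_of_le H.m₀
  have hc : Continuous fun ξ => lap μ (ψ ξ) - Cs ρ₀ ξ := (cont_lap.comp hψ).sub cont_Cs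
  set h : ℝ → ℝ := fun ξ => if 0 < lap μ (ψ ξ) - Cs ρ₀ ξ then 1 else 0 with hh
  have th : Tf h := ⟨Measurable.ite (measurableSet_lt measurable_const hc.measurable)
    measurable_const measurable_const, fun ξ => by simp only [hh]; split_ifs <;> simp⟩
  have h0 : ∀ ξ, 0 ≤ h ξ := fun ξ => by simp only [hh]; split_ifs <;> simp
  have t0 : ∀ k, Tf fun ξ => lap (μk k) (ψk k ξ) * h ξ := fun k =>
    ((tf_lap prob_le_one).comp (H.ms k)).mul th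
  have h1 := le_of_tendsto_of_tendsto' (dct (u := fun ξ => lap μ (ψ ξ) * h ξ) t0
      (H.pos.mono fun ξ h' => Tendsto.mul_const _ (by
        simpa [Lm, h'.ne'] using conv H.vμ hp (H.lim ξ) h' zero_le_one)))
    (weak H.v₀ H.p₀ H.m₀ (fun _ => th) th (Eventually.of_forall fun _ => tendsto_const_nhds))
    fun k => integral_mono ((t0 k).int _) (((tf_Cs (H.p₀ k)).mul th).int _) fun ξ => by
      obtain ⟨s, t, a, b, c, d, -⟩ := H.dec k ξ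
      exact mul_le_mul_of_nonneg_right (d ▸ lap_anti a (by linarith)) (h0 ξ)
  have i1 := (((tf_lap H.mμ).comp hψ.measurable).mul th).int gm
  have i2 := ((tf_Cs H.m₀).mul th).int gm
  have h2 : ∀ ξ, 0 ≤ lap μ (ψ ξ) * h ξ - Cs ρ₀ ξ * h ξ := fun ξ => by
    simp only [hh]; split_ifs with a <;> linarith
  have h3 := (integral_eq_zero_iff_of_nonneg h2 (i1.sub i2)).1
    (le_antisymm (by rw [integral_sub i1 i2]; linarith) (integral_nonneg h2))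
  refine sub_nonpos.1 (all_of_ae hc (h3.mono fun ξ a => le_of_not_gt fun b => ?_) ξ)
  simp only [hh, if_pos b, mul_one, Pi.zero_apply] at a
  linarith

end Pool.Agent.MP_9cb8e5_pr.H55
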