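import Pool.Agent.MP_9cb8e5_pr.H55.Vague

/-! Cosine transforms paired against the standard Gaussian law. -/

open MeasureTheory Set Filter Topology ProbabilityTheory

namespace Pool.Agent.MP_9cb8e5_pr.H55

noncomputable abbrev gm : Measure ℝ := gaussianReal 0 1

/-- test functions -/
def Tf (h : ℝ → ℝ) : Prop := Measurable h ∧ ∀ x, |h x| ≤ 1

noncomputable def Cw (a : ℝ → ℝ) (ν : Measure ℝ) (ξ : ℝ) : ℝ := ∫ x, a x * Real.cos (ξ * x) ∂ν

noncomputable def Cs (ν : Measure ℝ) (ξ : ℝ) : ℝ := ∫ x, Real.cos (ξ * x) ∂ν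

noncomputable def hat (h : ℝ → ℝ) (x : ℝ) : ℝ := ∫ ξ, Real.cos (ξ * x) * h ξ ∂gm

variable {a h u : ℝ → ℝ} {ν ν' : Measure ℝ} {νk νk' : ℕ → Measure ℝ}

theorem tf_one : Tf fun _ => 1 := ⟨measurable_const, by simp⟩

theorem Tf.mul (ha : Tf a) (hh : Tf h) : Tf fun x => a x * h x :=
  ⟨ha.1.mul hh.1, fun x => by
    rw [abs_mul]; exact mul_le_one₀ (ha.2 x) (abs_nonneg _) (hh.2 x)⟩

theorem tf_cos (ξ : ℝ) : Tf fun x => Real.cos (ξ * x) :=
  ⟨by fun_prop, fun _ => Real.abs_cos_le_one _⟩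

theorem Tf.int (hh : Tf h) (ν : Measure ℝ) [IsFiniteMeasure ν] : Integrable h ν :=
  (integrable_const (1 : ℝ)).mono' hh.1.aestronglyMeasurable (Eventually.of_forall hh.2)

theorem Cs_eq (ν : Measure ℝ) : Cs ν = Cw (fun _ => 1) ν := by ext; simp [Cs, Cw]

theorem fin_of_le (h : ν univ ≤ 1) : IsFiniteMeasure ν := ⟨h.trans_lt ENNReal.one_lt_top⟩

theorem Tf.abs_int (hh : Tf h) (h1 : ν univ ≤ 1) : |∫ x, h x ∂ν| ≤ 1 := by
  have := fin_of_le h1
  refine (norm_integral_le_of_norm_le_const (f := h) (C := 1) (Eventually.of_forall hh.2)).trans ?_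
  simpa [Measure.real] using ENNReal.toReal_mono ENNReal.one_ne_top h1

theorem cont_Cw (ha : Tf a) [IsFiniteMeasure ν] : Continuous (Cw a ν) :=
  continuous_of_dominated (fun ξ => (ha.mul (tf_cos ξ)).1.aestronglyMeasurable)
    (fun ξ => Eventually.of_forall (ha.mul (tf_cos ξ)).2) (integrable_const (1 : ℝ))
    (Eventually.of_forall fun x => by fun_prop)

theorem tf_Cw (ha : Tf a) (h1 : ν univ ≤ 1) : Tf (Cw a ν) :=
  have := fin_of_le h1
  ⟨(cont_Cw ha).measurable, fun ξ => (ha.mul (tf_cos ξ)).abs_int h1⟩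

theorem cont_Cs [IsFiniteMeasure ν] : Continuous (Cs ν) := Cs_eq ν ▸ cont_Cw tf_one

theorem tf_Cs (h1 : ν univ ≤ 1) : Tf (Cs ν) := Cs_eq ν ▸ tf_Cw tf_one h1

theorem fub (ha : Tf a) (hh : Tf h) [IsFiniteMeasure ν] :
    ∫ ξ, Cw a ν ξ * h ξ ∂gm = ∫ x, a x * hat h x ∂ν := by
  simp only [Cw, hat, ← integral_mul_const, ← integral_const_mul, mul_assoc]
  refine integral_integral_swap ((integrable_const (1 : ℝ)).mono' ?_
    (Eventually.of_forall fun p => ?_))
  · have := ha.1
    have := hh.1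
    exact Measurable.aestronglyMeasurable (by fun_prop)
  · exact (ha.mul ((tf_cos p.1).mul ⟨measurable_const, fun _ => hh.2 p.1⟩)).2 p.2

theorem hat_eq (h : ℝ → ℝ) : hat h = Cw h gm := by
  ext x; simp only [hat, Cw, mul_comm]

theorem hat_abs (h : ℝ → ℝ) (x : ℝ) : hat h |x| = hat h x := by
  rcases abs_choice x with e | e <;> simp [hat, e]

theorem hat_zero (hh : Tf h) : Tendsto (hat h) atTop (𝓝 0) := by
  set f : ℝ → ℂ := fun v => (gaussianPDFReal 0 1 v * h v : ℝ) with hf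
  have hi : Integrable f := by
    refine ((integrable_gaussianPDFReal 0 1).mono' (f := fun v => gaussianPDFReal 0 1 v * h v) ?_
      (Eventually.of_forall fun v => ?_)).ofReal
    · exact ((measurable_gaussianPDFReal 0 1).mul hh.1).aestronglyMeasurable
    · rw [norm_mul, Real.norm_of_nonneg (gaussianPDFReal_nonneg 0 1 v)]
      exact mul_le_of_le_one_right (gaussianPDFReal_nonneg 0 1 v) (hh.2 v)
  have h1 := (Complex.continuous_re.tendsto _).comp
    (((Real.tendsto_integral_exp_smul_cocompact f).mono_left atTop_le_cocompact).comp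
      (tendsto_id.atTop_div_const Real.two_pi_pos))
  refine h1.congr fun x => ?_
  have h2 : Integrable fun v : ℝ => Real.fourierChar (-(v * (x / (2 * Real.pi)))) • f v :=
    hi.mono (Continuous.aestronglyMeasurable (by fun_prop) |>.smul hi.1)
      (Eventually.of_forall fun v => by simp)
  simp only [Function.comp, id]
  rw [← RCLike.re_to_complex, ← integral_re h2, hat,
    integral_gaussianReal_eq_integral_smul one_ne_zero]
  refine integral_congr_ae (Eventually.of_forall fun v => ?_)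
  have e : 2 * Real.pi * -(v * (x / (2 * Real.pi))) = -(v * x) := by field_simp
  simp only [Circle.smul_def, Real.fourierChar_apply, e, hf, smul_eq_mul, RCLike.re_to_complex,
    Complex.re_mul_ofReal, Complex.exp_ofReal_mul_I_re, Real.cos_neg]
  ring

theorem hat_pos [IsFiniteMeasure ν] (x : ℝ) : 0 ≤ hat (Cs ν) x := by
  have h1 : ∀ y : ℝ, ∫ ξ, Real.cos (ξ * y) ∂gm = Real.exp (-(y ^ 2 / 2)) := fun y => by
    have h2 : Integrable (fun ξ : ℝ => Complex.exp (y * ξ * Complex.I)) gm :=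
      (integrable_const (1 : ℝ)).mono' (by fun_prop) (Eventually.of_forall fun x => by
        rw [← Complex.ofReal_mul, Complex.norm_exp_ofReal_mul_I])
    have h3 := integral_re h2
    rw [← charFun_apply_real, charFun_gaussianReal] at h3
    simp only [← Complex.ofReal_mul, RCLike.re_to_complex, Complex.exp_ofReal_mul_I_re,
      mul_comm y] at h3
    rw [h3, ← Complex.exp_ofReal_re]; simp
  have h2 := fub (ν := ν) tf_one (tf_cos x)
  simp only [← Cs_eq, mul_comm (Cs ν _), mul_comm x] at h2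
  rw [hat, h2]
  refine integral_nonneg fun y => ?_
  have h3 : ∀ ξ : ℝ, Real.cos (ξ * y) * Real.cos (ξ * x) =
      (Real.cos (ξ * (y + x)) + Real.cos (ξ * (y - x))) / 2 := fun ξ => by
    rw [mul_add, mul_sub, Real.cos_add, Real.cos_sub]; ring
  have h4 : ∀ z : ℝ, Integrable (fun ξ => Real.cos (ξ * z)) gm := fun z => by
    simpa only [mul_comm z] using (tf_cos z).int gm
  simp only [hat, h3, integral_div, integral_add (h4 _) (h4 _), h1, Pi.zero_apply]
  positivity

theorem weak (H : Vag νk ν) (hk : ∀ k, νk k univ ≤ 1) (h1 : ν univ ≤ 1) {uk : ℕ → ℝ → ℝ}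
    (huk : ∀ k, Tf (uk k)) (hu : Tf u) (ht : ∀ᵐ ξ ∂gm, Tendsto (fun k => uk k ξ) atTop (𝓝 (u ξ))) :
    Tendsto (fun k => ∫ ξ, Cs (νk k) ξ * uk k ξ ∂gm) atTop (𝓝 (∫ ξ, Cs ν ξ * u ξ ∂gm)) := by
  have := fin_of_le h1
  have := fun k => fin_of_le (hk k)
  have h2 := H (hat u) (hat_eq u ▸ cont_Cw hu) (hat_zero hu)
  have h3 : Tendsto (fun k => ∫ ξ, Cs (νk k) ξ * (uk k ξ - u ξ) ∂gm) atTop (𝓝 (∫ _, 0 ∂gm)) := by
    refine tendsto_integral_of_dominated_convergence (fun _ => 2) (fun k =>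
      ((tf_Cs (hk k)).1.mul ((huk k).1.sub hu.1)).aestronglyMeasurable) (integrable_const _)
      (fun k => Eventually.of_forall fun ξ => ?_) ?_
    · rw [norm_mul]
      have := abs_sub (uk k ξ) (u ξ)
      refine (mul_le_of_le_one_left (norm_nonneg _) ((tf_Cs (hk k)).2 ξ)).trans ?_
      rw [Real.norm_eq_abs]; linarith [(huk k).2 ξ, hu.2 ξ]
    · filter_upwards [ht] with ξ hξ
      refine squeeze_zero_norm (fun k => ?_) (tendsto_iff_norm_sub_tendsto_zero.1 hξ)
      rw [norm_mul]; exact mul_le_of_le_one_left (norm_nonneg _) ((tf_Cs (hk k)).2 ξ)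
  have h4 := h3.add h2
  simp only [integral_zero, zero_add, hat_abs] at h4
  rw [Cs_eq, fub tf_one hu]
  simp only [one_mul]
  refine h4.congr fun k => ?_
  have := fub (ν := νk k) tf_one hu
  simp only [one_mul, ← Cs_eq] at this
  simp only [mul_sub]
  rw [← this, integral_sub (((tf_Cs (hk k)).mul (huk k)).int _) (((tf_Cs (hk k)).mul hu).int _),
    sub_add_cancel]

theorem lower (H : Vag νk ν) (H' : Vag νk' ν') (hk : ∀ k, νk k univ ≤ 1) (h1 : ν univ ≤ 1)
    (hk' : ∀ k, νk' k univ ≤ 1) (h1' : ν' univ ≤ 1) {y : ℝ} (hy : y < ∫ ξ, Cs ν ξ * Cs ν' ξ ∂gm) :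
    ∀ᶠ k in atTop, y < ∫ ξ, Cs (νk k) ξ * Cs (νk' k) ξ ∂gm := by
  have := fin_of_le h1
  have := fin_of_le h1'
  have := fun k => fin_of_le (hk k)
  have := fun k => fin_of_le (hk' k)
  have ta : ∀ N : ℕ, Tf fun x => Real.exp (-|x| / (N + 1)) := fun N => ⟨by fun_prop, fun x => by
    rw [abs_of_pos (Real.exp_pos _), Real.exp_le_one_iff]
    exact div_nonpos_of_nonpos_of_nonneg (neg_nonpos.2 (abs_nonneg x)) (by positivity)⟩
  have th : ∀ {σ : Measure ℝ}, σ univ ≤ 1 → Tf (hat (Cs σ)) := fun h =>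
    hat_eq _ ▸ tf_Cw (tf_Cs h) prob_le_one
  have h2 : Tendsto (fun N : ℕ => ∫ x, Real.exp (-|x| / (N + 1)) * hat (Cs ν') x ∂ν) atTop
      (𝓝 (∫ x, 1 * hat (Cs ν') x ∂ν)) := by
    refine tendsto_integral_of_dominated_convergence (fun _ => 1) (fun N =>
      ((ta N).mul (th h1')).1.aestronglyMeasurable) (integrable_const _)
      (fun N => Eventually.of_forall ((ta N).mul (th h1')).2) (Eventually.of_forall fun x => ?_)
    refine Tendsto.mul_const _ ?_
    simpa [Function.comp_def] using (Real.continuous_exp.tendsto _).comp ((tendsto_const_nhds (x := -|x|)).div_atTop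
      (tendsto_natCast_atTop_atTop.atTop_add (tendsto_const_nhds (x := (1 : ℝ)))))
  rw [← fub tf_one (tf_Cs h1'), ← Cs_eq] at h2
  obtain ⟨N, hN⟩ := (h2.eventually (lt_mem_nhds hy)).exists
  rw [← fub (ta N) (tf_Cs h1')] at hN
  have h3 := weak H' hk' h1' (fun k => tf_Cw (ta N) (hk k)) (tf_Cw (ta N) h1)
    (Eventually.of_forall fun ξ => by
      have h4 := H (fun x => Real.exp (-|x| / (N + 1)) * Real.cos (ξ * x)) (by fun_prop) (by
        refine squeeze_zero_norm (fun x => ?_) (Real.tendsto_exp_atBot.comp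
          ((tendsto_neg_atTop_atBot.comp tendsto_abs_atTop_atTop).atBot_div_const
            (show (0 : ℝ) < N + 1 by positivity)))
        rw [norm_mul, Real.norm_of_nonneg (Real.exp_pos _).le]
        exact mul_le_of_le_one_right (Real.exp_pos _).le (Real.abs_cos_le_one _))
      refine h4.congr fun k => integral_congr_ae (Eventually.of_forall fun x => ?_)
      rcases abs_choice x with e | e <;> simp [e])
  simp only [mul_comm (Cs _ _)] at h3
  filter_upwards [h3.eventually (lt_mem_nhds hN)] with k hk2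
  refine hk2.trans_le ?_
  rw [fub (ta N) (tf_Cs (hk' k)), Cs_eq (νk k), fub tf_one (tf_Cs (hk' k))]
  exact integral_mono (((ta N).mul (th (hk' k))).int _) ((tf_one.mul (th (hk' k))).int _) fun x =>
    mul_le_mul_of_nonneg_right ((le_abs_self _).trans ((ta N).2 x)) (hat_pos x)

end Pool.Agent.MP_9cb8e5_pr.H55
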