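import Mathlib

/-! Vague limits of the laws of the absolute value. -/

open MeasureTheory Set Filter Topology

namespace Pool.Agent.MP_9cb8e5_pr.H55

/-- the images of `νk k` under the absolute value converge vaguely to `ν` -/
def Vag (νk : ℕ → Measure ℝ) (ν : Measure ℝ) : Prop :=
  ∀ h : ℝ → ℝ, Continuous h → Tendsto h atTop (𝓝 0) →
    Tendsto (fun k => ∫ x, h |x| ∂νk k) atTop (𝓝 (∫ x, h x ∂ν))

noncomputable def toI (x : ℝ) : unitInterval :=
  ⟨Real.exp (-|x|), (Real.exp_pos _).le, Real.exp_le_one_iff.2 (neg_nonpos.2 (abs_nonneg x))⟩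

theorem cont_toI : Continuous toI := Continuous.subtype_mk (by fun_prop) _

noncomputable def ext0 (h : ℝ → ℝ) (y : ℝ) : ℝ := if 0 < y then h (-Real.log y) else 0

theorem cont_ext0 {h : ℝ → ℝ} (hc : Continuous h) (h0 : Tendsto h atTop (𝓝 0)) :
    Continuous (ext0 h) := by
  refine continuous_iff_continuousAt.2 fun y => ?_
  rcases lt_trichotomy y 0 with hy | rfl | hy
  · refine continuousAt_const.congr (f := fun _ => (0 : ℝ)) ?_
    filter_upwards [Iio_mem_nhds hy] with z (hz : z < 0) using by simp [ext0, hz.not_gt]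
  · rw [ContinuousAt, ← nhdsLE_sup_nhdsGT, tendsto_sup]
    have e : ext0 h 0 = 0 := by simp [ext0]
    rw [e]
    constructor
    · refine tendsto_const_nhds.congr' ?_
      filter_upwards [self_mem_nhdsWithin] with z (hz : z ≤ 0) using by simp [ext0, hz.not_gt]
    · refine (h0.comp (tendsto_neg_atBot_atTop.comp Real.tendsto_log_nhdsGT_zero)).congr' ?_
      filter_upwards [self_mem_nhdsWithin] with z (hz : 0 < z) using by simp [ext0, hz]
  · refine (hc.continuousAt.comp (Real.continuousAt_log hy.ne').neg).congr ?_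
    filter_upwards [Ioi_mem_nhds hy] with z (hz : 0 < z) using by simp [ext0, hz]

theorem vague {ι : Type} [Finite ι] (ν : ℕ → ι → Measure ℝ)
    (hν : ∀ k i, IsProbabilityMeasure (ν k i)) : ∃ φ : ℕ → ℕ, StrictMono φ ∧
      ∃ ν' : ι → Measure ℝ, ∀ i, ν' i univ ≤ 1 ∧ (∀ᵐ x ∂ν' i, 0 ≤ x) ∧
        Vag (fun k => ν (φ k) i) (ν' i) := by
  have hm := cont_toI.measurable
  obtain ⟨P, φ, hφ, hP⟩ := CompactSpace.tendsto_subseq (X := ι → ProbabilityMeasure unitInterval)
    fun k i => ⟨(ν k i).map toI, Measure.isProbabilityMeasure_map hm.aemeasurable⟩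
  have hl : Measurable fun y : unitInterval => -Real.log y := by fun_prop
  have hs : MeasurableSet {y : unitInterval | (0 : ℝ) < y} :=
    measurableSet_lt measurable_const measurable_subtype_coe
  refine ⟨φ, hφ, fun i => ((P i : Measure unitInterval).restrict {y | (0 : ℝ) < y}).map
    fun y : unitInterval => -Real.log y, fun i => ⟨?_, ?_, fun h hc h0 => ?_⟩⟩
  · rw [Measure.map_apply hl MeasurableSet.univ, preimage_univ, Measure.restrict_apply_univ]
    exact prob_le_one
  · exact (ae_map_iff hl.aemeasurable measurableSet_Ici).2 (Eventually.of_forall fun y =>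
      neg_nonneg.2 (Real.log_nonpos y.2.1 y.2.2))
  · have h1 := ProbabilityMeasure.tendsto_iff_forall_integral_tendsto.1 (tendsto_pi_nhds.1 hP i)
      (BoundedContinuousFunction.mkOfCompact
        ⟨fun y => ext0 h y, (cont_ext0 hc h0).comp continuous_subtype_val⟩)
    have h2 : ∫ x, h x ∂((P i : Measure unitInterval).restrict {y | (0 : ℝ) < y}).map
        (fun y : unitInterval => -Real.log y) = ∫ y, ext0 h y ∂(P i : Measure unitInterval) := by
      rw [integral_map hl.aemeasurable hc.aestronglyMeasurable, ← integral_indicator hs]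
      exact integral_congr_ae (Eventually.of_forall fun y => by simp [indicator, ext0])
    rw [h2]
    refine h1.congr fun k => ?_
    simp only [Function.comp, ProbabilityMeasure.coe_mk, BoundedContinuousFunction.mkOfCompact_apply,
      ContinuousMap.coe_mk]
    refine (integral_map hm.aemeasurable
      ((cont_ext0 hc h0).comp continuous_subtype_val).aestronglyMeasurable).trans ?_
    simp [ext0, toI, Real.exp_pos]

end Pool.Agent.MP_9cb8e5_pr.H55
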