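import Pool.Agent.MP_9cb8e5_pr.H55.Gap
import Pool.Agent.MP_9cb8e5_pr.H67.Fail

/-! The criterion for (R) outside a window. -/

open MeasureTheory Set Filter Topology ProbabilityTheory Pool.Agent.MP_9cb8e5_pr.H67

namespace Pool.Agent.MP_9cb8e5_pr.H55

theorem exp_of_tail {μ : Measure ℝ} [IsProbabilityMeasure μ] {R : ℝ} (hR : 0 ≤ R)
    (h : ∀ᶠ v in atTop, ∫ w in Ici v, (√w)⁻¹ ∂μ ≤ Real.exp (-(R + 2) * v)) :
    Integrable (fun w => Real.exp (R * w)) μ := by
  obtain ⟨V, hV⟩ := eventually_atTop.1 (h.and (eventually_gt_atTop 0))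
  have i1 : ∀ v : ℝ, IntegrableOn (fun w => Real.exp (R * w)) (Iio v) μ := fun v =>
    Measure.integrableOn_of_bounded (M := Real.exp (R * v)) (measure_ne_top _ _) (by fun_prop)
      (ae_restrict_of_forall_mem measurableSet_Iio fun w (hw : w < v) => by
        rw [Real.norm_of_nonneg (Real.exp_pos _).le]; gcongr)
  have i2 : ∀ n : ℕ, IntegrableOn (fun w => Real.exp (R * w)) (Ico (V + n) (V + n + 1)) μ :=
    fun n => (i1 _).mono_set Ico_subset_Iio_self
  have i3 := integrableOn_iUnion_of_summable_integral_norm i2 (Summable.of_nonneg_of_le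
    (fun n => integral_nonneg fun _ => norm_nonneg _) (fun n => ?_)
    ((Real.summable_exp_neg_nat).mul_left (Real.exp R)))
  · rw [← integrableOn_univ]
    refine ((i1 V).union i3).mono_set fun w _ => (lt_or_ge w V).imp id fun hw => mem_iUnion.2
      ⟨⌊w - V⌋₊, ?_, ?_⟩
    · linarith [Nat.floor_le (sub_nonneg.2 hw)]
    · linarith [Nat.lt_floor_add_one (w - V)]
  obtain ⟨h1, h2⟩ := hV (V + n) (by simp)
  have h3 := (hV V le_rfl).2
  have i4 : IntegrableOn (fun w => (√w)⁻¹) (Ici (V + n)) μ :=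
    Measure.integrableOn_of_bounded (M := (√(V + n))⁻¹) (measure_ne_top _ _)
      (Measurable.aestronglyMeasurable (by fun_prop))
      (ae_restrict_of_forall_mem measurableSet_Ici fun w (hw : V + n ≤ w) => by
        rw [Real.norm_of_nonneg (by positivity)]; gcongr)
  calc ∫ w in Ico (V + n) (V + n + 1), ‖Real.exp (R * w)‖ ∂μ
      ≤ ∫ w in Ico (V + n) (V + n + 1), Real.exp (R * (V + n + 1) + (V + n)) * (√w)⁻¹ ∂μ := by
        refine setIntegral_mono_on (i2 n).norm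
          (Integrable.const_mul (i4.mono_set Ico_subset_Ici_self) _) measurableSet_Ico fun w hw => ?_
        have a1 := Real.sqrt_pos.2 (h2.trans_le hw.1)
        have a2 : √w ≤ Real.exp (V + n) := by
          have := Real.add_one_le_exp (V + n)
          rw [Real.sqrt_le_left (Real.exp_pos _).le]; nlinarith [hw.2]
        rw [Real.norm_of_nonneg (Real.exp_pos _).le, Real.exp_add, mul_assoc, ← div_eq_mul_inv]
        exact le_trans (by gcongr; exact hw.2.le)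
          (le_mul_of_one_le_right (Real.exp_pos _).le ((one_le_div a1).2 a2))
    _ ≤ Real.exp (R * (V + n + 1) + (V + n)) * Real.exp (-(R + 2) * (V + n)) := by
        rw [integral_const_mul]
        refine mul_le_mul_of_nonneg_left (le_trans ?_ h1) (Real.exp_pos _).le
        exact setIntegral_mono_set i4 (Eventually.of_forall fun w => by positivity)
          Ico_subset_Ici_self.eventuallyLE
    _ ≤ _ := by
        rw [← Real.exp_add, ← Real.exp_add, Real.exp_le_exp]; linarith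

theorem window (P : ℕ → ℝ → ℝ) : ∃ δ : ℕ → ℝ, (∀ n, 0 < δ n) ∧ ∀ μ : Measure ℝ,
    IsProbabilityMeasure μ → μ (Iio 0) = 0 → μ ≠ Measure.dirac 0 →
    ∀ τ : ℝ → ℝ, (∀ v, τ v = ∫ w in Ici v, (√w)⁻¹ ∂μ) →
    ¬ ((∃ C, ∃ᶠ v in atTop, Real.exp (-C * v) < τ v) ∧
      (∀ C, ∃ᶠ v in atTop, τ v < Real.exp (-C * v)) ∧
      ∀ᶠ n in atTop, ¬ ∃ v, 0 < v ∧ τ v ≤ δ n ∧ ∀ R, ∫ w in Iio v, Real.exp (R * w) ∂μ ≤ P n R) →
    ∀ L : ℝ → ℝ, (∀ s, 0 ≤ s → L s = ∫ w, Real.exp (-s * w) ∂μ) →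
      (PropR L ↔ ∀ C, ∃ᶠ v in atTop, τ v < Real.exp (-C * v)) := by
  obtain ⟨δ, hδ, h⟩ := gap_rigid P
  refine ⟨δ, hδ, fun μ hμ h0 h1 τ hτ hw L hL => ?_⟩
  obtain rfl : τ = fun v => ∫ w in Ici v, (√w)⁻¹ ∂μ := funext hτ
  have nn : ∀ᵐ w ∂μ, 0 ≤ w := by rw [ae_iff]; simpa [Iio] using h0
  refine ⟨fun hR C => by_contra fun hc => not_propR nn (C := C) (by simpa using hc) hL hR,
    fun hb => ?_⟩
  by_cases ha : ∃ C, ∃ᶠ v in atTop, Real.exp (-C * v) < ∫ w in Ici v, (√w)⁻¹ ∂μ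
  · exact h μ hμ nn (ne_dirac h1) (fun hc => hw ⟨ha, hb, hc⟩) L hL
  push Not at ha
  refine propR_of_lap ⟨hμ, nn, ne_dirac h1, fun R => (exp_of_tail (abs_nonneg R) (ha _)).mono'
    (by fun_prop) (nn.mono fun w hw => ?_)⟩ hL
  rw [Real.norm_of_nonneg (Real.exp_pos _).le]; gcongr; exact le_abs_self R

end Pool.Agent.MP_9cb8e5_pr.H55
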